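import Pool.Agent.H559.BS.Main
import Pool.Graph.R_pool_sql_team_seeded_707910d6.T2H32.GB.Fin

set_option autoImplicit false

/-! # Extreme values of the singular product -/

open Finset MeasureTheory ProbabilityTheory Filter Topology
open Pool.Agent.T2H32.BF (V V_pos V_anti V_ratio mertens Model prob)
open Pool.Agent.T2H32.GB (C2 C2_succ C2_pos C2_anti C2_ge)

namespace Pool.Agent.H559.BS

variable {Ω : Type*} [MeasurableSpace Ω] {P : Measure Ω} {a : ℕ → Ω → ℕ}

theorem Fac_two_eq (b : ℕ → ℕ) (n : ℕ) : Fac b n 2 = 1 := by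
  have h1 : (Om b n 2).card = 1 := by
    rw [card_eq_one]
    refine ⟨(n + b 2) % 2, ?_⟩
    unfold Om
    ext r
    rw [mem_filter, mem_range, mem_singleton]
    constructor
    · rintro ⟨h1, h2⟩
      interval_cases r <;> omega
    · intro h
      have h2 : (n + b 2) % 2 = 0 ∨ (n + b 2) % 2 = 1 := by omega
      rcases h2 with h2 | h2 <;> rw [h, h2] <;> omega
  rw [Fac_eq b n 2 Nat.prime_two, h1]
  norm_num

theorem sg_two (b : ℕ → ℕ) (n : ℕ) : sg b n 2 = 1 := by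
  unfold sg
  have : (range (2 + 1)).filter Nat.Prime = {2} := by decide
  rw [this, prod_singleton, Fac_two_eq]

theorem V_two : V 2 = 1 / 2 := by
  unfold V
  have : (range (2 + 1)).filter Nat.Prime = {2} := by decide
  rw [this, prod_singleton]
  norm_num

theorem C2_two : C2 2 = 1 := by
  unfold C2
  rw [prod_eq_one]
  intro p hp
  rw [mem_filter, mem_range] at hp
  have := hp.2.1.two_le
  omega

theorem Fac_mul (b : ℕ → ℕ) (n p : ℕ) (hp : p.Prime) : Fac b n p * (1 - 1 / (p : ℝ)) = 1 - ((Om b n p).card : ℝ) / p := by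
  have h2 : (2 : ℝ) ≤ p := by exact_mod_cast hp.two_le
  unfold Fac
  have h5 : (1 : ℝ) - 1 / p ≠ 0 := by
    have : (1 : ℝ) / p ≤ 1 / 2 := by gcongr
    linarith
  rw [div_mul_cancel₀ _ h5]

theorem step_up (b : ℕ → ℕ) (n y x : ℕ) (hxy : y ≤ x) : sg b n x * V x ≤ sg b n y * V y := by
  induction x, hxy using Nat.le_induction with
  | base => exact le_rfl
  | succ x hx ih =>
    rw [sg_succ, V_succ]
    have h1 := sg_pos b n x
    have h2 := V_pos x
    split_ifs with hp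
    · have h3 := Fac_mul b n (x + 1) hp
      have h4 : (0 : ℝ) ≤ ((Om b n (x + 1)).card : ℝ) / ((x + 1 : ℕ) : ℝ) := by positivity
      have e : sg b n x * Fac b n (x + 1) * (V x * (1 - 1 / ((x + 1 : ℕ) : ℝ))) =
          (sg b n x * V x) * (Fac b n (x + 1) * (1 - 1 / ((x + 1 : ℕ) : ℝ))) := by ring
      rw [e, h3]
      have h5 : 0 < sg b n x * V x := mul_pos h1 h2
      nlinarith
    · simpa using ih

theorem step_dn (b : ℕ → ℕ) (n y x : ℕ) (hy : 2 ≤ y) (hxy : y ≤ x) :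
    sg b n y * (V x * C2 x) ≤ sg b n x * (V y * C2 y) := by
  induction x, hxy using Nat.le_induction with
  | base => exact le_rfl
  | succ x hx ih =>
    rw [sg_succ, V_succ, C2_succ]
    have h1 := sg_pos b n x
    have h2 := V_pos x
    have h3 := C2_pos x
    have h4 := C2_pos y
    have h5 := V_pos y
    have h6 := sg_pos b n y
    have hx2 : (2 : ℝ) ≤ x := by exact_mod_cast hy.trans hx
    by_cases hp : (x + 1).Prime
    · rw [if_pos hp, if_pos hp, if_pos ⟨hp, by omega⟩]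
      have h7 := Fac_ge b n (x + 1) hp
      have e0 : (((x + 1 : ℕ) : ℝ)) - 1 = x := by push_cast; ring
      rw [e0] at h7
      have e1 : (1 - 1 / ((x + 1 : ℕ) : ℝ)) * (1 - 1 / (x : ℝ) ^ 2) = 1 - 1 / (x : ℝ) := by
        push_cast
        field_simp
        ring
      have e : sg b n y * (V x * (1 - 1 / ((x + 1 : ℕ) : ℝ)) * ((1 - 1 / (x : ℝ) ^ 2) * C2 x)) =
          (sg b n y * (V x * C2 x)) * ((1 - 1 / ((x + 1 : ℕ) : ℝ)) * (1 - 1 / (x : ℝ) ^ 2)) := by ring
      rw [e, e1]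
      have h8 : 0 ≤ 1 - 1 / (x : ℝ) := by
        have : 1 / (x : ℝ) ≤ 1 := by rw [div_le_one (by linarith)]; linarith
        linarith
      calc (sg b n y * (V x * C2 x)) * (1 - 1 / (x : ℝ)) ≤ (sg b n x * (V y * C2 y)) * (1 - 1 / (x : ℝ)) := by gcongr
        _ ≤ (sg b n x * (V y * C2 y)) * Fac b n (x + 1) := by gcongr
        _ = _ := by ring
    · rw [if_neg hp, if_neg hp, if_neg (fun h => hp h.1)]
      simpa using ih

theorem sg_le_V (b : ℕ → ℕ) (n x : ℕ) (hx : 2 ≤ x) : sg b n x * V x ≤ 1 / 2 := by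
  have := step_up b n 2 x hx
  rwa [sg_two, V_two, one_mul] at this

theorem sg_ge_V (b : ℕ → ℕ) (n x : ℕ) (hx : 2 ≤ x) : 2 * (V x * C2 x) ≤ sg b n x := by
  have := step_dn b n 2 x le_rfl hx
  rw [sg_two, V_two, C2_two] at this
  linarith

theorem sg_eq_max (b : ℕ → ℕ) (n y : ℕ) (hy : 2 ≤ y) (h : ∀ p ≤ y, p.Prime → p ≠ 2 → (Om b n p).card = 0) :
    sg b n y * V y = 1 / 2 := by
  induction y, hy using Nat.le_induction with
  | base => rw [sg_two, V_two, one_mul]
  | succ x hx ih =>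
    have ih' := ih fun p hp => h p (by omega)
    rw [sg_succ, V_succ]
    split_ifs with hp
    · have h3 := Fac_mul b n (x + 1) hp
      rw [h (x + 1) le_rfl hp (by omega)] at h3
      have e : sg b n x * Fac b n (x + 1) * (V x * (1 - 1 / ((x + 1 : ℕ) : ℝ))) =
          (sg b n x * V x) * (Fac b n (x + 1) * (1 - 1 / ((x + 1 : ℕ) : ℝ))) := by ring
      rw [e, h3, ih']
      simp
    · simpa using ih'

theorem sg_eq_min (b : ℕ → ℕ) (n y : ℕ) (hy : 2 ≤ y) (h : ∀ p ≤ y, p.Prime → p ≠ 2 → (Om b n p).card = 2) :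
    sg b n y = 2 * (V y * C2 y) := by
  induction y, hy using Nat.le_induction with
  | base =>
    rw [sg_two, V_two, C2_two]
    norm_num
  | succ x hx ih =>
    have ih' := ih fun p hp => h p (by omega)
    rw [sg_succ, V_succ, C2_succ]
    have hx2 : (2 : ℝ) ≤ x := by exact_mod_cast hx
    by_cases hp : (x + 1).Prime
    · rw [if_pos hp, if_pos hp, if_pos ⟨hp, by omega⟩, Fac_eq b n (x + 1) hp, h (x + 1) le_rfl hp (by omega), ih']
      have hx0 : (x : ℝ) ≠ 0 := by linarith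
      have hx1 : (x : ℝ) + 1 ≠ 0 := by linarith
      push_cast
      rw [add_sub_cancel_right]
      field_simp
      ring
    · rw [if_neg hp, if_neg hp, if_neg (fun h => hp h.1), ih']
      ring

/-- a class without roots -/
theorem exists_zero (b : ℕ → ℕ) (p : ℕ) (hp : p.Prime) (h2 : p ≠ 2) :
    ∃ c : ℕ, ∀ n : ℕ, n % p = c % p → (Om b n p).card = 0 := by
  have := Fact.mk hp
  obtain ⟨x, hx⟩ := FiniteField.exists_nonsquare (F := ZMod p) (by rwa [ZMod.ringChar_zmod_n])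
  refine ⟨b p + x.val, fun n hn => ?_⟩
  rw [card_eq_zero]
  unfold Om
  rw [filter_eq_empty_iff]
  intro r _ hr
  rw [hn] at hr
  have h1 : ((r ^ 2 + b p : ℕ) : ZMod p) = ((b p + x.val : ℕ) : ZMod p) := (ZMod.natCast_eq_natCast_iff' _ _ _).2 hr
  push_cast at h1
  rw [ZMod.natCast_val, ZMod.cast_id] at h1
  apply hx
  refine ⟨(r : ZMod p), ?_⟩
  linear_combination -h1

/-- a class with two roots -/
theorem exists_two (b : ℕ → ℕ) (p : ℕ) (hp : p.Prime) (h2 : p ≠ 2) :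
    ∃ c : ℕ, ∀ n : ℕ, n % p = c % p → (Om b n p).card = 2 := by
  have hp3 : 3 ≤ p := by
    have := hp.two_le
    omega
  refine ⟨b p + 1, fun n hn => le_antisymm (Om_card b n p hp) ?_⟩
  have h3 : ({1, p - 1} : Finset ℕ) ⊆ Om b n p := by
    intro r hr
    rw [mem_insert, mem_singleton] at hr
    unfold Om
    rw [mem_filter, mem_range, hn]
    rcases hr with rfl | rfl
    · exact ⟨by omega, by rw [one_pow, add_comm]⟩
    · refine ⟨by omega, ?_⟩
      obtain ⟨q, rfl⟩ : ∃ q, p = q + 1 := ⟨p - 1, by omega⟩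
      have e : (q + 1 - 1) ^ 2 + b (q + 1) + q * 0 = q ^ 2 + b (q + 1) := by simp
      rw [Nat.add_sub_cancel]
      have h4 : q ^ 2 + b (q + 1) ≡ b (q + 1) + 1 [MOD (q + 1)] := by
        have h5 : q ^ 2 ≡ 1 [MOD (q + 1)] := by
          have h6 : q ^ 2 + (q + 1) * 1 = 1 + (q + 1) * q := by ring
          have h7 : q ^ 2 + (q + 1) * 1 ≡ q ^ 2 [MOD (q + 1)] := by
            unfold Nat.ModEq
            rw [Nat.add_mul_mod_self_left]
          have h8 : 1 + (q + 1) * q ≡ 1 [MOD (q + 1)] := by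
            unfold Nat.ModEq
            rw [Nat.add_mul_mod_self_left]
          rw [h6] at h7
          exact h7.symm.trans h8
        rw [add_comm (b (q + 1)) 1]
        exact Nat.ModEq.add_right _ h5
      exact h4
  have h4 : ({1, p - 1} : Finset ℕ).card = 2 := by
    rw [card_pair]
    omega
  rw [← h4]
  exact card_le_card h3

theorem crt (c : ℕ → ℕ) (y : ℕ) : ∃ n : ℕ, 4 ^ y ≤ n ∧ n ≤ 2 * 4 ^ y ∧ ∀ p ≤ y, p.Prime → n % p = c p % p := by
  set t := (range (y + 1)).filter Nat.Prime with ht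
  have hs : ∀ i ∈ t, (fun p : ℕ => p) i ≠ 0 := fun i hi => (mem_filter.1 hi).2.ne_zero
  have hpp : Set.Pairwise (t : Set ℕ) (Function.onFun Nat.Coprime (fun p : ℕ => p)) := by
    intro i hi j hj hij
    exact (Nat.coprime_primes (mem_filter.1 hi).2 (mem_filter.1 hj).2).2 hij
  set k := Nat.chineseRemainderOfFinset c (fun p => p) t hs hpp with hk
  have hlt : (k : ℕ) < ∏ i ∈ t, i := Nat.chineseRemainderOfFinset_lt_prod c (fun p => p) hs hpp
  set Q := ∏ i ∈ t, i with hQ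
  have hQ4 : Q ≤ 4 ^ y := by
    have := primorial_le_four_pow y
    unfold primorial at this
    exact this
  have hQ0 : 0 < Q := by omega
  set M := (4 ^ y - k) / Q + 1 with hM
  refine ⟨k + M * Q, ?_, ?_, fun p hp hpp' => ?_⟩
  · have h1 := Nat.lt_div_mul_add hQ0 (a := 4 ^ y - (k : ℕ))
    rw [hM, add_mul, one_mul]
    omega
  · have h1 := Nat.div_mul_le_self (4 ^ y - (k : ℕ)) Q
    rw [hM, add_mul, one_mul]
    omega
  · have hmem : p ∈ t := by
      rw [ht, mem_filter, mem_range]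
      exact ⟨by omega, hpp'⟩
    have h1 : (k : ℕ) ≡ c p [MOD p] := k.2 p hmem
    have h2 : p ∣ M * Q := dvd_mul_of_dvd_right (dvd_prod_of_mem (fun i => i) hmem) M
    obtain ⟨w, hw⟩ := h2
    rw [hw, Nat.add_mul_mod_self_left]
    exact h1

theorem extr (b : ℕ → ℕ) (ν : ℕ) (hν : ∀ p, p.Prime → p ≠ 2 → ∃ c : ℕ, ∀ n : ℕ, n % p = c % p → (Om b n p).card = ν) (y : ℕ)
    (hy : 2 ≤ y) : ∃ n : ℕ, 4 ^ y ≤ n ∧ n ≤ 2 * 4 ^ y ∧ Even n ∧ ∀ p ≤ y, p.Prime → p ≠ 2 → (Om b n p).card = ν := by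
  classical
  choose! c hc using hν
  obtain ⟨n, h1, h2, h3⟩ := crt (fun p => if p = 2 then 0 else c p) y
  refine ⟨n, h1, h2, ?_, fun p hp hpp h2' => hc p hpp h2' n ?_⟩
  · have := h3 2 hy Nat.prime_two
    simp only [if_true] at this
    rw [Nat.even_iff]
    omega
  · have := h3 p hp hpp
    rwa [if_neg h2'] at this

/-- the shape of the truncation -/
noncomputable def U (K : ℝ) (n : ℕ) : ℕ := ⌊K * Real.log n⌋₊ + 2

theorem U_ge (K : ℝ) (n : ℕ) : K * Real.log n ≤ U K n := by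
  unfold U
  push_cast
  have := Nat.lt_floor_add_one (K * Real.log n)
  linarith

theorem tail_seq (h : Model P a) (τ : ℝ) (hτ : 0 < τ) (hτ1 : τ ≤ 1) (x : ℕ → ℕ) :
    ∀ᵐ ω ∂P, ∀ᶠ n : ℕ in atTop,
      |∑ p ∈ (Ioc (U (8 / τ ^ 2) n) (x n)).filter Nat.Prime, X n p (a p ω)| ≤ τ := by
  have hprob := prob h
  set u : ℕ → ℕ := U (8 / τ ^ 2) with hu
  have hu1 : ∀ n, 1 ≤ u n := fun n => by
    rw [hu]
    unfold U
    omega
  have hbc := bc (P := P) (fun n => {ω | τ ≤ 1 * ∑ p ∈ (Ioc (u n) (x n)).filter Nat.Prime, X n p (a p ω)} ∪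
    {ω | τ ≤ -1 * ∑ p ∈ (Ioc (u n) (x n)).filter Nat.Prime, X n p (a p ω)}) 2 (by norm_num) (by
      filter_upwards [eventually_ge_atTop 1] with n hn
      have hn0 : (0 : ℝ) < n := by exact_mod_cast hn
      have hu0 : (1 : ℝ) ≤ u n := by exact_mod_cast hu1 n
      set t : ℝ := τ * u n / 2 with ht
      have ht0 : 0 ≤ t := by positivity
      have ht1 : |t| ≤ u n := by
        rw [abs_of_nonneg ht0, ht]
        nlinarith
      have h1 := tail_one h n (u n) (x n) (hu1 n) t τ ht1 1 (Or.inl rfl) ht0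
      have h2 := tail_one h n (u n) (x n) (hu1 n) t τ ht1 (-1) (Or.inr rfl) ht0
      have h3 : Real.exp (-(t * τ) + t ^ 2 / u n) ≤ 1 / (n : ℝ) ^ 2 := by
        have h4 : -(t * τ) + t ^ 2 / u n = -(τ ^ 2 * u n / 4) := by
          rw [ht]
          field_simp
          ring
        have h5 : 2 * Real.log n ≤ τ ^ 2 * u n / 4 := by
          have h6 : 8 / τ ^ 2 * Real.log n ≤ u n := U_ge _ n
          have h7 := mul_le_mul_of_nonneg_left h6 (show 0 ≤ τ ^ 2 / 4 by positivity)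
          have h8 : τ ^ 2 / 4 * (8 / τ ^ 2 * Real.log n) = 2 * Real.log n := by
            field_simp
            ring
          linarith
        rw [h4]
        calc Real.exp (-(τ ^ 2 * u n / 4)) ≤ Real.exp (-(2 * Real.log n)) := Real.exp_le_exp.2 (by linarith)
          _ = 1 / (n : ℝ) ^ 2 := by
              rw [Real.exp_neg, two_mul, Real.exp_add, Real.exp_log hn0, one_div, sq]
      refine (measureReal_union_le _ _).trans ?_
      have h6 : (2 : ℝ) / (n : ℝ) ^ 2 = 1 / (n : ℝ) ^ 2 + 1 / (n : ℝ) ^ 2 := by ring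
      rw [h6]
      exact add_le_add (h1.trans h3) (h2.trans h3))
  filter_upwards [hbc] with ω hω
  filter_upwards [hω] with n hn
  rw [Set.mem_union, not_or] at hn
  obtain ⟨h1, h2⟩ := hn
  have h3 : ¬ τ ≤ 1 * ∑ p ∈ (Ioc (u n) (x n)).filter Nat.Prime, X n p (a p ω) := h1
  have h4 : ¬ τ ≤ -1 * ∑ p ∈ (Ioc (u n) (x n)).filter Nat.Prime, X n p (a p ω) := h2
  rw [abs_le]
  constructor <;> linarith

theorem U_top (K : ℝ) (hK : 1 ≤ K) : Tendsto (U K) atTop atTop := by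
  have h1 : Tendsto (fun n : ℕ => K * Real.log n) atTop atTop := log_top.const_mul_atTop (by linarith)
  exact tendsto_atTop_mono (fun n => Nat.le_add_right _ 2) (tendsto_nat_floor_atTop.comp h1)

theorem U_le (K : ℝ) (hK : 1 ≤ K) : ∀ᶠ n : ℕ in atTop, (U K n : ℝ) ≤ 3 * K * Real.log n := by
  filter_upwards [log_top.eventually_ge_atTop 1] with n hn
  unfold U
  push_cast
  have h1 : (⌊K * Real.log n⌋₊ : ℝ) ≤ K * Real.log n := Nat.floor_le (by positivity)
  nlinarith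

theorem shift (w : ℕ → ℕ) (hw : Tendsto w atTop atTop) (t : ℕ → ℝ) (C : ℝ)
    (ht : ∀ᶠ k in atTop, |Real.log (w k) - t k| ≤ C) : Tendsto (fun k => V (w k) * t k) atTop (𝓝 g) := by
  have h1 : Tendsto (fun k => V (w k) * Real.log (w k)) atTop (𝓝 g) := mertens.comp hw
  have h2 : Tendsto (fun k => V (w k)) atTop (𝓝 0) := Pool.Agent.T2H32.BF.V_zero.comp hw
  have h3 : Tendsto (fun k => V (w k) * (Real.log (w k) - t k)) atTop (𝓝 0) := by
    have h4 := h2.mul_const C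
    rw [zero_mul] at h4
    refine squeeze_zero_norm' ?_ h4
    filter_upwards [ht] with k hk
    rw [norm_mul, Real.norm_eq_abs, Real.norm_eq_abs, abs_of_pos (V_pos _)]
    exact mul_le_mul_of_nonneg_left hk (V_pos _).le
  have h4 := h1.sub h3
  rw [sub_zero] at h4
  refine h4.congr fun k => ?_
  ring

theorem U_log (K : ℝ) (hK : 1 ≤ K) : ∀ᶠ n : ℕ in atTop, |Real.log (U K n) - Real.log (Real.log n)| ≤ Real.log (3 * K) := by
  filter_upwards [U_le K hK, log_top.eventually_ge_atTop 1] with n h1 h2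
  have h3 := U_ge K n
  have h4 : (0 : ℝ) < U K n := by
    unfold U
    positivity
  have h5 : Real.log (Real.log n) ≤ Real.log (U K n) := Real.log_le_log (by linarith) (by nlinarith)
  have h6 : Real.log (U K n) ≤ Real.log (3 * K) + Real.log (Real.log n) := by
    rw [← Real.log_mul (by positivity) (by positivity)]
    exact Real.log_le_log h4 h1
  rw [abs_of_nonneg (by linarith)]
  linarith

theorem V_U (K : ℝ) (hK : 1 ≤ K) : Tendsto (fun n => V (U K n) * Real.log (Real.log n)) atTop (𝓝 g) :=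
  shift _ (U_top K hK) _ _ (U_log K hK)

/-- the singular product and its truncation at a power of `n` -/
theorem cmp (b : ℕ → ℕ) (htail : ∀ A : ℕ, ∀ᶠ u : ℕ in atTop, ∀ n ≤ u ^ A, ∀ x ≤ u ^ 2,
      |∑ p ∈ (Ioc u x).filter Nat.Prime, X n p (b p)| ≤ (u : ℝ) ^ (-(1 / 4) : ℝ))
    (S : ℕ → ℝ) (hS2 : ∀ n, Tendsto (sg b n) atTop (𝓝 (S n))) :
    Tendsto (fun n => Real.log (sg b n n) - Real.log (S n)) atTop (𝓝 0) := by
  have hlim : Tendsto (fun u : ℕ => 2 * (u : ℝ) ^ (-(1 / 4) : ℝ) + 10 / u) atTop (𝓝 0) := by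
    have h1 : Tendsto (fun u : ℕ => (u : ℝ) ^ (-(1 / 4) : ℝ)) atTop (𝓝 0) :=
      (tendsto_rpow_neg_atTop (by norm_num)).comp tendsto_natCast_atTop_atTop
    have h2 : Tendsto (fun u : ℕ => (10 : ℝ) / u) atTop (𝓝 0) := tendsto_const_div_atTop_nhds_zero_nat 10
    simpa using (h1.const_mul 2).add h2
  refine squeeze_zero_norm' ?_ hlim
  obtain ⟨A, hA⟩ := eventually_atTop.1 (htail 1)
  filter_upwards [eventually_ge_atTop (max A 16)] with n h3
  obtain ⟨S', h7, h8, h9⟩ := conv b n n (by omega) (fun u hu x hx => hA u (by omega) n (by rw [pow_one]; omega) x hx)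
  have h10 : S' = S n := tendsto_nhds_unique h8 (hS2 n)
  rw [h10] at h9
  rw [Real.norm_eq_abs, abs_sub_comm]
  exact h9

theorem cmpU (b : ℕ → ℕ) (htail : ∀ A : ℕ, ∀ᶠ u : ℕ in atTop, ∀ n ≤ u ^ A, ∀ x ≤ u ^ 2,
      |∑ p ∈ (Ioc u x).filter Nat.Prime, X n p (b p)| ≤ (u : ℝ) ^ (-(1 / 4) : ℝ))
    (S : ℕ → ℝ) (hS2 : ∀ n, Tendsto (sg b n) atTop (𝓝 (S n))) (K : ℝ) (hK : 1 ≤ K) (τ : ℝ) (hτ : 0 < τ)
    (ht : ∀ᶠ n : ℕ in atTop, |∑ p ∈ (Ioc (U K n) n).filter Nat.Prime, X n p (b p)| ≤ τ) :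
    ∀ᶠ n : ℕ in atTop, |Real.log (S n) - Real.log (sg b n (U K n))| ≤ 3 * τ := by
  have h1 := cmp b htail S hS2
  have h2 := (tendsto_iff_norm_sub_tendsto_zero.1 h1).eventually_lt_const hτ
  have h3 : Tendsto (fun n : ℕ => (10 : ℝ) / U K n) atTop (𝓝 0) :=
    (tendsto_const_div_atTop_nhds_zero_nat 10).comp (U_top K hK)
  filter_upwards [h2, ht, h3.eventually_lt_const hτ, U_le K hK, log_pow_le 1 1 (3 * K) one_pos] with n a1 a2 a3 a4 a5
  rw [Real.norm_eq_abs, sub_zero] at a1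
  have h4 : U K n ≤ n := by
    rw [pow_one, Real.rpow_one] at a5
    exact_mod_cast a4.trans a5
  have h5 := sg_close b n (U K n) n h4 (by unfold U; omega) τ a2
  have h6 := abs_sub_le (Real.log (S n)) (Real.log (sg b n n)) (Real.log (sg b n (U K n)))
  rw [abs_sub_comm] at a1
  linarith

/-- the twin prime constant -/
theorem C2_lim : ∃ c : ℝ, 0 < c ∧ Tendsto C2 atTop (𝓝 c) := by
  have h1 := tendsto_atTop_ciInf C2_anti ⟨0, by
    rintro x ⟨n, rfl⟩
    exact (C2_pos n).le⟩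
  refine ⟨_, ?_, h1⟩
  have h2 : (1 / 2 : ℝ) ≤ ⨅ i, C2 i := ge_of_tendsto' h1 C2_ge
  linarith

end Pool.Agent.H559.BS
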