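import Pool.Graph.R_pool_sql_team_seeded_707910d6.T2H32.BF.Mom

set_option autoImplicit false

/-! # Concentration of the number of survivors of a random sieve -/

open Finset MeasureTheory ProbabilityTheory
open Pool.Agent.T2H32.BF (Model prob sg sg_le sg_meas indep_sg split_class)

namespace Pool.Agent.H559.BS

variable {Ω : Type*} [MeasurableSpace Ω] {P : Measure Ω} {a : ℕ → Ω → ℕ}

/-- the elements of `A` that are in none of the classes `b p` modulo `p`, `p ∈ L` -/
def surv (b : ℕ → ℕ) (L A : Finset ℕ) : Finset ℕ := A.filter (fun v => ∀ p ∈ L, v % p ≠ b p)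

/-- exactly `k` survivors -/
def Ev (a : ℕ → Ω → ℕ) (L A : Finset ℕ) (k : ℕ) : Set Ω :=
  {ω | (surv (fun i => a i ω) L A).card = k}

omit [MeasurableSpace Ω] in
theorem Ev_sg (a : ℕ → Ω → ℕ) (L A : Finset ℕ) (k : ℕ) : @MeasurableSet _ (sg a L) (Ev a L A k) := by
  classical
  have e : Ev a L A k = ⋃ B ∈ (A.powerset.filter (fun B => B.card = k)),
      ⋂ v ∈ A, {ω | v ∈ B ↔ ∀ p ∈ L, v % p ≠ a p ω} := by
    ext ω
    simp only [Ev, Set.mem_ofPred_eq, Set.mem_iUnion, Set.mem_iInter, mem_filter, mem_powerset, exists_prop]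
    constructor
    · intro h
      refine ⟨surv (fun i => a i ω) L A, ⟨filter_subset _ _, h⟩, fun v hv => ?_⟩
      unfold surv
      rw [mem_filter]
      exact ⟨fun h => h.2, fun h => ⟨hv, h⟩⟩
    · rintro ⟨B, ⟨hB, hk⟩, h⟩
      have : surv (fun i => a i ω) L A = B := by
        ext v
        unfold surv
        rw [mem_filter]
        constructor
        · rintro ⟨h1, h2⟩
          exact (h v h1).2 h2
        · intro h1
          exact ⟨hB h1, (h v (hB h1)).1 h1⟩
      rw [this, hk]
  rw [e]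
  refine @Finset.measurableSet_biUnion _ _ (sg a L) _ _ fun B _ => ?_
  refine @Finset.measurableSet_biInter _ _ (sg a L) _ _ fun v _ => ?_
  have h1 : @MeasurableSet _ (sg a L) {ω | ∀ p ∈ L, v % p ≠ a p ω} := by
    have e2 : {ω | ∀ p ∈ L, v % p ≠ a p ω} = ⋂ p ∈ L, {ω | a p ω ∈ ({v % p} : Set ℕ)ᶜ} := by
      ext ω
      simp only [Set.mem_ofPred_eq, Set.mem_iInter, Set.mem_compl_iff, Set.mem_singleton_iff]
      exact ⟨fun h p hp h2 => h p hp h2.symm, fun h p hp h2 => h p hp h2.symm⟩
    rw [e2]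
    refine @Finset.measurableSet_biInter _ _ (sg a L) _ _ fun p hp => ?_
    exact sg_meas a L p (by exact_mod_cast hp) _
  by_cases hv : v ∈ B
  · have e3 : {ω | v ∈ B ↔ ∀ p ∈ L, v % p ≠ a p ω} = {ω | ∀ p ∈ L, v % p ≠ a p ω} := by
      ext ω
      simp only [Set.mem_ofPred_eq, hv, true_iff]
    rw [e3]
    exact h1
  · have e3 : {ω | v ∈ B ↔ ∀ p ∈ L, v % p ≠ a p ω} = {ω | ∀ p ∈ L, v % p ≠ a p ω}ᶜ := by
      ext ω
      simp only [Set.mem_ofPred_eq, hv, false_iff, Set.mem_compl_iff]
    rw [e3]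
    exact h1.compl

theorem Ev_meas (h : Model P a) (L A : Finset ℕ) (k : ℕ) : MeasurableSet (Ev a L A k) :=
  sg_le h L _ (Ev_sg a L A k)

theorem Ev_insert (h : Model P a) (A L : Finset ℕ) (k p : ℕ) (hp : p.Prime) (hpL : p ∉ L) :
    P.real (Ev a (insert p L) A k) =
      (1 / p) * ∑ r ∈ range p, P.real (Ev a L (A.filter (fun u => u % p ≠ r)) k) := by
  have := prob h
  rw [split_class h p hp _ (Ev_meas h _ _ _), mul_sum]
  refine sum_congr rfl fun r hr => ?_
  have e : {ω | a p ω = r} ∩ Ev a (insert p L) A k =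
      {ω | a p ω ∈ ({r} : Set ℕ)} ∩ Ev a L (A.filter (fun u => u % p ≠ r)) k := by
    ext ω
    simp only [Set.mem_inter_iff, Ev, Set.mem_ofPred_eq, Set.mem_singleton_iff]
    refine and_congr_right fun h1 => ?_
    have e2 : surv (fun i => a i ω) (insert p L) A = surv (fun i => a i ω) L (A.filter (fun u => u % p ≠ r)) := by
      ext v
      unfold surv
      simp only [mem_filter, mem_insert, forall_eq_or_imp, h1]
      tauto
    rw [e2]
  rw [e, measureReal_def, indep_sg h {p} L (by
      rw [Set.disjoint_singleton_left]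
      exact_mod_cast hpL) _ _ (sg_meas a {p} p rfl _) (Ev_sg a L _ _), ENNReal.toReal_mul]
  have h1 : (P {ω | a p ω ∈ ({r} : Set ℕ)}).toReal = 1 / p := by
    have := h.uniform p hp r (mem_range.1 hr)
    rw [measureReal_def] at this
    exact this
  rw [h1, measureReal_def]

/-- exponential moment of the number of survivors -/
noncomputable def mg (P : Measure Ω) (a : ℕ → Ω → ℕ) (K : ℕ) (θ : ℝ) (L A : Finset ℕ) : ℝ :=
  ∑ k ∈ range (K + 1), Real.exp (θ * k) * P.real (Ev a L A k)

theorem mg_insert (h : Model P a) (K : ℕ) (θ : ℝ) (A L : Finset ℕ) (p : ℕ) (hp : p.Prime) (hpL : p ∉ L) :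
    mg P a K θ (insert p L) A = (1 / p) * ∑ r ∈ range p, mg P a K θ L (A.filter (fun u => u % p ≠ r)) := by
  unfold mg
  rw [sum_comm, mul_sum]
  refine sum_congr rfl fun k _ => ?_
  rw [Ev_insert h A L k p hp hpL, ← mul_sum]
  ring

theorem mg_empty (h : Model P a) (K : ℕ) (θ : ℝ) (A : Finset ℕ) (hA : A.card ≤ K) :
    mg P a K θ ∅ A = Real.exp (θ * A.card) := by
  have := prob h
  unfold mg
  have hs : ∀ ω, surv (fun i => a i ω) ∅ A = A := by
    intro ω
    unfold surv
    simp
  rw [sum_eq_single_of_mem A.card (mem_range.2 (by omega))]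
  · have : Ev a ∅ A A.card = Set.univ := by
      ext ω
      simp [Ev, hs]
    rw [this]
    simp
  · intro k _ hk
    have : Ev a ∅ A k = ∅ := by
      ext ω
      simp only [Ev, hs, Set.mem_ofPred_eq, Set.mem_empty_iff_false, iff_false]
      exact fun h => hk h.symm
    rw [this]
    simp

/-- averages of exponentials -/
theorem exp_avg (p : ℕ) (hp : 0 < p) (x : ℕ → ℝ) (h0 : ∑ r ∈ range p, x r = 0) (h1 : ∀ r < p, |x r| ≤ 1) :
    (1 / (p : ℝ)) * ∑ r ∈ range p, Real.exp (x r) ≤ Real.exp ((1 / (p : ℝ)) * ∑ r ∈ range p, x r ^ 2) := by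
  have hp0 : (0 : ℝ) < p := by exact_mod_cast hp
  have h2 : ∑ r ∈ range p, Real.exp (x r) ≤ ∑ r ∈ range p, (1 + x r + x r ^ 2) := by
    refine sum_le_sum fun r hr => ?_
    have := Real.abs_exp_sub_one_sub_id_le (h1 r (mem_range.1 hr))
    have := (abs_le.1 this).2
    linarith
  rw [sum_add_distrib, sum_add_distrib, h0] at h2
  simp only [sum_const, card_range, nsmul_eq_mul, mul_one, add_zero] at h2
  calc (1 / (p : ℝ)) * ∑ r ∈ range p, Real.exp (x r) ≤ (1 / (p : ℝ)) * (p + ∑ r ∈ range p, x r ^ 2) := by gcongr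
    _ = (1 / (p : ℝ)) * ∑ r ∈ range p, x r ^ 2 + 1 := by field_simp; ring
    _ ≤ _ := Real.add_one_le_exp _

theorem card_classes (A : Finset ℕ) (p : ℕ) (hp : 0 < p) :
    ∑ r ∈ range p, ((A.filter (fun u => u % p = r)).card : ℝ) = A.card := by
  rw [← Nat.cast_sum, ← card_eq_sum_card_fiberwise (f := fun u => u % p) (t := range p)]
  intro u _
  exact mem_coe.2 (mem_range.2 (Nat.mod_lt _ hp))

/-- **The exponential moment.** -/
theorem mg_le (h : Model P a) (K : ℕ) (θ : ℝ) (c : ℕ → ℝ) (L : Finset ℕ) (hL : ∀ p ∈ L, p.Prime)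
    (hθ : ∀ p ∈ L, |θ| * c p ≤ 1) :
    ∀ A : Finset ℕ, A.card ≤ K → (∀ p ∈ L, ∀ r, ((A.filter (fun u => u % p = r)).card : ℝ) ≤ c p) →
      mg P a K θ L A ≤ Real.exp (θ * (A.card * ∏ p ∈ L, (1 - 1 / (p : ℝ))) +
        θ ^ 2 * (A.card * ∑ p ∈ L, c p / p)) := by
  induction L using Finset.induction_on with
  | empty =>
    intro A hA _
    rw [mg_empty h K θ A hA]
    simp
  | @insert p L hpL ih =>
    intro A hA hc
    have hp : p.Prime := hL p (mem_insert_self _ _)
    have hp0 : (0 : ℝ) < p := by exact_mod_cast hp.pos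
    have ih' := ih (fun q hq => hL q (mem_insert_of_mem hq)) (fun q hq => hθ q (mem_insert_of_mem hq))
    set W := ∏ p ∈ L, (1 - 1 / (p : ℝ)) with hW
    set S := ∑ p ∈ L, c p / p with hS
    have hW0 : 0 ≤ W := prod_nonneg fun q hq => by
      have h2 : (2 : ℝ) ≤ q := by exact_mod_cast (hL q (mem_insert_of_mem hq)).two_le
      have : 1 / (q : ℝ) ≤ 1 / 2 := by gcongr
      linarith
    have hW1 : W ≤ 1 := prod_le_one (fun q hq => by
      have h2 : (2 : ℝ) ≤ q := by exact_mod_cast (hL q (mem_insert_of_mem hq)).two_le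
      have : 1 / (q : ℝ) ≤ 1 / 2 := by gcongr
      linarith) (fun q hq => by
      have : 0 ≤ 1 / (q : ℝ) := by positivity
      linarith)
    set n : ℕ → ℝ := fun r => ((A.filter (fun u => u % p = r)).card : ℝ) with hn
    have hn0 : ∀ r, 0 ≤ n r := fun r => Nat.cast_nonneg _
    have hcp : ∀ r, n r ≤ c p := fun r => hc p (mem_insert_self _ _) r
    have hc0 : 0 ≤ c p := (hn0 0).trans (hcp 0)
    have hsum : ∑ r ∈ range p, n r = A.card := card_classes A p hp.pos
    have hAp : (A.card : ℝ) / p ≤ c p := by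
      rw [div_le_iff₀ hp0, ← hsum]
      calc ∑ r ∈ range p, n r ≤ ∑ _r ∈ range p, c p := sum_le_sum fun r _ => hcp r
        _ = c p * p := by simp [mul_comm]
    have hS0 : 0 ≤ S := sum_nonneg fun q hq => by
      have h1 : (0 : ℝ) ≤ c q := le_trans (Nat.cast_nonneg _) (hc q (mem_insert_of_mem hq) 0)
      positivity
    -- sizes of the complements
    have hcompl : ∀ r, ((A.filter (fun u => u % p ≠ r)).card : ℝ) = A.card - n r := by
      intro r
      have := card_filter_add_card_filter_not (s := A) (fun u => u % p = r)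
      simp only [hn]
      have h2 : ((A.filter (fun u => u % p = r)).card : ℝ) + ((A.filter (fun u => ¬ u % p = r)).card : ℝ) = A.card := by
        exact_mod_cast this
      linarith
    rw [mg_insert h K θ A L p hp hpL]
    have h1 : ∀ r ∈ range p, mg P a K θ L (A.filter (fun u => u % p ≠ r)) ≤
        Real.exp (θ * (A.card * (W * (1 - 1 / p))) + θ ^ 2 * (A.card * S)) *
          Real.exp (-(θ * W * (n r - A.card / p))) := by
      intro r _
      have h2 := ih' (A.filter (fun u => u % p ≠ r)) ((card_filter_le _ _).trans hA) (by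
        intro q hq s
        refine le_trans ?_ (hc q (mem_insert_of_mem hq) s)
        exact_mod_cast card_le_card (filter_subset_filter _ (filter_subset _ _)))
      refine h2.trans ?_
      rw [← Real.exp_add]
      apply Real.exp_le_exp.2
      rw [hcompl r]
      have h3 : θ ^ 2 * ((A.card - n r) * S) ≤ θ ^ 2 * (A.card * S) := by
        have := hn0 r
        have h5 : (A.card - n r) * S ≤ A.card * S := mul_le_mul_of_nonneg_right (by linarith) hS0
        exact mul_le_mul_of_nonneg_left h5 (sq_nonneg θ)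
      have h4 : θ * ((A.card - n r) * W) = θ * (A.card * (W * (1 - 1 / p))) + -(θ * W * (n r - A.card / p)) := by
        field_simp
        ring
      rw [h4]
      linarith
    have h2 := exp_avg p hp.pos (fun r => -(θ * W * (n r - A.card / p))) (by
      have e : ∀ r, -(θ * W * (n r - A.card / p)) = -(θ * W) * n r + θ * W * (A.card / p) := fun r => by ring
      simp only [e]
      rw [sum_add_distrib, ← mul_sum, hsum, sum_const, card_range, nsmul_eq_mul]
      field_simp
      ring) (by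
      intro r _
      rw [abs_neg, abs_mul, abs_mul]
      have h3 : |n r - A.card / p| ≤ c p := by
        rw [abs_le]
        have h5 : (0 : ℝ) ≤ A.card / p := by positivity
        constructor
        · have := hn0 r
          linarith
        · have := hcp r
          linarith
      have h4 : |θ| * |W| ≤ |θ| * 1 := by
        gcongr
        rw [abs_of_nonneg hW0]
        exact hW1
      calc |θ| * |W| * |n r - A.card / p| ≤ |θ| * 1 * c p := by gcongr
        _ ≤ 1 := by
          rw [mul_one]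
          exact hθ p (mem_insert_self _ _))
    have h3 : (1 / (p : ℝ)) * ∑ r ∈ range p, (-(θ * W * (n r - A.card / p))) ^ 2 ≤ θ ^ 2 * (A.card * (c p / p)) := by
      have e : ∑ r ∈ range p, (-(θ * W * (n r - A.card / p))) ^ 2 =
          (θ * W) ^ 2 * (∑ r ∈ range p, n r ^ 2 - (A.card : ℝ) ^ 2 / p) := by
        have e1 : ∀ r, (-(θ * W * (n r - A.card / p))) ^ 2 =
            (θ * W) ^ 2 * n r ^ 2 - (θ * W) ^ 2 * (2 * (A.card / p)) * n r + (θ * W) ^ 2 * (A.card / p) ^ 2 :=
          fun r => by ring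
        simp only [e1]
        rw [sum_add_distrib, sum_sub_distrib, ← mul_sum, ← mul_sum, hsum, sum_const, card_range, nsmul_eq_mul]
        field_simp
        ring
      have h4 : ∑ r ∈ range p, n r ^ 2 ≤ c p * A.card := by
        rw [← hsum, mul_sum]
        refine sum_le_sum fun r _ => ?_
        rw [sq]
        exact mul_le_mul_of_nonneg_right (hcp r) (hn0 r)
      have h5 : (θ * W) ^ 2 ≤ θ ^ 2 := by
        rw [mul_pow]
        have : W ^ 2 ≤ 1 := pow_le_one₀ hW0 hW1
        nlinarith [sq_nonneg θ]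
      rw [e]
      have h6 : ∑ r ∈ range p, n r ^ 2 - (A.card : ℝ) ^ 2 / p ≤ c p * A.card := by
        have : 0 ≤ (A.card : ℝ) ^ 2 / p := by positivity
        linarith
      have h7 : (θ * W) ^ 2 * (∑ r ∈ range p, n r ^ 2 - (A.card : ℝ) ^ 2 / p) ≤ θ ^ 2 * (c p * A.card) := by
        have h8 : 0 ≤ c p * A.card := by positivity
        calc (θ * W) ^ 2 * (∑ r ∈ range p, n r ^ 2 - (A.card : ℝ) ^ 2 / p) ≤ (θ * W) ^ 2 * (c p * A.card) :=
              mul_le_mul_of_nonneg_left h6 (sq_nonneg _)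
          _ ≤ θ ^ 2 * (c p * A.card) := mul_le_mul_of_nonneg_right h5 h8
      calc (1 / (p : ℝ)) * ((θ * W) ^ 2 * (∑ r ∈ range p, n r ^ 2 - (A.card : ℝ) ^ 2 / p)) ≤
            (1 / (p : ℝ)) * (θ ^ 2 * (c p * A.card)) := by gcongr
        _ = θ ^ 2 * (A.card * (c p / p)) := by ring
    calc (1 / (p : ℝ)) * ∑ r ∈ range p, mg P a K θ L (A.filter (fun u => u % p ≠ r))
        ≤ (1 / (p : ℝ)) * ∑ r ∈ range p, Real.exp (θ * (A.card * (W * (1 - 1 / p))) + θ ^ 2 * (A.card * S)) *
          Real.exp (-(θ * W * (n r - A.card / p))) := by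
            gcongr with r hr
            exact h1 r hr
      _ = Real.exp (θ * (A.card * (W * (1 - 1 / p))) + θ ^ 2 * (A.card * S)) *
          ((1 / (p : ℝ)) * ∑ r ∈ range p, Real.exp (-(θ * W * (n r - A.card / p)))) := by
            rw [← mul_sum]
            ring
      _ ≤ Real.exp (θ * (A.card * (W * (1 - 1 / p))) + θ ^ 2 * (A.card * S)) *
          Real.exp (θ ^ 2 * (A.card * (c p / p))) := by
            gcongr
            exact h2.trans (Real.exp_le_exp.2 h3)
      _ = _ := by
            rw [← Real.exp_add, prod_insert hpL, sum_insert hpL]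
            congr 1
            ring

theorem tail_up (h : Model P a) (K : ℕ) (θ : ℝ) (hθ : 0 ≤ θ) (L A : Finset ℕ) (hA : A.card ≤ K) (t : ℝ) :
    P.real {ω | t ≤ ((surv (fun i => a i ω) L A).card : ℝ)} ≤ Real.exp (-(θ * t)) * mg P a K θ L A := by
  have := prob h
  classical
  have e : {ω | t ≤ ((surv (fun i => a i ω) L A).card : ℝ)} ⊆
      ⋃ k ∈ (range (K + 1)).filter (fun k : ℕ => t ≤ (k : ℝ)), Ev a L A k := by
    intro ω hω
    simp only [Set.mem_iUnion, mem_filter, mem_range, exists_prop]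
    refine ⟨(surv (fun i => a i ω) L A).card, ⟨?_, hω⟩, rfl⟩
    have : (surv (fun i => a i ω) L A).card ≤ A.card := card_filter_le _ _
    omega
  refine (measureReal_mono e (measure_ne_top _ _)).trans ((measureReal_biUnion_finset_le _ _).trans ?_)
  unfold mg
  rw [mul_sum]
  calc ∑ k ∈ (range (K + 1)).filter (fun k : ℕ => t ≤ (k : ℝ)), P.real (Ev a L A k)
      ≤ ∑ k ∈ (range (K + 1)).filter (fun k : ℕ => t ≤ (k : ℝ)),
          Real.exp (-(θ * t)) * (Real.exp (θ * k) * P.real (Ev a L A k)) := by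
        refine sum_le_sum fun k hk => ?_
        rw [← mul_assoc, ← Real.exp_add]
        have h1 : (1 : ℝ) ≤ Real.exp (-(θ * t) + θ * k) := by
          apply Real.one_le_exp
          have := (mem_filter.1 hk).2
          nlinarith
        nlinarith [(measureReal_nonneg : 0 ≤ P.real (Ev a L A k))]
    _ ≤ _ := sum_le_sum_of_subset_of_nonneg (filter_subset _ _) fun k _ _ => by positivity

theorem tail_low (h : Model P a) (K : ℕ) (θ : ℝ) (hθ : 0 ≤ θ) (L A : Finset ℕ) (hA : A.card ≤ K) (t : ℝ) :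
    P.real {ω | ((surv (fun i => a i ω) L A).card : ℝ) ≤ t} ≤ Real.exp (θ * t) * mg P a K (-θ) L A := by
  have := prob h
  classical
  have e : {ω | ((surv (fun i => a i ω) L A).card : ℝ) ≤ t} ⊆
      ⋃ k ∈ (range (K + 1)).filter (fun k : ℕ => (k : ℝ) ≤ t), Ev a L A k := by
    intro ω hω
    simp only [Set.mem_iUnion, mem_filter, mem_range, exists_prop]
    refine ⟨(surv (fun i => a i ω) L A).card, ⟨?_, hω⟩, rfl⟩
    have : (surv (fun i => a i ω) L A).card ≤ A.card := card_filter_le _ _
    omega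
  refine (measureReal_mono e (measure_ne_top _ _)).trans ((measureReal_biUnion_finset_le _ _).trans ?_)
  unfold mg
  rw [mul_sum]
  calc ∑ k ∈ (range (K + 1)).filter (fun k : ℕ => (k : ℝ) ≤ t), P.real (Ev a L A k)
      ≤ ∑ k ∈ (range (K + 1)).filter (fun k : ℕ => (k : ℝ) ≤ t),
          Real.exp (θ * t) * (Real.exp (-θ * k) * P.real (Ev a L A k)) := by
        refine sum_le_sum fun k hk => ?_
        rw [← mul_assoc, ← Real.exp_add]
        have h1 : (1 : ℝ) ≤ Real.exp (θ * t + -θ * k) := by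
          apply Real.one_le_exp
          have := (mem_filter.1 hk).2
          nlinarith
        nlinarith [(measureReal_nonneg : 0 ≤ P.real (Ev a L A k))]
    _ ≤ _ := sum_le_sum_of_subset_of_nonneg (filter_subset _ _) fun k _ _ => by positivity

/-- **Concentration of the number of survivors.** -/
theorem conc (h : Model P a) (L A : Finset ℕ) (hL : ∀ p ∈ L, p.Prime) (c : ℝ) (θ : ℝ) (hθ : 0 ≤ θ)
    (hc : ∀ p ∈ L, ∀ r, ((A.filter (fun u => u % p = r)).card : ℝ) ≤ c) (hθc : θ * c ≤ 1) (lam : ℝ) :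
    P.real {ω | lam ≤ |((surv (fun i => a i ω) L A).card : ℝ) - A.card * ∏ p ∈ L, (1 - 1 / (p : ℝ))|} ≤
      2 * Real.exp (-(θ * lam) + θ ^ 2 * (A.card * ∑ p ∈ L, c / p)) := by
  have := prob h
  set W := ∏ p ∈ L, (1 - 1 / (p : ℝ)) with hW
  have h1 := tail_up h A.card θ hθ L A le_rfl (A.card * W + lam)
  have h2 := tail_low h A.card θ hθ L A le_rfl (A.card * W - lam)
  have h3 := mg_le h A.card θ (fun _ => c) L hL (fun p _ => by rw [abs_of_nonneg hθ]; exact hθc) A le_rfl hc
  have h4 := mg_le h A.card (-θ) (fun _ => c) L hL (fun p _ => by rw [abs_neg, abs_of_nonneg hθ]; exact hθc) A le_rfl hc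
  have h5 : P.real {ω | A.card * W + lam ≤ ((surv (fun i => a i ω) L A).card : ℝ)} ≤
      Real.exp (-(θ * lam) + θ ^ 2 * (A.card * ∑ p ∈ L, c / p)) := by
    refine h1.trans ?_
    refine (mul_le_mul_of_nonneg_left h3 (Real.exp_pos _).le).trans (le_of_eq ?_)
    rw [← Real.exp_add]
    congr 1
    ring
  have h6 : P.real {ω | ((surv (fun i => a i ω) L A).card : ℝ) ≤ A.card * W - lam} ≤
      Real.exp (-(θ * lam) + θ ^ 2 * (A.card * ∑ p ∈ L, c / p)) := by
    refine h2.trans ?_
    refine (mul_le_mul_of_nonneg_left h4 (Real.exp_pos _).le).trans (le_of_eq ?_)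
    rw [← Real.exp_add]
    congr 1
    ring
  have e : {ω | lam ≤ |((surv (fun i => a i ω) L A).card : ℝ) - A.card * W|} ⊆
      {ω | A.card * W + lam ≤ ((surv (fun i => a i ω) L A).card : ℝ)} ∪
      {ω | ((surv (fun i => a i ω) L A).card : ℝ) ≤ A.card * W - lam} := by
    intro ω hω
    rcases le_abs.1 (show lam ≤ |((surv (fun i => a i ω) L A).card : ℝ) - A.card * W| from hω) with h7 | h7
    · left
      show A.card * W + lam ≤ ((surv (fun i => a i ω) L A).card : ℝ)
      linarith
    · right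
      show ((surv (fun i => a i ω) L A).card : ℝ) ≤ A.card * W - lam
      linarith
  calc P.real _ ≤ P.real _ := measureReal_mono e
    _ ≤ _ := measureReal_union_le _ _
    _ ≤ _ := by linarith

end Pool.Agent.H559.BS
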