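import Pool.Agent.H559.BS.Sing
import Pool.Graph.R_pool_sql_team_seeded_707910d6.T2H32.GM.Rough
import Pool.Graph.R_pool_sql_team_seeded_707910d6.T2H32.BF.Fin

set_option autoImplicit false

/-! # The deterministic part of the argument -/

open Finset MeasureTheory ProbabilityTheory Filter Topology
open Pool.Agent.T2H32.BF (V V_pos V_anti V_ratio mertens)

namespace Pool.Agent.H559.BS

/-- an admissible sieving limit: nondecreasing, with density `(1 + o(1)) / log k` at `k` -/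
def Limit (z : ℕ → ℕ) : Prop := Monotone z ∧ Tendsto (fun k => V (z k) * Real.log k) atTop (𝓝 1)

/-- the random primes -/
def R (z : ℕ → ℕ) (b : ℕ → ℕ) : Set ℕ := {k | 3 ≤ k ∧ ∀ q ≤ z k, q.Prime → k % q ≠ b q}

/-- the number of the representations `n = r + m ^ 2` -/
noncomputable def reps (S : Set ℕ) (n : ℕ) : ℕ := {m : ℕ | 1 ≤ m ∧ m ^ 2 ≤ n ∧ n - m ^ 2 ∈ S}.ncard

theorem rough_iff (b : ℕ → ℕ) (hb : ∀ p, p.Prime → b p < p) (n m T : ℕ) (hm : m ^ 2 ≤ n) :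
    (∀ p ≤ T, p.Prime → (n - m ^ 2) % p ≠ b p) ↔ ∀ p ≤ T, p.Prime → m % p ∉ Om b n p := by
  refine forall₃_congr fun p _ hp => ?_
  rw [not_iff_not, class_iff n m p (b p) hm (hb p hp)]
  unfold Om
  rw [mem_filter, mem_range]
  have h1 : (m ^ 2 + b p) % p = ((m % p) ^ 2 + b p) % p := by
    rw [Nat.add_mod, Nat.pow_mod, ← Nat.add_mod]
  rw [h1]
  exact ⟨fun h => ⟨Nat.mod_lt _ hp.pos, h⟩, fun h => h.2⟩

theorem prod_eq (b : ℕ → ℕ) (n T : ℕ) :
    ∏ p ∈ (range (T + 1)).filter Nat.Prime, (1 - ((Om b n p).card : ℝ) / p) = sg b n T * V T := by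
  unfold sg V
  rw [← prod_mul_distrib]
  refine prod_congr rfl fun p hp => ?_
  have h2 : (2 : ℝ) ≤ p := by exact_mod_cast (mem_filter.1 hp).2.two_le
  unfold Fac
  have h5 : (1 : ℝ) - 1 / p ≠ 0 := by
    have : (1 : ℝ) / p ≤ 1 / 2 := by gcongr
    linarith
  have h6 : (p : ℝ) - 1 ≠ 0 := by linarith
  field_simp

theorem flgS (e : ℝ) (he : 0 < e) : ∃ B : ℕ, ∃ K : ℝ, 0 < K ∧ ∀ b : ℕ → ℕ, (∀ p, p.Prime → b p < p) →
    ∀ n T k y : ℕ, (k + y) ^ 2 ≤ n →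
    |(((Ioc k (k + y)).filter (fun m => ∀ p ≤ T, p.Prime → (n - m ^ 2) % p ≠ b p)).card : ℝ) -
        y * (sg b n T * V T)| ≤ e * (y * (sg b n T * V T)) + K * ((T : ℝ) + 1) ^ B := by
  obtain ⟨B, K, hK, h⟩ := Pool.Agent.T2H32.GB.flg 2 e he
  refine ⟨B, K, hK, fun b hb n T k y hy => ?_⟩
  have h1 := h T (Om b n) (fun p _ hp => ⟨filter_subset _ _, Om_card b n p hp⟩) k y
  rw [prod_eq] at h1
  have h2 : (Ioc k (k + y)).filter (fun m => ∀ p ≤ T, p.Prime → (n - m ^ 2) % p ≠ b p) =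
      (Ioc k (k + y)).filter (fun m => ∀ p ≤ T, p.Prime → m % p ∉ Om b n p) := by
    refine filter_congr fun m hm => ?_
    rw [mem_Ioc] at hm
    exact rough_iff b hb n m T ((Nat.pow_le_pow_left hm.2 2).trans hy)
  rw [h2]
  exact h1

/-- the end of the main range -/
noncomputable def y1 (J n : ℕ) : ℕ := ⌊(1 - 1 / (J : ℝ)) * √n⌋₊

/-- numerical facts -/
structure Facts (z : ℕ → ℕ) (e δ C c : ℝ) (J B : ℕ) (K : ℝ) (n : ℕ) : Prop where
  n2 : 3 * J ≤ n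
  L1 : 4 / c ≤ Real.log n
  L0 : 1 ≤ Real.log n
  T1 : 1 ≤ TT δ n
  V1 : |V (z n) * Real.log n - 1| ≤ e
  V2 : |V (z (n / J)) * Real.log n - 1| ≤ e
  VT : V (TT δ n) * Real.log n ≤ C
  VT' : c ≤ V (TT δ n) * Real.log n
  T2 : TT δ n ≤ z (n / J)
  T3 : TT δ n ≤ z n
  T4 : TT δ n ≤ z ⌊(n : ℝ) ^ (3 / 4 : ℝ)⌋₊
  E1 : K * ((TT δ n : ℝ) + 1) ^ B + ((n : ℝ) ^ (1 / 4 : ℝ) + 1) ≤ (e / 2) * ((c / 2) * (√n / Real.log n ^ 2))
  J1 : 1 ≤ (1 / (J : ℝ)) * √n

theorem reps_low (z : ℕ → ℕ) (hz : Monotone z) (b : ℕ → ℕ) (n J : ℕ) (hJ : 1 ≤ J) (hn : 3 * J ≤ n) :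
    ((SS b n (y1 J n) (z n)).card : ℝ) ≤ reps (R z b) n := by
  have hfin : {m : ℕ | 1 ≤ m ∧ m ^ 2 ≤ n ∧ n - m ^ 2 ∈ R z b}.Finite := by
    refine (Set.finite_Iic n).subset fun m hm => ?_
    exact (Nat.le_self_pow (by norm_num) m).trans hm.2.1
  have hJ0 : (1 : ℝ) ≤ J := by exact_mod_cast hJ
  have hJ1 : 0 ≤ 1 - 1 / (J : ℝ) := by
    have : 1 / (J : ℝ) ≤ 1 := by rw [div_le_one (by linarith)]; exact hJ0
    linarith
  unfold reps
  rw [Nat.cast_le, ← Set.ncard_coe_finset]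
  refine Set.ncard_le_ncard ?_ hfin
  intro m hm
  unfold SS at hm
  rw [mem_coe, mem_filter, mem_Ioc] at hm
  obtain ⟨⟨hm0, hm1⟩, hm2⟩ := hm
  have h1 : (m : ℝ) ≤ (1 - 1 / (J : ℝ)) * √n := by
    have h2 : (m : ℝ) ≤ y1 J n := by exact_mod_cast hm1
    exact h2.trans (Nat.floor_le (by positivity))
  have h3 : (m : ℝ) ^ 2 ≤ (1 - 1 / (J : ℝ)) * n := by
    calc (m : ℝ) ^ 2 ≤ ((1 - 1 / (J : ℝ)) * √n) ^ 2 := pow_le_pow_left₀ (Nat.cast_nonneg _) h1 2
      _ = (1 - 1 / (J : ℝ)) ^ 2 * n := by rw [mul_pow, Real.sq_sqrt (Nat.cast_nonneg _)]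
      _ ≤ (1 - 1 / (J : ℝ)) * n := by
          have h4 : 1 - 1 / (J : ℝ) ≤ 1 := by
            have : 0 ≤ 1 / (J : ℝ) := by positivity
            linarith
          have h5 : (1 - 1 / (J : ℝ)) ^ 2 ≤ (1 - 1 / (J : ℝ)) := by nlinarith
          gcongr
  have h4 : (m ^ 2 + 3 : ℕ) ≤ n := by
    have h5 : ((m ^ 2 + 3 : ℕ) : ℝ) ≤ n := by
      push_cast
      have h6 : (3 : ℝ) ≤ 1 / (J : ℝ) * n := by
        rw [one_div_mul_eq_div, le_div_iff₀ (by linarith)]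
        exact_mod_cast hn
      nlinarith
    exact_mod_cast h5
  refine ⟨hm0, by omega, ?_, fun q hq hqp => hm2 q (hq.trans (hz (by omega))) hqp⟩
  omega

theorem reps_up (z : ℕ → ℕ) (hz : Monotone z) (b : ℕ → ℕ) (n J T : ℕ) (hJ : 1 ≤ J)
    (hT : T ≤ z ⌊(n : ℝ) ^ (3 / 4 : ℝ)⌋₊) :
    (reps (R z b) n : ℝ) ≤ (SS b n (y1 J n) (z (n / J))).card +
      ((Ioc (y1 J n) (y1 J n + (Nat.sqrt n - y1 J n))).filter (fun m => ∀ p ≤ T, p.Prime → (n - m ^ 2) % p ≠ b p)).card +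
      ((n : ℝ) ^ (1 / 4 : ℝ) + 1) := by
  have hJ0 : (1 : ℝ) ≤ J := by exact_mod_cast hJ
  have hJ1 : 0 ≤ 1 - 1 / (J : ℝ) := by
    have : 1 / (J : ℝ) ≤ 1 := by rw [div_le_one (by linarith)]; exact hJ0
    linarith
  set s := Nat.sqrt n with hs
  set A1 := SS b n (y1 J n) (z (n / J)) with hA1
  set A2 := (Ioc (y1 J n) (y1 J n + (s - y1 J n))).filter (fun m => ∀ p ≤ T, p.Prime → (n - m ^ 2) % p ≠ b p) with hA2
  set A3 := Ioc ⌊√(n : ℝ) - (n : ℝ) ^ (1 / 4 : ℝ)⌋₊ s with hA3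
  have hsub : {m : ℕ | 1 ≤ m ∧ m ^ 2 ≤ n ∧ n - m ^ 2 ∈ R z b} ⊆ ((A1 ∪ A2 ∪ A3 : Finset ℕ) : Set ℕ) := by
    rintro m ⟨hm0, hm1, hm3, hm2⟩
    rw [coe_union, coe_union]
    have hms : m ≤ s := Nat.le_sqrt'.2 hm1
    by_cases h1 : m ≤ y1 J n
    · left; left
      rw [mem_coe, hA1]
      unfold SS
      rw [mem_filter, mem_Ioc]
      refine ⟨⟨by omega, h1⟩, fun p hp hpp => hm2 p (hp.trans (hz ?_)) hpp⟩
      have h1' : (m : ℝ) ≤ (1 - 1 / (J : ℝ)) * √n := by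
        have h2 : (m : ℝ) ≤ y1 J n := by exact_mod_cast h1
        exact h2.trans (Nat.floor_le (by positivity))
      have h3 : (m : ℝ) ^ 2 ≤ (1 - 1 / (J : ℝ)) * n := by
        calc (m : ℝ) ^ 2 ≤ ((1 - 1 / (J : ℝ)) * √n) ^ 2 := pow_le_pow_left₀ (Nat.cast_nonneg _) h1' 2
          _ = (1 - 1 / (J : ℝ)) ^ 2 * n := by rw [mul_pow, Real.sq_sqrt (Nat.cast_nonneg _)]
          _ ≤ (1 - 1 / (J : ℝ)) * n := by
              have h4 : 1 - 1 / (J : ℝ) ≤ 1 := by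
                have : 0 ≤ 1 / (J : ℝ) := by positivity
                linarith
              have h5 : (1 - 1 / (J : ℝ)) ^ 2 ≤ (1 - 1 / (J : ℝ)) := by nlinarith
              gcongr
      have h4 : ((n / J : ℕ) : ℝ) ≤ n - (m : ℝ) ^ 2 := by
        have h5 : ((n / J : ℕ) : ℝ) ≤ (n : ℝ) / J := Nat.cast_div_le
        have h6 : (n : ℝ) / J = 1 / (J : ℝ) * n := by ring
        nlinarith
      have h5 : (n / J : ℕ) + m ^ 2 ≤ n := by
        have : (((n / J : ℕ) + m ^ 2 : ℕ) : ℝ) ≤ n := by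
          push_cast
          linarith
        exact_mod_cast this
      omega
    · by_cases h2 : ⌊(n : ℝ) ^ (3 / 4 : ℝ)⌋₊ ≤ n - m ^ 2
      · left; right
        rw [mem_coe, hA2, mem_filter, mem_Ioc]
        exact ⟨⟨by omega, by omega⟩, fun p hp hpp => hm2 p ((hp.trans hT).trans (hz h2)) hpp⟩
      · right
        rw [mem_coe, hA3, mem_Ioc]
        refine ⟨?_, hms⟩
        have hn1 : (1 : ℝ) ≤ n := by
          have : 1 ≤ n := by
            have := Nat.pow_le_pow_left hm0 2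
            omega
          exact_mod_cast this
        have hn0 : (0 : ℝ) < n := by linarith
        rw [not_le] at h2
        have h3 : ((n - m ^ 2 : ℕ) : ℝ) < (n : ℝ) ^ (3 / 4 : ℝ) := Nat.lt_of_lt_floor h2
        rw [Nat.cast_sub hm1] at h3
        push_cast at h3
        rw [Nat.floor_lt' (by omega)]
        by_contra h4
        rw [not_lt] at h4
        -- `m ≤ √n - n^(1/4)`
        have h5 : (m : ℝ) ^ 2 ≤ (√(n : ℝ) - (n : ℝ) ^ (1 / 4 : ℝ)) ^ 2 := pow_le_pow_left₀ (Nat.cast_nonneg _) h4 2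
        have e1 : ((n : ℝ) ^ (1 / 4 : ℝ)) ^ 2 = √n := by
          rw [← Real.rpow_natCast, ← Real.rpow_mul hn0.le, Real.sqrt_eq_rpow]
          norm_num
        have e2 : √(n : ℝ) * (n : ℝ) ^ (1 / 4 : ℝ) = (n : ℝ) ^ (3 / 4 : ℝ) := by
          rw [Real.sqrt_eq_rpow, ← Real.rpow_add hn0]
          norm_num
        have e3 : √(n : ℝ) ≤ (n : ℝ) ^ (3 / 4 : ℝ) := by
          rw [Real.sqrt_eq_rpow]
          exact Real.rpow_le_rpow_of_exponent_le hn1 (by norm_num)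
        have e4 : √(n : ℝ) ^ 2 = n := Real.sq_sqrt hn0.le
        nlinarith
  have h1 : reps (R z b) n ≤ (A1 ∪ A2 ∪ A3).card := by
    unfold reps
    rw [← Set.ncard_coe_finset]
    exact Set.ncard_le_ncard hsub (finite_toSet _)
  have h2 : (A1 ∪ A2 ∪ A3).card ≤ A1.card + A2.card + A3.card :=
    (card_union_le _ _).trans (Nat.add_le_add_right (card_union_le _ _) _)
  have h3 : (A3.card : ℝ) ≤ (n : ℝ) ^ (1 / 4 : ℝ) + 1 := by
    rw [hA3, Nat.card_Ioc]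
    have hs1 : (s : ℝ) ≤ √n := by
      rw [← Real.sqrt_sq (Nat.cast_nonneg s)]
      exact Real.sqrt_le_sqrt (by exact_mod_cast Nat.sqrt_le' n)
    rcases le_total ⌊√(n : ℝ) - (n : ℝ) ^ (1 / 4 : ℝ)⌋₊ s with h | h
    · rw [Nat.cast_sub h]
      have := Nat.lt_floor_add_one (√(n : ℝ) - (n : ℝ) ^ (1 / 4 : ℝ))
      linarith
    · rw [Nat.sub_eq_zero_of_le h]
      push_cast
      positivity
  have h4 : (reps (R z b) n : ℝ) ≤ A1.card + A2.card + A3.card := by exact_mod_cast h1.trans h2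
  linarith

theorem det (z : ℕ → ℕ) (hz : Monotone z) (e δ C c : ℝ) (he : 0 < e) (he1 : e ≤ 1 / 4) (hc : 0 < c) (J B : ℕ) (K : ℝ)
    (hJ : 1 ≤ J) (hJe : 2 / (J : ℝ) ≤ e) (hJC : 4 * C / J ≤ e)
    (hfl : ∀ b : ℕ → ℕ, (∀ p, p.Prime → b p < p) →
      ∀ n T k y : ℕ, (k + y) ^ 2 ≤ n →
      |(((Ioc k (k + y)).filter (fun m => ∀ p ≤ T, p.Prime → (n - m ^ 2) % p ≠ b p)).card : ℝ) -
        y * (sg b n T * V T)| ≤ e * (y * (sg b n T * V T)) + K * ((T : ℝ) + 1) ^ B) (hK : 0 < K)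
    (n : ℕ) (hf : Facts z e δ C c J B K n) (b : ℕ → ℕ) (hb : ∀ p, p.Prime → b p < p)
    (h1 : |((SS b n (y1 J n) (z n)).card : ℝ) - (SS b n (y1 J n) (TT δ n)).card *
      ∏ p ∈ (Ioc (TT δ n) (z n)).filter Nat.Prime, (1 - 1 / (p : ℝ))| ≤ e * (√n / Real.log n ^ 3))
    (h2 : |((SS b n (y1 J n) (z (n / J))).card : ℝ) - (SS b n (y1 J n) (TT δ n)).card *
      ∏ p ∈ (Ioc (TT δ n) (z (n / J))).filter Nat.Prime, (1 - 1 / (p : ℝ))| ≤ e * (√n / Real.log n ^ 3)) :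
    |(reps (R z b) n : ℝ) - sg b n (TT δ n) * (√n / Real.log n)| ≤
      6 * e * (sg b n (TT δ n) * (√n / Real.log n)) := by
  obtain ⟨n2, L1, L0, T1, V1, V2, VT, VT', T2, T3, T4, E1, J1⟩ := hf
  set L := Real.log n with hL
  set T := TT δ n with hT
  set s := Nat.sqrt n with hs
  set y := y1 J n with hy
  set sT := sg b n T with hsT
  have hL0 : 0 < L := by linarith
  have hn0 : (0 : ℝ) < n := by
    have : 0 < n := by omega
    exact_mod_cast this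
  have hsq : 0 < √(n : ℝ) := Real.sqrt_pos.2 hn0
  have hJ0 : (1 : ℝ) ≤ J := by exact_mod_cast hJ
  have hJ1 : 1 / (J : ℝ) ≤ 1 := by rw [div_le_one (by linarith)]; exact hJ0
  have hVT0 := V_pos T
  have hsT0 : 0 < sT := sg_pos b n T
  have hsTc : c / 2 ≤ sT * L := by
    have h3 := sg_ge b n T
    have h4 : V T * L / 2 ≤ sT * L := by
      have : V T / 2 * L ≤ sT * L := mul_le_mul_of_nonneg_right h3 hL0.le
      linarith
    linarith
  set M0 := sT * (√n / L) with hM0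
  have hM0p : 0 < M0 := by positivity
  have hM : (c / 2) * (√n / L ^ 2) ≤ M0 := by
    have : M0 = (sT * L) * (√n / L ^ 2) := by
      rw [hM0]
      field_simp
    rw [this]
    gcongr
  have hEa : K * ((T : ℝ) + 1) ^ B + ((n : ℝ) ^ (1 / 4 : ℝ) + 1) ≤ e / 2 * M0 :=
    E1.trans (mul_le_mul_of_nonneg_left hM (by positivity))
  have hEb : e * (√n / L ^ 3) ≤ e / 2 * M0 := by
    have h3 : √n / L ^ 3 ≤ (1 / 2) * ((c / 2) * (√n / L ^ 2)) := by
      rw [div_le_iff₀ hc] at L1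
      rw [div_le_iff₀ (by positivity)]
      have : 1 / 2 * (c / 2 * (√n / L ^ 2)) * L ^ 3 = √n * (L * c / 4) := by
        field_simp
        norm_num
      rw [this]
      nlinarith
    calc e * (√n / L ^ 3) ≤ e * ((1 / 2) * ((c / 2) * (√n / L ^ 2))) := by gcongr
      _ ≤ e * ((1 / 2) * M0) := by gcongr
      _ = _ := by ring
  -- the range
  have hyle : (y : ℝ) ≤ (1 - 1 / (J : ℝ)) * √n := Nat.floor_le (by
    have : 0 ≤ 1 - 1 / (J : ℝ) := by linarith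
    positivity)
  have hyle2 : (y : ℝ) ≤ √n := by
    have : 0 ≤ 1 / (J : ℝ) * √n := by positivity
    linarith
  have hyge : (1 - 2 / (J : ℝ)) * √n ≤ y := by
    have h3 := Nat.lt_floor_add_one ((1 - 1 / (J : ℝ)) * √n)
    have h4 : (1 - 2 / (J : ℝ)) * √n = (1 - 1 / (J : ℝ)) * √n - 1 / (J : ℝ) * √n := by ring
    rw [h4]
    have h5 : (y : ℝ) = (⌊(1 - 1 / (J : ℝ)) * √n⌋₊ : ℝ) := rfl
    rw [h5]
    linarith
  have hy2 : y ^ 2 ≤ n := by
    have h3 : ((y ^ 2 : ℕ) : ℝ) ≤ n := by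
      push_cast
      calc (y : ℝ) ^ 2 ≤ √(n : ℝ) ^ 2 := pow_le_pow_left₀ (Nat.cast_nonneg _) hyle2 2
        _ = n := Real.sq_sqrt hn0.le
    exact_mod_cast h3
  have hys : y ≤ s := Nat.le_sqrt'.2 hy2
  have hss : (s : ℝ) ≤ √n := by
    rw [← Real.sqrt_sq (Nat.cast_nonneg s)]
    exact Real.sqrt_le_sqrt (by exact_mod_cast Nat.sqrt_le' n)
  -- the sieve up to `T`
  have hfl1 := hfl b hb n T 0 y (by simpa using hy2)
  have e0 : ((Ioc 0 (0 + y)).filter (fun m => ∀ p ≤ T, p.Prime → (n - m ^ 2) % p ≠ b p)) = SS b n y T := by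
    unfold SS
    rw [zero_add]
  rw [e0] at hfl1
  obtain ⟨hfl1a, hfl1b⟩ := abs_le.1 hfl1
  set E := K * ((T : ℝ) + 1) ^ B with hE
  have hE0 : 0 ≤ E := by positivity
  -- the products
  have W1e := V_ratio T (z n) T3
  have W2e := V_ratio T (z (n / J)) T2
  have hVz1 := V_pos (z n)
  have hVz2 := V_pos (z (n / J))
  have W1le : V (z n) / V T ≤ 1 := by
    rw [div_le_one hVT0]
    exact V_anti T3
  have W2le : V (z (n / J)) / V T ≤ 1 := by
    rw [div_le_one hVT0]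
    exact V_anti T2
  rw [← W1e] at h1
  rw [← W2e] at h2
  obtain ⟨V1a, V1b⟩ := abs_le.1 V1
  obtain ⟨V2a, V2b⟩ := abs_le.1 V2
  have hVz1L : (1 - e) / L ≤ V (z n) := by
    rw [div_le_iff₀ hL0]
    linarith
  have hVz2L : V (z (n / J)) ≤ (1 + e) / L := by
    rw [le_div_iff₀ hL0]
    linarith
  rw [abs_le]
  constructor
  · -- lower bound
    have h3 := reps_low z hz b n J hJ n2
    have h4 := (abs_le.1 h1).1
    have h5 : (1 - e) * (y * (sT * V T)) - E ≤ (SS b n y T).card := by linarith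
    have h6 : (1 - e) * y * sT * V (z n) - E ≤ (SS b n y T).card * (V (z n) / V T) := by
      have hw : 0 ≤ V (z n) / V T := by positivity
      calc (1 - e) * y * sT * V (z n) - E ≤ (1 - e) * y * sT * V (z n) - E * (V (z n) / V T) := by
            have : E * (V (z n) / V T) ≤ E * 1 := mul_le_mul_of_nonneg_left W1le hE0
            linarith
        _ = ((1 - e) * (y * (sT * V T)) - E) * (V (z n) / V T) := by
            field_simp
        _ ≤ _ := mul_le_mul_of_nonneg_right h5 hw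
    have h7 : (1 - e) ^ 2 * (1 - 2 / (J : ℝ)) * M0 ≤ (1 - e) * y * sT * V (z n) := by
      have he' : 0 ≤ 1 - e := by linarith
      calc (1 - e) ^ 2 * (1 - 2 / (J : ℝ)) * M0 = (1 - e) * ((1 - 2 / (J : ℝ)) * √n) * sT * ((1 - e) / L) := by
            rw [hM0]
            ring
        _ ≤ (1 - e) * y * sT * V (z n) := by
            gcongr
    have h8 : 1 - 4 * e ≤ (1 - e) ^ 2 * (1 - 2 / (J : ℝ)) := by
      have h9 : (1 - e) ^ 2 * (1 - e) ≤ (1 - e) ^ 2 * (1 - 2 / (J : ℝ)) :=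
        mul_le_mul_of_nonneg_left (by linarith) (sq_nonneg _)
      have h10 : (1 - e) ^ 2 * (1 - e) = 1 - 3 * e + 3 * e ^ 2 - e ^ 3 := by ring
      have h11 : e ^ 3 ≤ 3 * e ^ 2 := by nlinarith [sq_nonneg e]
      linarith
    have h9 : (1 - 4 * e) * M0 ≤ (1 - e) ^ 2 * (1 - 2 / (J : ℝ)) * M0 := mul_le_mul_of_nonneg_right h8 hM0p.le
    have h10 : 0 ≤ (n : ℝ) ^ (1 / 4 : ℝ) + 1 := by positivity
    nlinarith
  · -- upper bound
    have h3 := reps_up z hz b n J T hJ T4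
    have h4 := (abs_le.1 h2).2
    have h5 : (SS b n y T).card ≤ (1 + e) * (y * (sT * V T)) + E := by linarith
    have h6 : (SS b n y T).card * (V (z (n / J)) / V T) ≤ (1 + e) * y * sT * V (z (n / J)) + E := by
      have hw : 0 ≤ V (z (n / J)) / V T := by positivity
      calc (SS b n y T).card * (V (z (n / J)) / V T) ≤ ((1 + e) * (y * (sT * V T)) + E) * (V (z (n / J)) / V T) :=
            mul_le_mul_of_nonneg_right h5 hw
        _ = (1 + e) * y * sT * V (z (n / J)) + E * (V (z (n / J)) / V T) := by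
            field_simp
        _ ≤ _ := by
            have : E * (V (z (n / J)) / V T) ≤ E * 1 := mul_le_mul_of_nonneg_left W2le hE0
            linarith
    have h7 : (1 + e) * y * sT * V (z (n / J)) ≤ (1 + e) ^ 2 * M0 := by
      calc (1 + e) * y * sT * V (z (n / J)) ≤ (1 + e) * √n * sT * ((1 + e) / L) := by gcongr
        _ = _ := by
            rw [hM0]
            ring
    -- the second range
    have hfl2 := hfl b hb n T y (s - y) (by
      rw [Nat.add_sub_cancel' hys]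
      exact Nat.sqrt_le' n)
    have h8 := (abs_le.1 hfl2).2
    have h9 : ((s - y : ℕ) : ℝ) ≤ 2 / J * √n := by
      rw [Nat.cast_sub hys]
      linarith
    have h10 : ((s - y : ℕ) : ℝ) * (sT * V T) ≤ e / 2 * M0 := by
      calc ((s - y : ℕ) : ℝ) * (sT * V T) ≤ (2 / J * √n) * (sT * (C / L)) := by
            have : V T ≤ C / L := by
              rw [le_div_iff₀ hL0]
              exact VT
            gcongr
        _ = (4 * C / J) / 2 * M0 := by
            rw [hM0]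
            ring
        _ ≤ e / 2 * M0 := by gcongr
    have h11 : ((1 + e) ^ 2 : ℝ) ≤ 1 + 9 / 4 * e := by nlinarith
    have h12 : (1 + e) ^ 2 * M0 ≤ (1 + 9 / 4 * e) * M0 := mul_le_mul_of_nonneg_right h11 hM0p.le
    have h13 : 0 ≤ ((s - y : ℕ) : ℝ) * (sT * V T) := by positivity
    have h14 : (1 + e) * (((s - y : ℕ) : ℝ) * (sT * V T)) ≤ (1 + e) * (e / 2 * M0) :=
      mul_le_mul_of_nonneg_left h10 (by linarith)
    have h15 : (1 + e) * (e / 2 * M0) ≤ 5 / 8 * e * M0 := by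
      have : 0 ≤ e * M0 := by positivity
      nlinarith
    have h16 : 0 ≤ (n : ℝ) ^ (1 / 4 : ℝ) + 1 := by positivity
    have h17 : 0 < e * M0 := by positivity
    nlinarith

end Pool.Agent.H559.BS
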