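import Pool.Agent.H559.BS.Ext

set_option autoImplicit false

/-! # The final form -/

open Finset MeasureTheory ProbabilityTheory Filter Topology
open Pool.Agent.T2H32.BF (V V_pos V_anti V_ratio mertens Model prob)
open Pool.Agent.T2H32.GB (C2 C2_succ C2_pos C2_anti C2_ge)

namespace Pool.Agent.H559.BS

variable {Ω : Type*} [MeasurableSpace Ω] {P : Measure Ω} {a : ℕ → Ω → ℕ}

theorem log_close (x y τ : ℝ) (hx : 0 < x) (hy : 0 < y) (h : |Real.log x - Real.log y| ≤ τ) :
    x ≤ Real.exp τ * y ∧ Real.exp (-τ) * y ≤ x := by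
  obtain ⟨h1, h2⟩ := abs_le.1 h
  constructor
  · rw [← Real.log_le_log_iff hx (by positivity), Real.log_mul (Real.exp_pos _).ne' hy.ne', Real.log_exp]
    linarith
  · rw [← Real.log_le_log_iff (by positivity) hx, Real.log_mul (Real.exp_pos _).ne' hy.ne', Real.log_exp]
    linarith

theorem pick (c ε : ℝ) (hε : 0 < ε) : ∃ k : ℕ, Real.exp (3 / ((k : ℝ) + 1)) * c < c + ε ∧
    c - ε < Real.exp (-(3 / ((k : ℝ) + 1))) * c := by
  have h1 : Tendsto (fun k : ℕ => 3 / ((k : ℝ) + 1)) atTop (𝓝 0) := by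
    have := (tendsto_one_div_add_atTop_nhds_zero_nat (𝕜 := ℝ)).const_mul 3
    rw [mul_zero] at this
    exact this.congr fun k => by ring
  have h2 : Tendsto (fun k : ℕ => Real.exp (3 / ((k : ℝ) + 1)) * c) atTop (𝓝 c) := by
    have := ((Real.continuous_exp.tendsto 0).comp h1).mul_const c
    rw [Real.exp_zero, one_mul] at this
    exact this
  have h3 : Tendsto (fun k : ℕ => Real.exp (-(3 / ((k : ℝ) + 1))) * c) atTop (𝓝 c) := by
    have h4 := h1.neg
    rw [neg_zero] at h4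
    have := ((Real.continuous_exp.tendsto 0).comp h4).mul_const c
    rw [Real.exp_zero, one_mul] at this
    exact this
  obtain ⟨k, hk⟩ := ((h2.eventually_lt_const (show c < c + ε by linarith)).and
    (h3.eventually_const_lt (show c - ε < c by linarith))).exists
  exact ⟨k, hk⟩

theorem ll_top : Tendsto (fun n : ℕ => Real.log (Real.log n)) atTop atTop := Real.tendsto_log_atTop.comp log_top

/-- the extreme values are attained along a sequence -/
theorem ext_seq (b : ℕ → ℕ) (ν : ℕ) (hν : ∀ p, p.Prime → p ≠ 2 → ∃ c : ℕ, ∀ n : ℕ, n % p = c % p → (Om b n p).card = ν) :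
    ∃ w : ℕ → ℕ, Tendsto w atTop atTop ∧ (∀ y, Even (w y)) ∧ (∀ᶠ y in atTop, ∀ K : ℝ, 1 ≤ K → y ≤ U K (w y)) ∧
      (∀ y ≥ 2, ∀ p ≤ y, p.Prime → p ≠ 2 → (Om b (w y) p).card = ν) ∧
      Tendsto (fun y => V y * Real.log (Real.log (w y))) atTop (𝓝 g) := by
  have h1 : ∀ y : ℕ, ∃ n : ℕ, 4 ^ y ≤ n ∧ n ≤ 2 * 4 ^ y ∧ Even n ∧ (2 ≤ y → ∀ p ≤ y, p.Prime → p ≠ 2 → (Om b n p).card = ν) := by
    intro y
    by_cases hy : 2 ≤ y
    · obtain ⟨n, h1, h2, h3, h4⟩ := extr b ν hν y hy
      exact ⟨n, h1, h2, h3, fun _ => h4⟩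
    · refine ⟨2 * 4 ^ y, by omega, le_rfl, even_two_mul _, fun h => absurd h hy⟩
  choose w hw1 hw2 hw3 hw4 using h1
  have hlog1 : ∀ y : ℕ, (y : ℝ) ≤ Real.log (w y) := by
    intro y
    have h2 : ((4 : ℝ) ^ y) ≤ w y := by exact_mod_cast hw1 y
    have h3 : Real.log ((4 : ℝ) ^ y) ≤ Real.log (w y) := Real.log_le_log (by positivity) h2
    rw [Real.log_pow] at h3
    have h4 : 1 ≤ Real.log 4 := by
      rw [Real.le_log_iff_exp_le (by norm_num)]
      have := Real.exp_one_lt_d9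
      linarith
    have h5 : (0 : ℝ) ≤ y := Nat.cast_nonneg _
    nlinarith
  have hlog2 : ∀ y : ℕ, 1 ≤ y → Real.log (w y) ≤ 4 * y := by
    intro y hy
    have h2 : (w y : ℝ) ≤ 2 * (4 : ℝ) ^ y := by exact_mod_cast hw2 y
    have hwpos : 0 < w y := lt_of_lt_of_le (by positivity) (hw1 y)
    have h3 : Real.log (w y) ≤ Real.log (2 * (4 : ℝ) ^ y) := Real.log_le_log (by exact_mod_cast hwpos) h2
    rw [Real.log_mul (by norm_num) (by positivity), Real.log_pow] at h3
    have h5 : (1 : ℝ) ≤ y := by exact_mod_cast hy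
    have h6 : Real.log 4 = 2 * Real.log 2 := by
      rw [show (4 : ℝ) = 2 ^ 2 by norm_num, Real.log_pow]
      norm_num
    have h7 := Real.log_two_lt_d9
    have h8 : 0 < Real.log 2 := Real.log_pos (by norm_num)
    rw [h6] at h3
    nlinarith
  refine ⟨w, ?_, hw3, ?_, fun y hy => hw4 y hy, ?_⟩
  · refine tendsto_atTop_mono (fun y => (?_ : y ≤ w y)) tendsto_id
    exact (Nat.lt_pow_self (by norm_num)).le.trans (hw1 y)
  · refine Eventually.of_forall fun y K hK => ?_
    have h2 := U_ge K (w y)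
    have h3 := hlog1 y
    have h4 : (y : ℝ) ≤ U K (w y) := by
      have h5 : (0 : ℝ) ≤ y := Nat.cast_nonneg _
      nlinarith
    exact_mod_cast h4
  · refine shift (fun y => y) tendsto_id _ (Real.log 4) ?_
    filter_upwards [eventually_ge_atTop 1] with y hy
    have hy0 : (1 : ℝ) ≤ y := by exact_mod_cast hy
    have h1 := hlog1 y
    have h2 := hlog2 y hy
    have h3 : Real.log y ≤ Real.log (Real.log (w y)) := Real.log_le_log (by linarith) h1
    have h4 : Real.log (Real.log (w y)) ≤ Real.log 4 + Real.log y := by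
      rw [← Real.log_mul (by norm_num) (by positivity)]
      exact Real.log_le_log (by linarith) h2
    rw [abs_sub_comm, abs_of_nonneg (by linarith)]
    linarith

section
variable (b : ℕ → ℕ) (r S : ℕ → ℝ) (c₂ : ℝ) (hc0 : 0 < c₂) (hc : Tendsto C2 atTop (𝓝 c₂)) (hS1 : ∀ n, 0 < S n)
  (hr : Tendsto (fun n : ℕ => r n / (S n * (√n / Real.log n))) atTop (𝓝 1))
  (hD : ∀ k : ℕ, ∃ K : ℝ, 1 ≤ K ∧ ∀ᶠ n : ℕ in atTop, |Real.log (S n) - Real.log (sg b n (U K n))| ≤ 3 / ((k : ℝ) + 1))

include hS1 hr hD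

theorem up1 (ε : ℝ) (hε : 0 < ε) :
    ∀ᶠ n : ℕ in atTop, r n ≤ (1 / (2 * g) + ε) * (√n * Real.log (Real.log n) / Real.log n) := by
  have hg := g_pos
  obtain ⟨k, hk, _⟩ := pick (1 / (2 * g)) ε hε
  obtain ⟨K, hK, hD1⟩ := hD k
  set E := Real.exp (3 / ((k : ℝ) + 1)) with hE
  have hE0 : 0 < E := Real.exp_pos _
  have h1 : Tendsto (fun n : ℕ => (r n / (S n * (√n / Real.log n))) * (E * (1 / (2 * (V (U K n) * Real.log (Real.log n))))))
      atTop (𝓝 (1 * (E * (1 / (2 * g))))) := by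
    refine hr.mul (Tendsto.const_mul _ ?_)
    exact tendsto_const_nhds.div ((V_U K hK).const_mul 2) (by positivity)
  rw [one_mul] at h1
  filter_upwards [h1.eventually_lt_const hk, hD1, log_top.eventually_ge_atTop 1, ll_top.eventually_ge_atTop 1,
    hr.eventually_const_lt (show (0 : ℝ) < 1 by norm_num), eventually_ge_atTop 1] with n h2 h3 h4 h5 h6 hn
  set L := Real.log n with hL
  set LL := Real.log L with hLL
  set q := r n / (S n * (√n / L)) with hq
  have hn0 : (0 : ℝ) < n := by exact_mod_cast hn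
  have hM : 0 < √n / L := by positivity
  have hSn := hS1 n
  have hV := V_pos (U K n)
  have hrq : r n = q * (S n * (√n / L)) := by
    rw [hq]
    field_simp
  have h7 := (log_close _ _ _ hSn (sg_pos b n _) h3).1
  have h8 := sg_le_V b n (U K n) (by unfold U; omega)
  have h9 : sg b n (U K n) ≤ 1 / (2 * V (U K n)) := by
    rw [le_div_iff₀ (by positivity)]
    linarith
  have h10 : S n ≤ E * (1 / (2 * V (U K n))) := h7.trans (mul_le_mul_of_nonneg_left h9 hE0.le)
  calc r n = q * (S n * (√n / L)) := hrq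
    _ ≤ q * ((E * (1 / (2 * V (U K n)))) * (√n / L)) := by gcongr
    _ = (q * (E * (1 / (2 * (V (U K n) * LL))))) * (√n * LL / L) := by
        field_simp
    _ ≤ _ := by
        have : 0 ≤ √n * LL / L := by positivity
        exact mul_le_mul_of_nonneg_right h2.le this

include hc hc0

theorem lo1 (ε : ℝ) (hε : 0 < ε) :
    ∀ᶠ n : ℕ in atTop, (2 * g * c₂ - ε) * (√n / (Real.log n * Real.log (Real.log n))) ≤ r n := by
  have hg := g_pos
  obtain ⟨k, _, hk⟩ := pick (2 * g * c₂) ε hε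
  obtain ⟨K, hK, hD1⟩ := hD k
  set E := Real.exp (-(3 / ((k : ℝ) + 1))) with hE
  have hE0 : 0 < E := Real.exp_pos _
  have h1 : Tendsto (fun n : ℕ => (r n / (S n * (√n / Real.log n))) *
      (E * (2 * (V (U K n) * Real.log (Real.log n)) * C2 (U K n)))) atTop (𝓝 (1 * (E * (2 * g * c₂)))) := by
    refine hr.mul (Tendsto.const_mul _ ?_)
    exact ((V_U K hK).const_mul 2).mul (hc.comp (U_top K hK))
  rw [one_mul] at h1
  filter_upwards [h1.eventually_const_lt hk, hD1, log_top.eventually_ge_atTop 1, ll_top.eventually_ge_atTop 1,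
    hr.eventually_const_lt (show (0 : ℝ) < 1 by norm_num), eventually_ge_atTop 1] with n h2 h3 h4 h5 h6 hn
  set L := Real.log n with hL
  set LL := Real.log L with hLL
  set q := r n / (S n * (√n / L)) with hq
  have hn0 : (0 : ℝ) < n := by exact_mod_cast hn
  have hM : 0 < √n / L := by positivity
  have hSn := hS1 n
  have hV := V_pos (U K n)
  have hrq : r n = q * (S n * (√n / L)) := by
    rw [hq]
    field_simp
  have h7 := (log_close _ _ _ hSn (sg_pos b n _) h3).2
  have h8 := sg_ge_V b n (U K n) (by unfold U; omega)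
  have h10 : E * (2 * (V (U K n) * C2 (U K n))) ≤ S n := (mul_le_mul_of_nonneg_left h8 hE0.le).trans h7
  calc (2 * g * c₂ - ε) * (√n / (L * LL)) ≤ (q * (E * (2 * (V (U K n) * LL) * C2 (U K n)))) * (√n / (L * LL)) :=
        mul_le_mul_of_nonneg_right h2.le (by positivity)
    _ = q * ((E * (2 * (V (U K n) * C2 (U K n)))) * (√n / L)) := by
        field_simp
    _ ≤ q * (S n * (√n / L)) := by gcongr
    _ = r n := hrq.symm

theorem up2 (ε : ℝ) (hε : 0 < ε) :
    ∃ᶠ n : ℕ in atTop, Even n ∧ (1 / (2 * g) - ε) * (√n * Real.log (Real.log n) / Real.log n) ≤ r n := by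
  have hg := g_pos
  obtain ⟨k, _, hk⟩ := pick (1 / (2 * g)) ε hε
  obtain ⟨K, hK, hD1⟩ := hD k
  obtain ⟨w, hw1, hw2, hw3, hw4, hw5⟩ := ext_seq b 0 (fun p hp h2 => exists_zero b p hp h2)
  set E := Real.exp (-(3 / ((k : ℝ) + 1))) with hE
  have hE0 : 0 < E := Real.exp_pos _
  have hUw := (U_top K hK).comp hw1
  have h1 : Tendsto (fun y : ℕ => (r (w y) / (S (w y) * (√(w y) / Real.log (w y)))) *
      (E * (((1 / (2 * (V y * Real.log (Real.log (w y))))) *
        ((V (U K (w y)) * Real.log (Real.log (w y))) / (V y * Real.log (Real.log (w y))))) * (C2 (U K (w y)) / C2 y))))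
      atTop (𝓝 (1 * (E * (((1 / (2 * g)) * (g / g)) * (c₂ / c₂))))) := by
    refine (hr.comp hw1).mul (Tendsto.const_mul _ ((Tendsto.mul ?_ ?_).mul ?_))
    · exact tendsto_const_nhds.div (hw5.const_mul 2) (by positivity)
    · exact ((V_U K hK).comp hw1).div hw5 hg.ne'
    · exact (hc.comp hUw).div hc hc0.ne'
  rw [one_mul, div_self hg.ne', div_self hc0.ne', mul_one, mul_one] at h1
  have h0 : ∀ᶠ y : ℕ in atTop, (1 / (2 * g) - ε) * (√(w y) * Real.log (Real.log (w y)) / Real.log (w y)) ≤ r (w y) := by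
    filter_upwards [h1.eventually_const_lt hk, hw1.eventually hD1, hw1.eventually (log_top.eventually_ge_atTop 1),
      hw1.eventually (ll_top.eventually_ge_atTop 1), hw1.eventually (hr.eventually_const_lt (show (0 : ℝ) < 1 by norm_num)),
      hw1.eventually (eventually_ge_atTop 1), hw3, eventually_ge_atTop 2] with y h2 h3 h4 h5 h6 hn hy hy2
    set n := w y with hnd
    set L := Real.log n with hL
    set LL := Real.log L with hLL
    set q := r n / (S n * (√n / L)) with hq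
    have hn0 : (0 : ℝ) < n := by exact_mod_cast hn
    have hM : 0 < √n / L := by positivity
    have hSn := hS1 n
    have hV := V_pos (U K n)
    have hVy := V_pos y
    have hCy := C2_pos y
    have hCU := C2_pos (U K n)
    have hrq : r n = q * (S n * (√n / L)) := by
      rw [hq]
      field_simp
    have h7 := (log_close _ _ _ hSn (sg_pos b n _) h3).2
    have h8 := step_dn b n y (U K n) hy2 (hy K hK)
    have h9 := sg_eq_max b n y hy2 (hw4 y hy2)
    have h11 : (1 / (2 * V y)) * (V (U K n) / V y) * (C2 (U K n) / C2 y) ≤ sg b n (U K n) := by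
      have e1 : sg b n y = 1 / (2 * V y) := by
        field_simp
        linarith
      rw [e1] at h8
      have e2 : (1 / (2 * V y)) * (V (U K n) / V y) * (C2 (U K n) / C2 y) =
          (1 / (2 * V y) * (V (U K n) * C2 (U K n))) / (V y * C2 y) := by
        field_simp
      rw [e2, div_le_iff₀ (by positivity)]
      exact h8
    have h10 : E * ((1 / (2 * V y)) * (V (U K n) / V y) * (C2 (U K n) / C2 y)) ≤ S n :=
      (mul_le_mul_of_nonneg_left h11 hE0.le).trans h7
    calc (1 / (2 * g) - ε) * (√n * LL / L) ≤ (q * (E * (((1 / (2 * (V y * LL))) *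
          ((V (U K n) * LL) / (V y * LL))) * (C2 (U K n) / C2 y)))) * (√n * LL / L) :=
          mul_le_mul_of_nonneg_right h2.le (by positivity)
      _ = q * ((E * ((1 / (2 * V y)) * (V (U K n) / V y) * (C2 (U K n) / C2 y))) * (√n / L)) := by
          field_simp
      _ ≤ q * (S n * (√n / L)) := by gcongr
      _ = r n := hrq.symm
  refine hw1.frequently (Eventually.frequently ?_)
  filter_upwards [h0] with y hy using ⟨hw2 y, hy⟩

theorem lo2 (ε : ℝ) (hε : 0 < ε) :
    ∃ᶠ n : ℕ in atTop, Even n ∧ r n ≤ (2 * g * c₂ + ε) * (√n / (Real.log n * Real.log (Real.log n))) := by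
  have hg := g_pos
  obtain ⟨k, hk, _⟩ := pick (2 * g * c₂) ε hε
  obtain ⟨K, hK, hD1⟩ := hD k
  obtain ⟨w, hw1, hw2, hw3, hw4, hw5⟩ := ext_seq b 2 (fun p hp h2 => exists_two b p hp h2)
  set E := Real.exp (3 / ((k : ℝ) + 1)) with hE
  have hE0 : 0 < E := Real.exp_pos _
  have hUw := (U_top K hK).comp hw1
  have h1 : Tendsto (fun y : ℕ => (r (w y) / (S (w y) * (√(w y) / Real.log (w y)))) *
      (E * ((2 * (V y * Real.log (Real.log (w y))) * C2 y) *
        ((V y * Real.log (Real.log (w y))) / (V (U K (w y)) * Real.log (Real.log (w y)))))))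
      atTop (𝓝 (1 * (E * ((2 * g * c₂) * (g / g))))) := by
    refine (hr.comp hw1).mul (Tendsto.const_mul _ (Tendsto.mul ?_ ?_))
    · exact (hw5.const_mul 2).mul hc
    · exact hw5.div ((V_U K hK).comp hw1) hg.ne'
  rw [one_mul, div_self hg.ne', mul_one] at h1
  have h0 : ∀ᶠ y : ℕ in atTop, r (w y) ≤ (2 * g * c₂ + ε) * (√(w y) / (Real.log (w y) * Real.log (Real.log (w y)))) := by
    filter_upwards [h1.eventually_lt_const hk, hw1.eventually hD1, hw1.eventually (log_top.eventually_ge_atTop 1),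
      hw1.eventually (ll_top.eventually_ge_atTop 1), hw1.eventually (hr.eventually_const_lt (show (0 : ℝ) < 1 by norm_num)),
      hw1.eventually (eventually_ge_atTop 1), hw3, eventually_ge_atTop 2] with y h2 h3 h4 h5 h6 hn hy hy2
    set n := w y with hnd
    set L := Real.log n with hL
    set LL := Real.log L with hLL
    set q := r n / (S n * (√n / L)) with hq
    have hn0 : (0 : ℝ) < n := by exact_mod_cast hn
    have hM : 0 < √n / L := by positivity
    have hSn := hS1 n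
    have hV := V_pos (U K n)
    have hVy := V_pos y
    have hCy := C2_pos y
    have hrq : r n = q * (S n * (√n / L)) := by
      rw [hq]
      field_simp
    have h7 := (log_close _ _ _ hSn (sg_pos b n _) h3).1
    have h8 := step_up b n y (U K n) (hy K hK)
    have h9 := sg_eq_min b n y hy2 (hw4 y hy2)
    rw [h9] at h8
    have h11 : sg b n (U K n) ≤ (2 * V y * C2 y) * (V y / V (U K n)) := by
      have e2 : (2 * V y * C2 y) * (V y / V (U K n)) = (2 * (V y * C2 y) * V y) / V (U K n) := by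
        field_simp
      rw [e2, le_div_iff₀ hV]
      exact h8
    have h10 : S n ≤ E * ((2 * V y * C2 y) * (V y / V (U K n))) := h7.trans (mul_le_mul_of_nonneg_left h11 hE0.le)
    calc r n = q * (S n * (√n / L)) := hrq
      _ ≤ q * ((E * ((2 * V y * C2 y) * (V y / V (U K n)))) * (√n / L)) := by gcongr
      _ = (q * (E * ((2 * (V y * LL) * C2 y) * ((V y * LL) / (V (U K n) * LL))))) * (√n / (L * LL)) := by
          field_simp
      _ ≤ _ := mul_le_mul_of_nonneg_right h2.le (by positivity)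
  refine hw1.frequently (Eventually.frequently ?_)
  filter_upwards [h0] with y hy using ⟨hw2 y, hy⟩

end

/-- **The main theorem in the form of the file.** -/
theorem full (h : Model P a) (z : ℕ → ℕ) (hz : Limit z) (c₂ : ℝ) (hc0 : 0 < c₂) (hc : Tendsto C2 atTop (𝓝 c₂)) :
    ∀ᵐ ω ∂P, ∃ S : ℕ → ℝ, (∀ n, 0 < S n ∧ Tendsto (sg (fun p => a p ω) n) atTop (𝓝 (S n))) ∧
      Tendsto (fun n => (reps (R z (fun p => a p ω)) n : ℝ) / (S n * (√n / Real.log n))) atTop (𝓝 1) ∧
      ∀ ε : ℝ, 0 < ε →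
        (∀ᶠ n : ℕ in atTop, (2 * g * c₂ - ε) * (√n / (Real.log n * Real.log (Real.log n))) ≤ reps (R z (fun p => a p ω)) n ∧
          reps (R z (fun p => a p ω)) n ≤ (1 / (2 * g) + ε) * (√n * Real.log (Real.log n) / Real.log n)) ∧
        (∃ᶠ n : ℕ in atTop, Even n ∧
          reps (R z (fun p => a p ω)) n ≤ (2 * g * c₂ + ε) * (√n / (Real.log n * Real.log (Real.log n)))) ∧
        ∃ᶠ n : ℕ in atTop, Even n ∧
          (1 / (2 * g) - ε) * (√n * Real.log (Real.log n) / Real.log n) ≤ reps (R z (fun p => a p ω)) n := by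
  have h1 : ∀ᵐ ω ∂P, ∀ A : ℕ, ∀ᶠ u : ℕ in atTop, ∀ n ≤ u ^ A, ∀ x ≤ u ^ 2,
      |∑ p ∈ (Ioc u x).filter Nat.Prime, X n p (a p ω)| ≤ (u : ℝ) ^ (-(1 / 4) : ℝ) :=
    ae_all_iff.2 fun A => tail_ae h A
  have h2 : ∀ᵐ ω ∂P, ∀ k : ℕ, ∀ᶠ n : ℕ in atTop,
      |∑ p ∈ (Ioc (U (8 / (1 / ((k : ℝ) + 1)) ^ 2) n) n).filter Nat.Prime, X n p (a p ω)| ≤ 1 / ((k : ℝ) + 1) := by
    refine ae_all_iff.2 fun k => tail_seq h (1 / ((k : ℝ) + 1)) (by positivity) ?_ (fun n => n)
    rw [div_le_one (by positivity)]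
    have : (0 : ℝ) ≤ k := Nat.cast_nonneg _
    linarith
  filter_upwards [main h z hz, h1, h2, ae_lt h] with ω w1 w2 w3 w4
  obtain ⟨S, hS, hr⟩ := w1
  have hD : ∀ k : ℕ, ∃ K : ℝ, 1 ≤ K ∧ ∀ᶠ n : ℕ in atTop,
      |Real.log (S n) - Real.log (sg (fun p => a p ω) n (U K n))| ≤ 3 / ((k : ℝ) + 1) := by
    intro k
    have hk0 : (0 : ℝ) ≤ k := Nat.cast_nonneg _
    have hK : 1 ≤ 8 / (1 / ((k : ℝ) + 1)) ^ 2 := by
      rw [le_div_iff₀ (by positivity), one_mul]
      have h3 : 1 / ((k : ℝ) + 1) ≤ 1 := by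
        rw [div_le_one (by positivity)]
        linarith
      have h4 : 0 ≤ 1 / ((k : ℝ) + 1) := by positivity
      nlinarith
    refine ⟨8 / (1 / ((k : ℝ) + 1)) ^ 2, hK, ?_⟩
    have := cmpU (fun p => a p ω) w2 S (fun n => (hS n).2) _ hK (1 / ((k : ℝ) + 1)) (by positivity) (w3 k)
    have e : 3 * (1 / ((k : ℝ) + 1)) = 3 / ((k : ℝ) + 1) := by ring
    rwa [e] at this
  refine ⟨S, hS, hr, fun ε hε => ⟨?_, ?_, ?_⟩⟩
  · filter_upwards [lo1 (fun p => a p ω) _ S c₂ hc0 hc (fun n => (hS n).1) hr hD ε hε,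
      up1 (fun p => a p ω) _ S (fun n => (hS n).1) hr hD ε hε] with n h3 h4
    exact ⟨h3, h4⟩
  · exact lo2 (fun p => a p ω) _ S c₂ hc0 hc (fun n => (hS n).1) hr hD ε hε
  · exact up2 (fun p => a p ω) _ S c₂ hc0 hc (fun n => (hS n).1) hr hD ε hε

end Pool.Agent.H559.BS
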