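import Pool.Agent.H559.BS.Conc
import Pool.Graph.R_pool_sql_team_seeded_707910d6.T2H32.GB.FLg

set_option autoImplicit false

/-! # The number of the `m ≤ y` for which `n - m ^ 2` survives the random sieve -/

open Finset MeasureTheory ProbabilityTheory
open Pool.Agent.T2H32.BF (Model prob cond)

namespace Pool.Agent.H559.BS

variable {Ω : Type*} [MeasurableSpace Ω] {P : Measure Ω} {a : ℕ → Ω → ℕ}

/-- the `m` in `[1, y]` for which `n - m ^ 2` is in none of the classes `b p mod p`, `p ≤ Z` -/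
def SS (b : ℕ → ℕ) (n y Z : ℕ) : Finset ℕ :=
  (Ioc 0 y).filter (fun m => ∀ p ≤ Z, p.Prime → (n - m ^ 2) % p ≠ b p)

/-- the roots of `r ^ 2 + b p = n` modulo `p` -/
def Om (b : ℕ → ℕ) (n p : ℕ) : Finset ℕ := (range p).filter (fun r => (r ^ 2 + b p) % p = n % p)

theorem sq_roots (p c : ℕ) (hp : p.Prime) : ((range p).filter (fun r => (r ^ 2) % p = c % p)).card ≤ 2 := by
  have := Fact.mk hp
  have h1 : ((range p).filter (fun r => (r ^ 2) % p = c % p)).card ≤
      ((Polynomial.nthRoots 2 (c : ZMod p)).toFinset).card := by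
    refine card_le_card_of_injOn (fun r : ℕ => (r : ZMod p)) ?_ ?_
    · intro r hr
      rw [mem_coe, mem_filter] at hr
      rw [mem_coe, Multiset.mem_toFinset, Polynomial.mem_nthRoots (by norm_num)]
      have h2 := (ZMod.natCast_eq_natCast_iff' (r ^ 2) c p).2 hr.2
      push_cast at h2
      exact h2
    · intro r hr s hs hrs
      rw [mem_coe, mem_filter, mem_range] at hr hs
      have h2 := (ZMod.natCast_eq_natCast_iff' r s p).1 hrs
      rwa [Nat.mod_eq_of_lt hr.1, Nat.mod_eq_of_lt hs.1] at h2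
  exact h1.trans ((Multiset.toFinset_card_le _).trans (Polynomial.card_nthRoots 2 _))

/-- the class of `n - m²` -/
theorem class_iff (n m p c : ℕ) (hm : m ^ 2 ≤ n) (hc : c < p) :
    (n - m ^ 2) % p = c ↔ (m ^ 2 + c) % p = n % p := by
  have h1 : n = (n - m ^ 2) + m ^ 2 := by omega
  constructor
  · intro h
    have h2 : (m ^ 2 + c) ≡ (m ^ 2 + (n - m ^ 2)) [MOD p] := by
      refine Nat.ModEq.add_left _ ?_
      unfold Nat.ModEq
      rw [h, Nat.mod_eq_of_lt hc]
    have h3 : m ^ 2 + (n - m ^ 2) = n := by omega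
    rw [h3] at h2
    exact h2
  · intro h
    have h2 : (m ^ 2 + c) ≡ (m ^ 2 + (n - m ^ 2)) [MOD p] := by
      unfold Nat.ModEq
      rw [h, Nat.add_comm (m ^ 2), ← h1]
    have h3 := Nat.ModEq.add_left_cancel' _ h2
    unfold Nat.ModEq at h3
    rw [Nat.mod_eq_of_lt hc] at h3
    exact h3.symm

theorem Om_card (b : ℕ → ℕ) (n p : ℕ) (hp : p.Prime) : (Om b n p).card ≤ 2 := by
  obtain ⟨c, hc⟩ : ∃ c : ℕ, (c + b p) % p = n % p := by
    refine ⟨n + (p * b p - b p), ?_⟩
    have h1 : b p ≤ p * b p := Nat.le_mul_of_pos_left _ hp.pos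
    have h2 : n + (p * b p - b p) + b p = n + p * b p := by omega
    rw [h2, Nat.add_mul_mod_self_left]
  refine le_trans (card_le_card ?_) (sq_roots p c hp)
  intro r hr
  unfold Om at hr
  rw [mem_filter] at hr ⊢
  refine ⟨hr.1, ?_⟩
  have h3 : (r ^ 2 + b p) ≡ (c + b p) [MOD p] := hr.2.trans hc.symm
  exact Nat.ModEq.add_right_cancel' _ h3

theorem SS_eq (b : ℕ → ℕ) (hb : ∀ p, p.Prime → b p < p) (n y Z : ℕ) (hy : y ^ 2 ≤ n) :
    SS b n y Z = (Ioc 0 (0 + y)).filter (fun m => ∀ p ≤ Z, p.Prime → m % p ∉ Om b n p) := by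
  unfold SS
  rw [zero_add]
  refine filter_congr fun m hm => ?_
  rw [mem_Ioc] at hm
  have hm2 : m ^ 2 ≤ n := (Nat.pow_le_pow_left hm.2 2).trans hy
  refine forall₃_congr fun p _ hp => ?_
  rw [not_iff_not, class_iff n m p (b p) hm2 (hb p hp)]
  unfold Om
  rw [mem_filter, mem_range]
  have h1 : (m ^ 2 + b p) % p = ((m % p) ^ 2 + b p) % p := by
    rw [Nat.add_mod, Nat.pow_mod, ← Nat.add_mod]
  rw [h1]
  exact ⟨fun h => ⟨Nat.mod_lt _ hp.pos, h⟩, fun h => h.2⟩

/-- the number of `m ≤ y` with `n - m²` in a given class -/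
theorem class_count (n y p r : ℕ) (hp : p.Prime) (hy : y ^ 2 ≤ n) :
    (((Ioc 0 y).filter (fun m => (n - m ^ 2) % p = r)).card : ℝ) ≤ 2 * (y / p + 1) := by
  rcases lt_or_ge r p with hr | hr
  · have e : (Ioc 0 y).filter (fun m => (n - m ^ 2) % p = r) ⊆
        (Om (fun _ => r) n p).biUnion (fun s => (Ioc 0 (0 + y)).filter (fun m => m ≡ s [MOD p])) := by
      intro m hm
      rw [mem_filter, mem_Ioc] at hm
      rw [mem_biUnion]
      refine ⟨m % p, ?_, ?_⟩
      · unfold Om
        rw [mem_filter, mem_range]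
        refine ⟨Nat.mod_lt _ hp.pos, ?_⟩
        have h1 := (class_iff n m p r ((Nat.pow_le_pow_left hm.1.2 2).trans hy) hr).1 hm.2
        rw [← h1, Nat.add_mod, ← Nat.pow_mod, ← Nat.add_mod]
      · rw [mem_filter, mem_Ioc]
        exact ⟨⟨hm.1.1, by omega⟩, (Nat.mod_modEq m p).symm⟩
    have h2 := card_le_card e
    have h3 : ((Om (fun _ => r) n p).biUnion (fun s => (Ioc 0 (0 + y)).filter (fun m => m ≡ s [MOD p]))).card ≤
        ∑ s ∈ Om (fun _ => r) n p, ((Ioc 0 (0 + y)).filter (fun m => m ≡ s [MOD p])).card := card_biUnion_le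
    have h4 : (((Ioc 0 y).filter (fun m => (n - m ^ 2) % p = r)).card : ℝ) ≤
        ∑ s ∈ Om (fun _ => r) n p, (((Ioc 0 (0 + y)).filter (fun m => m ≡ s [MOD p])).card : ℝ) := by
      exact_mod_cast h2.trans h3
    refine h4.trans ?_
    have h5 : ∀ s ∈ Om (fun _ => r) n p, (((Ioc 0 (0 + y)).filter (fun m => m ≡ s [MOD p])).card : ℝ) ≤ y / p + 1 := by
      intro s _
      have := (abs_le.1 (Pool.Agent.T2H32.GM.cls p hp.pos s 0 y)).2
      linarith
    refine (sum_le_sum h5).trans ?_
    rw [sum_const, nsmul_eq_mul]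
    have h6 : ((Om (fun _ => r) n p).card : ℝ) ≤ 2 := by exact_mod_cast Om_card _ n p hp
    have h7 : (0 : ℝ) ≤ y / p + 1 := by positivity
    exact mul_le_mul_of_nonneg_right h6 h7
  · have e : (Ioc 0 y).filter (fun m => (n - m ^ 2) % p = r) = ∅ := by
      refine filter_eq_empty_iff.2 fun m _ h => ?_
      have := Nat.mod_lt (n - m ^ 2) hp.pos
      omega
    rw [e]
    simp only [card_empty, Nat.cast_zero]
    positivity

theorem inj_sq (n y : ℕ) (hy : y ^ 2 ≤ n) (s : Finset ℕ) (hs : s ⊆ Ioc 0 y) :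
    Set.InjOn (fun m => n - m ^ 2) (s : Set ℕ) := by
  intro m hm m' hm' h
  have h1 := mem_Ioc.1 (hs hm)
  have h2 := mem_Ioc.1 (hs hm')
  have h3 : m ^ 2 ≤ n := (Nat.pow_le_pow_left h1.2 2).trans hy
  have h4 : m' ^ 2 ≤ n := (Nat.pow_le_pow_left h2.2 2).trans hy
  have h5 : m ^ 2 = m' ^ 2 := by
    simp only at h
    omega
  exact Nat.pow_left_injective (by norm_num : 2 ≠ 0) h5

/-- **The random part of the sieve.** -/
theorem block (h : Model P a) (n y T Z : ℕ) (hy : y ^ 2 ≤ n) (hT : 0 < T) (θ lam : ℝ) (hθ : 0 ≤ θ)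
    (hθc : θ * (2 * (y / T + 1)) ≤ 1) :
    P.real {ω | lam ≤ |((SS (fun i => a i ω) n y Z).card : ℝ) -
      (SS (fun i => a i ω) n y T).card * ∏ p ∈ (Ioc T Z).filter Nat.Prime, (1 - 1 / (p : ℝ))| ∧ T ≤ Z} ≤
      2 * Real.exp (-(θ * lam) + θ ^ 2 * (y * ∑ p ∈ (Ioc T Z).filter Nat.Prime, (2 * (y / T + 1)) / (p : ℝ))) := by
  have := prob h
  set L := (Ioc T Z).filter Nat.Prime with hL
  set W := ∏ p ∈ L, (1 - 1 / (p : ℝ)) with hW
  have hTr : (0 : ℝ) < T := by exact_mod_cast hT
  refine cond h ((range (T + 1)).filter Nat.Prime) L ?_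
    (fun b => lam ≤ |((SS b n y Z).card : ℝ) - (SS b n y T).card * W| ∧ T ≤ Z) ?_ _ (by positivity) ?_
  · rw [disjoint_left]
    intro p hp hp'
    rw [mem_filter, mem_range] at hp
    rw [hL, mem_filter, mem_Ioc] at hp'
    omega
  · intro b b' hbb
    refine and_congr_left fun hTZ => ?_
    have e : ∀ X, X ≤ Z → SS b n y X = SS b' n y X := by
      intro X hX
      unfold SS
      refine filter_congr fun m _ => forall₃_congr fun p hp hpp => ?_
      rw [hbb p ?_]
      rw [mem_union, hL, mem_filter, mem_filter, mem_range, mem_Ioc]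
      by_cases h1 : p < T + 1
      · exact Or.inl ⟨h1, hpp⟩
      · exact Or.inr ⟨⟨by omega, by omega⟩, hpp⟩
    rw [e Z le_rfl, e T hTZ]
  · intro α
    by_cases hTZ : T ≤ Z
    swap
    · have : {ω | lam ≤ |((SS (fun i => if i ∈ (range (T + 1)).filter Nat.Prime then α i else a i ω) n y Z).card : ℝ) -
          (SS (fun i => if i ∈ (range (T + 1)).filter Nat.Prime then α i else a i ω) n y T).card * W| ∧ T ≤ Z} = ∅ := by
        ext ω
        simp [hTZ]
      rw [this]
      simp only [measureReal_empty]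
      positivity
    set A : Finset ℕ := (SS α n y T).image (fun m => n - m ^ 2) with hA
    have hsub : SS α n y T ⊆ Ioc 0 y := filter_subset _ _
    have hAc : A.card = (SS α n y T).card := card_image_of_injOn (inj_sq n y hy _ hsub)
    have hAy : (A.card : ℝ) ≤ y := by
      rw [hAc]
      have := card_le_card hsub
      rw [Nat.card_Ioc] at this
      exact_mod_cast this
    have hcl : ∀ p ∈ L, ∀ r, ((A.filter (fun u => u % p = r)).card : ℝ) ≤ 2 * (y / T + 1) := by
      intro p hp r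
      rw [hL, mem_filter, mem_Ioc] at hp
      have h1 : (A.filter (fun u => u % p = r)).card ≤ ((Ioc 0 y).filter (fun m => (n - m ^ 2) % p = r)).card := by
        have e : A.filter (fun u => u % p = r) ⊆
            ((Ioc 0 y).filter (fun m => (n - m ^ 2) % p = r)).image (fun m => n - m ^ 2) := by
          intro u hu
          rw [mem_filter, hA, mem_image] at hu
          obtain ⟨⟨m, hm, rfl⟩, h2⟩ := hu
          rw [mem_image]
          exact ⟨m, mem_filter.2 ⟨hsub hm, h2⟩, rfl⟩
        exact (card_le_card e).trans card_image_le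
      have h2 := class_count n y p r hp.2 hy
      have h3 : (T : ℝ) ≤ p := by exact_mod_cast hp.1.1.le
      have h4 : (y : ℝ) / p ≤ y / T := by gcongr
      have h5 : ((A.filter (fun u => u % p = r)).card : ℝ) ≤
        (((Ioc 0 y).filter (fun m => (n - m ^ 2) % p = r)).card : ℝ) := by exact_mod_cast h1
      linarith
    have hmain := conc h L A (fun p hp => (mem_filter.1 hp).2) (2 * (y / T + 1)) θ hθ hcl hθc lam
    have e1 : ∀ ω, (SS (fun i => if i ∈ (range (T + 1)).filter Nat.Prime then α i else a i ω) n y T) = SS α n y T := by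
      intro ω
      unfold SS
      refine filter_congr fun m _ => forall₃_congr fun p hp hpp => ?_
      have h9 : p ∈ (range (T + 1)).filter Nat.Prime := mem_filter.2 ⟨mem_range.2 (by omega), hpp⟩
      simp only [h9, if_true]
    have e2 : ∀ ω, (SS (fun i => if i ∈ (range (T + 1)).filter Nat.Prime then α i else a i ω) n y Z).card =
        (surv (fun i => a i ω) L A).card := by
      intro ω
      have e3 : (SS (fun i => if i ∈ (range (T + 1)).filter Nat.Prime then α i else a i ω) n y Z) =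
          (SS α n y T).filter (fun m => ∀ p ∈ L, (n - m ^ 2) % p ≠ a p ω) := by
        ext m
        unfold SS
        simp only [mem_filter, mem_range, hL]
        constructor
        · rintro ⟨h1, h2⟩
          refine ⟨⟨h1, fun p hp hpp => ?_⟩, fun p hp => ?_⟩
          · have := h2 p (hp.trans hTZ) hpp
            rwa [if_pos ⟨by omega, hpp⟩] at this
          · rw [mem_Ioc] at hp
            have := h2 p hp.1.2 hp.2
            rwa [if_neg (by omega)] at this
        · rintro ⟨⟨h1, h2⟩, h3⟩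
          refine ⟨h1, fun p hp hpp => ?_⟩
          by_cases h4 : p < T + 1
          · rw [if_pos ⟨h4, hpp⟩]
            exact h2 p (by omega) hpp
          · rw [if_neg (by tauto)]
            exact h3 p ⟨mem_Ioc.2 ⟨by omega, hp⟩, hpp⟩
      rw [e3]
      have e4 : surv (fun i => a i ω) L A =
          ((SS α n y T).filter (fun m => ∀ p ∈ L, (n - m ^ 2) % p ≠ a p ω)).image (fun m => n - m ^ 2) := by
        unfold surv
        rw [hA, filter_image]
      rw [e4, card_image_of_injOn (inj_sq n y hy _ ((filter_subset _ _).trans hsub))]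
    have e5 : {ω | lam ≤ |((SS (fun i => if i ∈ (range (T + 1)).filter Nat.Prime then α i else a i ω) n y Z).card : ℝ) -
          (SS (fun i => if i ∈ (range (T + 1)).filter Nat.Prime then α i else a i ω) n y T).card * W| ∧ T ≤ Z} =
        {ω | lam ≤ |((surv (fun i => a i ω) L A).card : ℝ) - A.card * ∏ p ∈ L, (1 - 1 / (p : ℝ))|} := by
      ext ω
      simp only [Set.mem_ofPred_eq, hTZ, and_true]
      rw [e1, e2, hAc]
    rw [e5]
    refine hmain.trans ?_
    have h6 : 0 ≤ ∑ p ∈ L, (2 * (y / T + 1)) / (p : ℝ) := sum_nonneg fun p _ => by positivity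
    have h7 : θ ^ 2 * (A.card * ∑ p ∈ L, (2 * (y / T + 1)) / (p : ℝ)) ≤
        θ ^ 2 * (y * ∑ p ∈ L, (2 * (y / T + 1)) / (p : ℝ)) :=
      mul_le_mul_of_nonneg_left (mul_le_mul_of_nonneg_right hAy h6) (sq_nonneg θ)
    have h8 := Real.exp_le_exp.2 (add_le_add_right h7 (-(θ * lam)))
    linarith

end Pool.Agent.H559.BS
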