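import Pool.Agent.H559.BS.Det

set_option autoImplicit false

/-! # Assembly -/

open Finset MeasureTheory ProbabilityTheory Filter Topology
open Pool.Agent.T2H32.BF (V V_pos V_anti V_ratio mertens Model prob)

namespace Pool.Agent.H559.BS

variable {Ω : Type*} [MeasurableSpace Ω] {P : Measure Ω} {a : ℕ → Ω → ℕ}

theorem bc [IsProbabilityMeasure P] (Bad : ℕ → Set Ω) (C : ℝ) (hC : 0 ≤ C)
    (hev : ∀ᶠ u : ℕ in atTop, P.real (Bad u) ≤ C / (u : ℝ) ^ 2) : ∀ᵐ ω ∂P, ∀ᶠ u in atTop, ω ∉ Bad u := by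
  have hsum : ∑' u, P (Bad u) ≠ ⊤ := by
    obtain ⟨N, hN⟩ := eventually_atTop.1 hev
    have h1 : ∀ u, P (Bad u) ≤ ENNReal.ofReal (if u < N then 1 else C / (u : ℝ) ^ 2) := by
      intro u
      rw [← ENNReal.ofReal_toReal (measure_ne_top P (Bad u))]
      refine ENNReal.ofReal_le_ofReal ?_
      split_ifs with h2
      · exact measureReal_le_one
      · exact hN u (by omega)
    have h2 : Summable (fun u : ℕ => if u < N then (1 : ℝ) else C / (u : ℝ) ^ 2) := by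
      have h3 : Summable (fun u : ℕ => C / (u : ℝ) ^ 2) := by
        have := (Real.summable_one_div_nat_pow.2 (show 1 < 2 by norm_num)).mul_left C
        refine this.congr fun u => by ring
      refine (summable_congr_cofinite ?_).1 h3
      rw [Filter.EventuallyEq, Nat.cofinite_eq_atTop]
      filter_upwards [eventually_ge_atTop N] with u hu
      rw [if_neg (by omega)]
    refine ne_top_of_le_ne_top ?_ (ENNReal.tsum_le_tsum h1)
    rw [← ENNReal.ofReal_tsum_of_nonneg (fun u => by split_ifs <;> positivity) h2]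
    exact ENNReal.ofReal_ne_top
  exact ae_eventually_notMem hsum

theorem log_top : Tendsto (fun n : ℕ => Real.log n) atTop atTop :=
  Real.tendsto_log_atTop.comp tendsto_natCast_atTop_atTop

theorem TT_top (δ : ℝ) (hδ : 0 < δ) : Tendsto (fun n => TT δ n) atTop atTop := by
  have h1 : Tendsto (fun n : ℕ => (n : ℝ) ^ δ) atTop atTop := (tendsto_rpow_atTop hδ).comp tendsto_natCast_atTop_atTop
  exact tendsto_nat_floor_atTop.comp h1

theorem log_TT (δ : ℝ) (hδ : 0 < δ) : ∀ᶠ n : ℕ in atTop, δ * Real.log n - Real.log 2 ≤ Real.log (TT δ n) ∧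
    Real.log (TT δ n) ≤ δ * Real.log n := by
  filter_upwards [TT_ge δ hδ, eventually_ge_atTop 1] with n hn hn1
  have h0 : (0 : ℝ) < n := by exact_mod_cast hn1
  have h1 : (1 : ℝ) ≤ TT δ n := by exact_mod_cast hn.2
  have h2 : (0 : ℝ) < (n : ℝ) ^ δ := by positivity
  rw [← Real.log_rpow h0]
  constructor
  · rw [← Real.log_div h2.ne' (by norm_num)]
    exact Real.log_le_log (by positivity) hn.1
  · exact Real.log_le_log (by linarith) (TT_le δ n)

/-- `e^(-γ)` -/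
noncomputable def g : ℝ := Real.exp (-Real.eulerMascheroniConstant)

theorem g_pos : 0 < g := Real.exp_pos _

theorem V_TT (δ : ℝ) (hδ : 0 < δ) : ∀ᶠ n : ℕ in atTop, V (TT δ n) * Real.log n ≤ 4 * g / δ ∧
    g / (2 * δ) ≤ V (TT δ n) * Real.log n := by
  have h1 : Tendsto (fun n => V (TT δ n) * Real.log (TT δ n)) atTop (𝓝 g) := mertens.comp (TT_top δ hδ)
  have hg := g_pos
  filter_upwards [h1.eventually_lt_const (show g < 2 * g by linarith),
    h1.eventually_const_lt (show g / 2 < g by linarith), log_TT δ hδ,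
    log_top.eventually_ge_atTop (2 * Real.log 2 / δ)] with n h2 h3 h4 h5
  have hV := V_pos (TT δ n)
  rw [div_le_iff₀ hδ] at h5
  constructor
  · rw [le_div_iff₀ hδ]
    have h6 : δ / 2 * Real.log n ≤ Real.log (TT δ n) := by linarith [h4.1]
    have h7 := mul_le_mul_of_nonneg_left h6 hV.le
    nlinarith
  · rw [div_le_iff₀ (by positivity)]
    have h7 := mul_le_mul_of_nonneg_left h4.2 hV.le
    nlinarith

theorem TT_le_w (δ : ℝ) (hδ : 0 < δ) (hδg : 4 * δ < g) (w : ℕ → ℕ) (hw : ∀ᶠ n : ℕ in atTop, V (w n) * Real.log n ≤ 2) :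
    ∀ᶠ n : ℕ in atTop, TT δ n ≤ w n := by
  filter_upwards [V_TT δ hδ, hw, log_top.eventually_ge_atTop 1] with n h1 h2 h3
  by_contra hcon
  rw [not_le] at hcon
  have h4 : V (TT δ n) ≤ V (w n) := V_anti hcon.le
  have h5 : 2 < g / (2 * δ) := by
    rw [lt_div_iff₀ (by positivity)]
    linarith
  have h6 := mul_le_mul_of_nonneg_right h4 (show 0 ≤ Real.log n by linarith)
  linarith [h1.2]

theorem V_z_zero (z : ℕ → ℕ) (hz : Limit z) : Tendsto (fun k => V (z k)) atTop (𝓝 0) := by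
  have h1 : Tendsto (fun k => (V (z k) * Real.log k) / Real.log k) atTop (𝓝 0) := hz.2.div_atTop log_top
  refine h1.congr' ?_
  filter_upwards [log_top.eventually_ge_atTop 1] with n h3
  field_simp

theorem z_div (z : ℕ → ℕ) (hz : Limit z) (J : ℕ) (hJ : 1 ≤ J) :
    Tendsto (fun n : ℕ => V (z (n / J)) * Real.log n) atTop (𝓝 1) := by
  have hd : Tendsto (fun n : ℕ => n / J) atTop atTop := Nat.tendsto_div_const_atTop (by omega)
  have h1 := hz.2.comp hd
  have h2 := ((V_z_zero z hz).comp hd).mul_const (Real.log (2 * J))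
  rw [zero_mul] at h2
  have h3 : Tendsto (fun n : ℕ => V (z (n / J)) * (Real.log n - Real.log ((n / J : ℕ) : ℝ))) atTop (𝓝 0) := by
    refine squeeze_zero' ?_ ?_ h2
    · filter_upwards [eventually_ge_atTop J] with n hn
      have hV := V_pos (z (n / J))
      have h4 : 1 ≤ n / J := (Nat.one_le_div_iff (by omega)).2 hn
      have h5 : Real.log ((n / J : ℕ) : ℝ) ≤ Real.log n := by
        refine Real.log_le_log (by exact_mod_cast h4) ?_
        exact_mod_cast Nat.div_le_self n J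
      exact mul_nonneg hV.le (by linarith)
    · filter_upwards [eventually_ge_atTop J] with n hn
      have hV := V_pos (z (n / J))
      have h4 : 1 ≤ n / J := (Nat.one_le_div_iff (by omega)).2 hn
      have hJ0 : (0 : ℝ) < J := by exact_mod_cast hJ
      have h5 : (n : ℝ) ≤ (n / J : ℕ) * (2 * J) := by
        have h6 : n < J * (n / J) + J := by
          have h7 := Nat.div_add_mod n J
          have h8 := Nat.mod_lt n (show 0 < J by omega)
          omega
        have h7 : J * 1 ≤ J * (n / J) := Nat.mul_le_mul_left _ h4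
        have h8 : n ≤ (n / J) * (2 * J) := by
          have : (n / J) * (2 * J) = J * (n / J) + J * (n / J) := by ring
          omega
        exact_mod_cast h8
      have h6 : Real.log n ≤ Real.log ((n / J : ℕ) : ℝ) + Real.log (2 * J) := by
        rw [← Real.log_mul (by positivity) (by positivity)]
        exact Real.log_le_log (by exact_mod_cast (show 0 < n by omega)) h5
      exact mul_le_mul_of_nonneg_left (by linarith) hV.le
  have h4 := h1.add h3
  rw [add_zero] at h4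
  refine h4.congr fun n => ?_
  simp only [Function.comp_apply]
  ring

theorem z_pow (z : ℕ → ℕ) (hz : Limit z) :
    ∀ᶠ n : ℕ in atTop, V (z ⌊(n : ℝ) ^ (3 / 4 : ℝ)⌋₊) * Real.log n ≤ 2 := by
  have h1 := hz.2.comp (TT_top (3 / 4) (by norm_num))
  filter_upwards [h1.eventually_lt_const (show (1 : ℝ) < 6 / 5 by norm_num), log_TT (3 / 4) (by norm_num),
    log_top.eventually_ge_atTop 10] with n h2 h3 h4
  simp only [Function.comp_apply] at h2
  have h6 : ⌊(n : ℝ) ^ (3 / 4 : ℝ)⌋₊ = TT (3 / 4) n := rfl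
  rw [h6]
  have hV := V_pos (z (TT (3 / 4) n))
  have h5 : Real.log 2 ≤ 1 := by
    have := Real.log_two_lt_d9
    linarith
  have h7 : 3 / 5 * Real.log n ≤ Real.log (TT (3 / 4) n) := by linarith [h3.1]
  have h8 := mul_le_mul_of_nonneg_left h7 hV.le
  linarith

theorem E1_ev (δ c K e : ℝ) (hδ : 0 < δ) (hc : 0 < c) (hK : 0 < K) (he : 0 < e) (B : ℕ) (hδB : δ * B ≤ 1 / 8) :
    ∀ᶠ n : ℕ in atTop, K * ((TT δ n : ℝ) + 1) ^ B + ((n : ℝ) ^ (1 / 4 : ℝ) + 1) ≤
      (e / 2) * ((c / 2) * (√n / Real.log n ^ 2)) := by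
  filter_upwards [log_pow_le 2 (1 / 4) ((K * 2 ^ B + 2) / (e / 2 * (c / 2))) (by norm_num),
    log_top.eventually_ge_atTop 1, eventually_ge_atTop 1] with n h1 h2 hn
  have hn1 : (1 : ℝ) ≤ n := by exact_mod_cast hn
  have hn0 : (0 : ℝ) < n := by linarith
  have hq : (1 : ℝ) ≤ (n : ℝ) ^ (1 / 4 : ℝ) := Real.one_le_rpow hn1 (by norm_num)
  have hδ1 : (1 : ℝ) ≤ (n : ℝ) ^ δ := Real.one_le_rpow hn1 hδ.le
  have h3 : K * ((TT δ n : ℝ) + 1) ^ B ≤ K * 2 ^ B * (n : ℝ) ^ (1 / 4 : ℝ) := by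
    have h4 : (TT δ n : ℝ) + 1 ≤ 2 * (n : ℝ) ^ δ := by linarith [TT_le δ n]
    calc K * ((TT δ n : ℝ) + 1) ^ B ≤ K * (2 * (n : ℝ) ^ δ) ^ B := by gcongr
      _ = K * 2 ^ B * (n : ℝ) ^ (δ * B) := by
          rw [mul_pow, Real.rpow_mul hn0.le, Real.rpow_natCast]
          ring
      _ ≤ _ := by
          gcongr
          linarith
  have h5 : K * ((TT δ n : ℝ) + 1) ^ B + ((n : ℝ) ^ (1 / 4 : ℝ) + 1) ≤ (K * 2 ^ B + 2) * (n : ℝ) ^ (1 / 4 : ℝ) := by
    linarith
  refine h5.trans ?_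
  have h6 : (K * 2 ^ B + 2) * Real.log n ^ 2 ≤ (n : ℝ) ^ (1 / 4 : ℝ) * (e / 2 * (c / 2)) := by
    rw [div_mul_eq_mul_div, div_le_iff₀ (by positivity)] at h1
    exact h1
  have h7 : (n : ℝ) ^ (1 / 4 : ℝ) * (n : ℝ) ^ (1 / 4 : ℝ) = √n := by
    rw [← Real.rpow_add hn0, Real.sqrt_eq_rpow]
    norm_num
  have h8 : (e / 2) * ((c / 2) * (√n / Real.log n ^ 2)) = (e / 2 * (c / 2)) * √n / Real.log n ^ 2 := by ring
  rw [h8, le_div_iff₀ (by positivity), ← h7]
  calc (K * 2 ^ B + 2) * (n : ℝ) ^ (1 / 4 : ℝ) * Real.log n ^ 2 = ((K * 2 ^ B + 2) * Real.log n ^ 2) * (n : ℝ) ^ (1 / 4 : ℝ) := by ring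
    _ ≤ ((n : ℝ) ^ (1 / 4 : ℝ) * (e / 2 * (c / 2))) * (n : ℝ) ^ (1 / 4 : ℝ) := by gcongr
    _ = _ := by ring

theorem facts_ev (z : ℕ → ℕ) (hz : Limit z) (e δ : ℝ) (he : 0 < e) (hδ : 0 < δ) (hδg : 4 * δ < g)
    (J B : ℕ) (hJ : 1 ≤ J) (K : ℝ) (hK : 0 < K) (hδB : δ * B ≤ 1 / 8) :
    ∀ᶠ n : ℕ in atTop, Facts z e δ (4 * g / δ) (g / (2 * δ)) J B K n := by
  have hg := g_pos
  have hJ0 : (0 : ℝ) < J := by exact_mod_cast hJ
  have hzJ := z_div z hz J hJ
  have hsq : Tendsto (fun n : ℕ => √(n : ℝ)) atTop atTop := Real.tendsto_sqrt_atTop.comp tendsto_natCast_atTop_atTop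
  have w1 : ∀ᶠ n : ℕ in atTop, TT δ n ≤ z (n / J) := by
    refine TT_le_w δ hδ hδg _ ?_
    filter_upwards [hzJ.eventually_lt_const (show (1 : ℝ) < 2 by norm_num)] with n hn using hn.le
  have w2 : ∀ᶠ n : ℕ in atTop, TT δ n ≤ z n := by
    refine TT_le_w δ hδ hδg _ ?_
    filter_upwards [hz.2.eventually_lt_const (show (1 : ℝ) < 2 by norm_num)] with n hn using hn.le
  have w3 : ∀ᶠ n : ℕ in atTop, TT δ n ≤ z ⌊(n : ℝ) ^ (3 / 4 : ℝ)⌋₊ := TT_le_w δ hδ hδg _ (z_pow z hz)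
  have v1 : ∀ᶠ n : ℕ in atTop, |V (z n) * Real.log n - 1| ≤ e := by
    have := (tendsto_iff_norm_sub_tendsto_zero.1 hz.2).eventually_lt_const he
    filter_upwards [this] with n hn
    rw [Real.norm_eq_abs] at hn
    exact hn.le
  have v2 : ∀ᶠ n : ℕ in atTop, |V (z (n / J)) * Real.log n - 1| ≤ e := by
    have := (tendsto_iff_norm_sub_tendsto_zero.1 hzJ).eventually_lt_const he
    filter_upwards [this] with n hn
    rw [Real.norm_eq_abs] at hn
    exact hn.le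
  filter_upwards [w1, w2, w3, v1, v2, V_TT δ hδ, E1_ev δ (g / (2 * δ)) K e hδ (by positivity) hK he B hδB,
    eventually_ge_atTop (3 * J), log_top.eventually_ge_atTop (4 / (g / (2 * δ))), log_top.eventually_ge_atTop 1,
    TT_ge δ hδ, hsq.eventually_ge_atTop (J : ℝ)] with n a1 a2 a3 a4 a5 a6 a7 a8 a9 a10 a11 a12
  refine ⟨a8, a9, a10, a11.2, a4, a5, a6.1, a6.2, a1, a2, a3, a7, ?_⟩
  rw [one_div_mul_eq_div, le_div_iff₀ hJ0]
  linarith

theorem main_eps (h : Model P a) (z : ℕ → ℕ) (hz : Limit z) (e : ℝ) (he : 0 < e) (he1 : e ≤ 1 / 4) :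
    ∃ δ : ℝ, 0 < δ ∧ ∀ᵐ ω ∂P, ∀ᶠ n : ℕ in atTop,
      |(reps (R z (fun p => a p ω)) n : ℝ) - sg (fun p => a p ω) n (TT δ n) * (√n / Real.log n)| ≤
        6 * e * (sg (fun p => a p ω) n (TT δ n) * (√n / Real.log n)) := by
  have hprob := prob h
  obtain ⟨B, K, hK, hfl⟩ := flgS e he
  have hg := g_pos
  set δ : ℝ := min (1 / (8 * ((B : ℝ) + 1))) (g / 8) with hδd
  have hB0 : (0 : ℝ) ≤ B := Nat.cast_nonneg _
  have hδ : 0 < δ := lt_min (by positivity) (by positivity)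
  have hδ1 : δ ≤ 1 / (8 * ((B : ℝ) + 1)) := min_le_left _ _
  have hδ2 : δ ≤ g / 8 := min_le_right _ _
  have hδ3 : δ ≤ 1 / 2 := by
    refine hδ1.trans ?_
    gcongr
    linarith
  have hδB : δ * B ≤ 1 / 8 := by
    calc δ * B ≤ 1 / (8 * ((B : ℝ) + 1)) * B := by gcongr
      _ ≤ 1 / 8 := by
          rw [div_mul_eq_mul_div, div_le_div_iff₀ (by positivity) (by norm_num)]
          linarith
  obtain ⟨J, hJ⟩ := exists_nat_ge (max 1 (max (2 / e) (4 * (4 * g / δ) / e)))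
  have hJ1 : (1 : ℝ) ≤ J := (le_max_left _ _).trans hJ
  have hJ2 : 2 / e ≤ (J : ℝ) := ((le_max_left _ _).trans (le_max_right _ _)).trans hJ
  have hJ3 : 4 * (4 * g / δ) / e ≤ (J : ℝ) := ((le_max_right _ _).trans (le_max_right _ _)).trans hJ
  have hJ0 : (0 : ℝ) < J := by linarith
  have hJn : 1 ≤ J := by exact_mod_cast hJ1
  have hF := facts_ev z hz e δ he hδ (by linarith) J B hJn K hK hδB
  refine ⟨δ, hδ, ?_⟩
  have hC : 0 < 2 * (4 * g / δ) := by positivity
  have hP := blockP h δ e (2 * (4 * g / δ)) hδ hδ3 he hC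
  -- the bad events
  set Q : ℕ → ℕ → Set Ω := fun n Z => {ω | e * (√n / Real.log n ^ 3) ≤ |((SS (fun i => a i ω) n (y1 J n) Z).card : ℝ) -
        (SS (fun i => a i ω) n (y1 J n) (TT δ n)).card * ∏ p ∈ (Ioc (TT δ n) Z).filter Nat.Prime, (1 - 1 / (p : ℝ))| ∧
        TT δ n ≤ Z} with hQ
  have hy : ∀ n : ℕ, y1 J n ^ 2 ≤ n := by
    intro n
    have hJ4 : 1 / (J : ℝ) ≤ 1 := by rw [div_le_one hJ0]; exact hJ1
    have h0 : 0 ≤ 1 - 1 / (J : ℝ) := by linarith
    have h1 : (y1 J n : ℝ) ≤ (1 - 1 / (J : ℝ)) * √n := Nat.floor_le (by positivity)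
    have h2 : (y1 J n : ℝ) ≤ √n := by
      have : 0 ≤ 1 / (J : ℝ) * √n := by positivity
      linarith
    have h3 : ((y1 J n ^ 2 : ℕ) : ℝ) ≤ n := by
      push_cast
      calc (y1 J n : ℝ) ^ 2 ≤ √(n : ℝ) ^ 2 := pow_le_pow_left₀ (Nat.cast_nonneg _) h2 2
        _ = n := Real.sq_sqrt (Nat.cast_nonneg _)
    exact_mod_cast h3
  have hBC := bc (P := P) (fun n => Q n (z n) ∪ Q n (z (n / J))) 2 (by norm_num) (by
    filter_upwards [hP, hF] with n h1 h2
    have hL : 0 < Real.log n := by linarith [h2.L0]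
    have hVV : ∀ Z : ℕ, |V Z * Real.log n - 1| ≤ e → V (TT δ n) ≤ 2 * (4 * g / δ) * V Z := by
      intro Z hZ
      have h3 := (abs_le.1 hZ).1
      have h4 : 1 / 2 ≤ V Z * Real.log n := by linarith
      have h5 := h2.VT
      have h6 : 0 < 4 * g / δ := by positivity
      have h7 : V (TT δ n) * Real.log n ≤ 2 * (4 * g / δ) * V Z * Real.log n := by nlinarith
      exact le_of_mul_le_mul_right h7 hL
    have e1 := h1 (y1 J n) (z n) (hy n) (hVV _ h2.V1)
    have e2 := h1 (y1 J n) (z (n / J)) (hy n) (hVV _ h2.V2)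
    calc P.real (Q n (z n) ∪ Q n (z (n / J))) ≤ P.real (Q n (z n)) + P.real (Q n (z (n / J))) := measureReal_union_le _ _
      _ ≤ 1 / (n : ℝ) ^ 2 + 1 / (n : ℝ) ^ 2 := add_le_add e1 e2
      _ = _ := by ring)
  filter_upwards [hBC, ae_lt h] with ω hω hb
  filter_upwards [hω, hF] with n hn hf
  rw [Set.mem_union, not_or] at hn
  obtain ⟨n1, n2⟩ := hn
  refine det z hz.1 e δ (4 * g / δ) (g / (2 * δ)) he he1 (by positivity) J B K hJn ?_ ?_ hfl hK n hf _ hb ?_ ?_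
  · rw [div_le_iff₀ hJ0]
    rw [div_le_iff₀ he] at hJ2
    linarith
  · rw [div_le_iff₀ hJ0]
    rw [div_le_iff₀ he] at hJ3
    linarith
  · by_contra hcon
    exact n1 ⟨(not_le.1 hcon).le, hf.T3⟩
  · by_contra hcon
    exact n2 ⟨(not_le.1 hcon).le, hf.T2⟩

/-- the deduction for a single sample -/
theorem single (b : ℕ → ℕ) (r : ℕ → ℝ)
    (htail : ∀ A : ℕ, ∀ᶠ u : ℕ in atTop, ∀ n ≤ u ^ A, ∀ x ≤ u ^ 2,
      |∑ p ∈ (Ioc u x).filter Nat.Prime, X n p (b p)| ≤ (u : ℝ) ^ (-(1 / 4) : ℝ))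
    (hr : ∀ k : ℕ, ∃ δ : ℝ, 0 < δ ∧ ∀ᶠ n : ℕ in atTop,
      |r n - sg b n (TT δ n) * (√n / Real.log n)| ≤
        6 * (1 / (4 * ((k : ℝ) + 1))) * (sg b n (TT δ n) * (√n / Real.log n))) :
    ∃ S : ℕ → ℝ, (∀ n, 0 < S n ∧ Tendsto (sg b n) atTop (𝓝 (S n))) ∧
      Tendsto (fun n => r n / (S n * (√n / Real.log n))) atTop (𝓝 1) := by
  have hS : ∀ n : ℕ, ∃ S : ℝ, 0 < S ∧ Tendsto (sg b n) atTop (𝓝 S) := by
    intro n
    obtain ⟨U, hU⟩ := eventually_atTop.1 (htail 1)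
    obtain ⟨S, h1, h2, _⟩ := conv b n (max U (max n 16)) (by omega) (fun u hu x hx => hU u (by omega) n (by
      rw [pow_one]
      omega) x hx)
    exact ⟨S, h1, h2⟩
  choose S hS1 hS2 using hS
  refine ⟨S, fun n => ⟨hS1 n, hS2 n⟩, ?_⟩
  -- the comparison of the limit with the truncated product
  have hcmp : ∀ δ : ℝ, 0 < δ → Tendsto (fun n => sg b n (TT δ n) / S n) atTop (𝓝 1) := by
    intro δ hδ
    obtain ⟨A, hA⟩ := exists_nat_ge (2 / δ)
    have h1 : Tendsto (fun n => Real.log (sg b n (TT δ n) / S n)) atTop (𝓝 0) := by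
      have hlim : Tendsto (fun u : ℕ => 2 * (u : ℝ) ^ (-(1 / 4) : ℝ) + 10 / u) atTop (𝓝 0) := by
        have h1 : Tendsto (fun u : ℕ => (u : ℝ) ^ (-(1 / 4) : ℝ)) atTop (𝓝 0) :=
          (tendsto_rpow_neg_atTop (by norm_num)).comp tendsto_natCast_atTop_atTop
        have h2 : Tendsto (fun u : ℕ => (10 : ℝ) / u) atTop (𝓝 0) := tendsto_const_div_atTop_nhds_zero_nat 10
        simpa using (h1.const_mul 2).add h2
      refine squeeze_zero_norm' ?_ (hlim.comp (TT_top δ hδ))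
      obtain ⟨U, hU⟩ := eventually_atTop.1 (htail A)
      have h2 : Tendsto (fun n : ℕ => (n : ℝ) ^ (δ / 2)) atTop atTop :=
        (tendsto_rpow_atTop (by positivity)).comp tendsto_natCast_atTop_atTop
      filter_upwards [(TT_top δ hδ).eventually_ge_atTop (max U 16), TT_ge δ hδ, h2.eventually_ge_atTop 2,
        eventually_ge_atTop 1] with n h3 h4 h5 hn
      have hn0 : (0 : ℝ) < n := by exact_mod_cast hn
      have h6 : n ≤ TT δ n ^ A := by
        have h7 : (n : ℝ) ^ (δ / 2) ≤ TT δ n := by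
          have h8 : (n : ℝ) ^ δ = (n : ℝ) ^ (δ / 2) * (n : ℝ) ^ (δ / 2) := by
            rw [← Real.rpow_add hn0]
            congr 1
            ring
          have := h4.1
          rw [h8] at this
          nlinarith
        have h9 : ((n : ℕ) : ℝ) ≤ ((TT δ n ^ A : ℕ) : ℝ) := by
          push_cast
          calc (n : ℝ) = ((n : ℝ) ^ (δ / 2)) ^ (2 / δ : ℝ) := by
                rw [← Real.rpow_mul hn0.le]
                have : δ / 2 * (2 / δ) = 1 := by field_simp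
                rw [this, Real.rpow_one]
            _ ≤ ((n : ℝ) ^ (δ / 2)) ^ (A : ℝ) := by
                exact Real.rpow_le_rpow_of_exponent_le (by linarith) hA
            _ = ((n : ℝ) ^ (δ / 2)) ^ A := Real.rpow_natCast _ _
            _ ≤ (TT δ n : ℝ) ^ A := by gcongr
        exact_mod_cast h9
      obtain ⟨S', h7, h8, h9⟩ := conv b n (TT δ n) (by omega) (fun u hu x hx => hU u (by omega) n
        (h6.trans (Nat.pow_le_pow_left hu A)) x hx)
      have h10 : S' = S n := tendsto_nhds_unique h8 (hS2 n)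
      rw [h10] at h9
      rw [Real.norm_eq_abs, Real.log_div (sg_pos b n _).ne' (hS1 n).ne', abs_sub_comm]
      exact h9
    have h2 := (Real.continuous_exp.tendsto 0).comp h1
    rw [Real.exp_zero] at h2
    refine h2.congr fun n => ?_
    simp only [Function.comp_apply]
    exact Real.exp_log (div_pos (sg_pos b n _) (hS1 n))
  rw [Metric.tendsto_atTop]
  intro ε hε
  obtain ⟨k, hk⟩ := exists_nat_ge (6 / ε)
  obtain ⟨δ, hδ, hr1⟩ := hr k
  have h1 := (Metric.tendsto_atTop.1 (hcmp δ hδ)) (min (1 / 4) (ε / 4)) (lt_min (by norm_num) (by linarith))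
  obtain ⟨N1, hN1⟩ := h1
  obtain ⟨N2, hN2⟩ := eventually_atTop.1 (hr1.and (log_top.eventually_ge_atTop 1))
  refine ⟨max N1 (max N2 1), fun n hn => ?_⟩
  have h2 := hN1 n (by omega)
  obtain ⟨h3, h4⟩ := hN2 n (by omega)
  have hn1 : (0 : ℝ) < n := by exact_mod_cast (show 0 < n by omega)
  rw [Real.dist_eq] at h2 ⊢
  set M : ℝ := √n / Real.log n with hM
  have hM0 : 0 < M := by
    have : 0 < Real.log n := by linarith
    positivity
  have hSn := hS1 n
  set s := sg b n (TT δ n) with hs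
  have h5 : |s / S n - 1| < 1 / 4 := h2.trans_le (min_le_left _ _)
  have h6 : |s / S n - 1| < ε / 4 := h2.trans_le (min_le_right _ _)
  have h7 : s / S n ≤ 5 / 4 := by linarith [(abs_lt.1 h5).2]
  have h8 : 6 * (1 / (4 * ((k : ℝ) + 1))) ≤ ε / 4 := by
    have hk0 : 0 < (k : ℝ) + 1 := by positivity
    rw [div_le_iff₀ hε] at hk
    have : 6 * (1 / (4 * ((k : ℝ) + 1))) = 6 / (4 * ((k : ℝ) + 1)) := by ring
    rw [this, div_le_div_iff₀ (by positivity) (by norm_num)]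
    nlinarith
  have h9 : |r n / (S n * M) - s / S n| ≤ ε / 4 * (s / S n) := by
    have h10 : r n / (S n * M) - s / S n = (r n - s * M) / (S n * M) := by
      field_simp
    rw [h10, abs_div, abs_of_pos (show 0 < S n * M by positivity), div_le_iff₀ (by positivity)]
    have h11 : ε / 4 * (s / S n) * (S n * M) = ε / 4 * (s * M) := by
      field_simp
    rw [h11]
    have hs0 : 0 < s := sg_pos b n _
    exact h3.trans (mul_le_mul_of_nonneg_right h8 (by positivity))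
  have h12 : |r n / (S n * M) - 1| ≤ |r n / (S n * M) - s / S n| + |s / S n - 1| := abs_sub_le _ _ _
  nlinarith

theorem main (h : Model P a) (z : ℕ → ℕ) (hz : Limit z) :
    ∀ᵐ ω ∂P, ∃ S : ℕ → ℝ, (∀ n, 0 < S n ∧ Tendsto (sg (fun p => a p ω) n) atTop (𝓝 (S n))) ∧
      Tendsto (fun n => (reps (R z (fun p => a p ω)) n : ℝ) / (S n * (√n / Real.log n))) atTop (𝓝 1) := by
  have h1 : ∀ᵐ ω ∂P, ∀ A : ℕ, ∀ᶠ u : ℕ in atTop, ∀ n ≤ u ^ A, ∀ x ≤ u ^ 2,
      |∑ p ∈ (Ioc u x).filter Nat.Prime, X n p (a p ω)| ≤ (u : ℝ) ^ (-(1 / 4) : ℝ) :=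
    ae_all_iff.2 fun A => tail_ae h A
  have h2 : ∀ᵐ ω ∂P, ∀ k : ℕ, ∃ δ : ℝ, 0 < δ ∧ ∀ᶠ n : ℕ in atTop,
      |(reps (R z (fun p => a p ω)) n : ℝ) - sg (fun p => a p ω) n (TT δ n) * (√n / Real.log n)| ≤
        6 * (1 / (4 * ((k : ℝ) + 1))) * (sg (fun p => a p ω) n (TT δ n) * (√n / Real.log n)) := by
    refine ae_all_iff.2 fun k => ?_
    obtain ⟨δ, hδ, h3⟩ := main_eps h z hz (1 / (4 * ((k : ℝ) + 1))) (by positivity) (by
      rw [div_le_div_iff₀ (by positivity) (by norm_num)]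
      have : (0 : ℝ) ≤ k := Nat.cast_nonneg _
      linarith)
    filter_upwards [h3] with ω hω using ⟨δ, hδ, hω⟩
  filter_upwards [h1, h2] with ω w1 w2
  exact single (fun p => a p ω) _ w1 w2

end Pool.Agent.H559.BS
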