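import Pool.Agent.H559.BS.Local
import Pool.Graph.R_pool_sql_team_seeded_707910d6.T2H32.BF.Count

set_option autoImplicit false

/-! # Probabilities of the exceptional events -/

open Finset MeasureTheory ProbabilityTheory Filter Topology
open Pool.Agent.T2H32.BF (Model prob V V_pos V_anti V_ratio recip_le)

namespace Pool.Agent.H559.BS

variable {Ω : Type*} [MeasurableSpace Ω] {P : Measure Ω} {a : ℕ → Ω → ℕ}

/-- the level of the deterministic sieve -/
noncomputable def TT (δ : ℝ) (n : ℕ) : ℕ := ⌊(n : ℝ) ^ δ⌋₊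

theorem TT_le (δ : ℝ) (n : ℕ) : (TT δ n : ℝ) ≤ (n : ℝ) ^ δ := Nat.floor_le (by positivity)

theorem TT_ge (δ : ℝ) (hδ : 0 < δ) : ∀ᶠ n : ℕ in atTop, (n : ℝ) ^ δ / 2 ≤ TT δ n ∧ 1 ≤ TT δ n := by
  have h1 : Tendsto (fun n : ℕ => (n : ℝ) ^ δ) atTop atTop := (tendsto_rpow_atTop hδ).comp tendsto_natCast_atTop_atTop
  filter_upwards [h1.eventually_ge_atTop 2] with n hn
  have h2 := Nat.lt_floor_add_one ((n : ℝ) ^ δ)
  unfold TT
  refine ⟨by linarith, ?_⟩
  exact Nat.le_floor (by push_cast; linarith)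

theorem log_pow_le (k : ℕ) (δ C : ℝ) (hδ : 0 < δ) : ∀ᶠ n : ℕ in atTop, C * Real.log n ^ k ≤ (n : ℝ) ^ δ := by
  have h1 : (fun x : ℝ => Real.log x ^ k) =o[atTop] fun x => x ^ δ := by
    have := isLittleO_log_rpow_rpow_atTop (s := δ) (k : ℝ) hδ
    simpa using this
  have h2 : (fun x : ℝ => C * Real.log x ^ k) =o[atTop] fun x => x ^ δ := h1.const_mul_left C
  have h3 := (h2.bound one_pos)
  have h4 := tendsto_natCast_atTop_atTop (R := ℝ) |>.eventually h3
  filter_upwards [h4] with n hn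
  rw [one_mul, Real.norm_eq_abs, Real.norm_of_nonneg (by positivity)] at hn
  exact (le_abs_self _).trans hn

theorem blockP (h : Model P a) (δ ε₁ C : ℝ) (hδ : 0 < δ) (hδ2 : δ ≤ 1 / 2) (hε : 0 < ε₁) (hC : 0 < C) :
    ∀ᶠ n : ℕ in atTop, ∀ y Z : ℕ, y ^ 2 ≤ n → V (TT δ n) ≤ C * V Z →
      P.real {ω | ε₁ * (√n / Real.log n ^ 3) ≤ |((SS (fun i => a i ω) n y Z).card : ℝ) -
        (SS (fun i => a i ω) n y (TT δ n)).card * ∏ p ∈ (Ioc (TT δ n) Z).filter Nat.Prime, (1 - 1 / (p : ℝ))| ∧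
        TT δ n ≤ Z} ≤ 1 / (n : ℝ) ^ 2 := by
  have hlog : Tendsto (fun n : ℕ => Real.log n) atTop atTop := Real.tendsto_log_atTop.comp tendsto_natCast_atTop_atTop
  filter_upwards [TT_ge δ hδ, eventually_ge_atTop 2, hlog.eventually_ge_atTop (max 1 (4 * C / ε₁)),
    log_pow_le 8 δ (48 / ε₁) hδ] with n hT hn hL hpow y Z hy hV
  obtain ⟨hT2, hT1⟩ := hT
  set T := TT δ n with hTd
  set L := Real.log n with hLd
  have hL1 : 1 ≤ L := (le_max_left _ _).trans hL
  have hL2 : 4 * C / ε₁ ≤ L := (le_max_right _ _).trans hL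
  have hL0 : 0 < L := by linarith
  have hnR : (2 : ℝ) ≤ n := by exact_mod_cast hn
  have hn0 : (0 : ℝ) < n := by linarith
  have hT0 : (0 : ℝ) < T := by exact_mod_cast hT1
  have hsq : 0 < √(n : ℝ) := Real.sqrt_pos.2 hn0
  have hy' : (y : ℝ) ≤ √n := by
    rw [← Real.sqrt_sq (Nat.cast_nonneg y)]
    exact Real.sqrt_le_sqrt (by exact_mod_cast hy)
  have hTs : (T : ℝ) ≤ √n := by
    refine (TT_le δ n).trans ?_
    rw [Real.sqrt_eq_rpow]
    exact Real.rpow_le_rpow_of_exponent_le (by linarith) hδ2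
  set c : ℝ := 2 * (y / T + 1) with hc
  have hc0 : 0 < c := by positivity
  have hc1 : c ≤ 4 * √n / T := by
    rw [hc, le_div_iff₀ hT0]
    have : 2 * ((y : ℝ) / T + 1) * T = 2 * (y + T) := by field_simp
    rw [this]
    linarith
  have hc2 : (y : ℝ) ≤ c * T / 2 := by
    have : c * T / 2 = y + T := by
      rw [hc]
      field_simp
    rw [this]
    linarith
  set θ : ℝ := 1 / (c * L ^ 4) with hθ
  have hθ0 : 0 ≤ θ := by positivity
  have hθc : θ * c ≤ 1 := by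
    have : θ * c = 1 / L ^ 4 := by
      rw [hθ]
      field_simp
    rw [this, div_le_one (by positivity)]
    exact one_le_pow₀ hL1
  have hb := block h n y T Z hy hT1 θ (ε₁ * (√n / L ^ 3)) hθ0 hθc
  refine hb.trans ?_
  -- the sum over the primes
  have hsum : ∑ p ∈ (Ioc T Z).filter Nat.Prime, c / (p : ℝ) ≤ c * C := by
    have e : ∑ p ∈ (Ioc T Z).filter Nat.Prime, c / (p : ℝ) = c * ∑ p ∈ (Ioc T Z).filter Nat.Prime, 1 / (p : ℝ) := by
      rw [mul_sum]
      exact sum_congr rfl fun p _ => by ring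
    rw [e]
    refine mul_le_mul_of_nonneg_left ?_ hc0.le
    rcases le_or_gt T Z with h1 | h1
    · refine (recip_le T Z h1).trans ?_
      have h2 := V_pos Z
      have h3 := V_pos T
      have h4 : V T / V Z ≤ C := by
        rw [div_le_iff₀ h2]
        exact hV
      refine (Real.log_le_log (by positivity) h4).trans ?_
      have := Real.log_le_sub_one_of_pos hC
      linarith
    · rw [Ioc_eq_empty (by omega)]
      simp only [filter_empty, sum_empty]
      exact hC.le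
  have h5 : θ ^ 2 * (y * ∑ p ∈ (Ioc T Z).filter Nat.Prime, c / (p : ℝ)) ≤ T * C / (2 * L ^ 8) := by
    have h6 : (y : ℝ) * ∑ p ∈ (Ioc T Z).filter Nat.Prime, c / (p : ℝ) ≤ (c * T / 2) * (c * C) := by
      have : 0 ≤ ∑ p ∈ (Ioc T Z).filter Nat.Prime, c / (p : ℝ) := sum_nonneg fun p _ => by positivity
      exact mul_le_mul hc2 hsum this (by positivity)
    refine (mul_le_mul_of_nonneg_left h6 (sq_nonneg θ)).trans (le_of_eq ?_)
    rw [hθ]
    field_simp
  have h7 : ε₁ * T / (4 * L ^ 7) ≤ θ * (ε₁ * (√n / L ^ 3)) := by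
    have h8 : θ * (ε₁ * (√n / L ^ 3)) = ε₁ * √n / (c * L ^ 7) := by
      rw [hθ]
      field_simp
    rw [h8, div_le_div_iff₀ (by positivity) (by positivity)]
    have h9 : T * c ≤ 4 * √n := by
      rw [le_div_iff₀ hT0] at hc1
      linarith
    calc ε₁ * T * (c * L ^ 7) = ε₁ * (T * c) * L ^ 7 := by ring
      _ ≤ ε₁ * (4 * √n) * L ^ 7 := by gcongr
      _ = ε₁ * √n * (4 * L ^ 7) := by ring
  have h10 : T * C / (2 * L ^ 8) ≤ ε₁ * T / (8 * L ^ 7) := by
    rw [div_le_div_iff₀ (by positivity) (by positivity)]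
    rw [div_le_iff₀ hε] at hL2
    calc T * C * (8 * L ^ 7) = 2 * T * L ^ 7 * (4 * C) := by ring
      _ ≤ 2 * T * L ^ 7 * (L * ε₁) := by gcongr
      _ = ε₁ * T * (2 * L ^ 8) := by ring
  have h11 : 3 * L ≤ ε₁ * T / (8 * L ^ 7) := by
    rw [le_div_iff₀ (by positivity)]
    have h12 : 48 / ε₁ * L ^ 8 ≤ 2 * T := hpow.trans (by linarith)
    rw [div_mul_eq_mul_div, div_le_iff₀ hε] at h12
    calc 3 * L * (8 * L ^ 7) = 48 * L ^ 8 / 2 := by ring
      _ ≤ 2 * T * ε₁ / 2 := by gcongr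
      _ = ε₁ * T := by ring
  have h12 : -(θ * (ε₁ * (√n / L ^ 3))) + θ ^ 2 * (y * ∑ p ∈ (Ioc T Z).filter Nat.Prime, c / (p : ℝ)) ≤ -(3 * L) := by
    have : ε₁ * T / (4 * L ^ 7) = 2 * (ε₁ * T / (8 * L ^ 7)) := by ring
    linarith
  refine (mul_le_mul_of_nonneg_left (Real.exp_le_exp.2 h12) (by norm_num)).trans ?_
  have h13 : Real.exp (-(3 * L)) = 1 / (n : ℝ) ^ 3 := by
    rw [Real.exp_neg, show (3 : ℝ) * L = ((3 : ℕ) : ℝ) * L by norm_num, Real.exp_nat_mul, hLd, Real.exp_log hn0, one_div]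
  rw [h13, mul_one_div, div_le_div_iff₀ (by positivity) (by positivity)]
  nlinarith [pow_pos hn0 2]

end Pool.Agent.H559.BS
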