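import Pool.Agent.H559.BS.Tail

set_option autoImplicit false

/-! # The singular products converge -/

open Finset MeasureTheory ProbabilityTheory Filter Topology
open Pool.Agent.T2H32.BF (Model prob V V_pos V_anti)

namespace Pool.Agent.H559.BS

variable {Ω : Type*} [MeasurableSpace Ω] {P : Measure Ω} {a : ℕ → Ω → ℕ}

/-- the local factor -/
noncomputable def Fac (b : ℕ → ℕ) (n p : ℕ) : ℝ := (1 - ((Om b n p).card : ℝ) / p) / (1 - 1 / (p : ℝ))

/-- the truncated singular product -/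
noncomputable def sg (b : ℕ → ℕ) (n x : ℕ) : ℝ := ∏ p ∈ (range (x + 1)).filter Nat.Prime, Fac b n p

theorem Fac_eq (b : ℕ → ℕ) (n p : ℕ) (hp : p.Prime) :
    Fac b n p = 1 - (((Om b n p).card : ℝ) - 1) / ((p : ℝ) - 1) := by
  have h2 : (2 : ℝ) ≤ p := by exact_mod_cast hp.two_le
  have h3 : (p : ℝ) - 1 ≠ 0 := by linarith
  have h4 : (p : ℝ) ≠ 0 := by linarith
  unfold Fac
  have h5 : (1 : ℝ) - 1 / p ≠ 0 := by
    have : (1 : ℝ) / p ≤ 1 / 2 := by gcongr
    linarith
  field_simp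
  ring

theorem Om_two (b : ℕ → ℕ) (n : ℕ) : (Om b n 2).card ≤ 1 := by
  rw [card_le_one]
  intro r hr s hs
  unfold Om at hr hs
  rw [mem_filter, mem_range] at hr hs
  obtain ⟨hr1, hr2⟩ := hr
  obtain ⟨hs1, hs2⟩ := hs
  interval_cases r <;> interval_cases s <;> omega

theorem Fac_two (b : ℕ → ℕ) (n : ℕ) : 1 ≤ Fac b n 2 := by
  rw [Fac_eq b n 2 Nat.prime_two]
  have h1 : ((Om b n 2).card : ℝ) ≤ 1 := by exact_mod_cast Om_two b n
  push_cast
  linarith

theorem Fac_ge (b : ℕ → ℕ) (n p : ℕ) (hp : p.Prime) : 1 - 1 / ((p : ℝ) - 1) ≤ Fac b n p := by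
  rw [Fac_eq b n p hp]
  have h2 : (2 : ℝ) ≤ p := by exact_mod_cast hp.two_le
  have h1 : ((Om b n p).card : ℝ) ≤ 2 := by exact_mod_cast Om_card _ n p hp
  have h3 : 0 < (p : ℝ) - 1 := by linarith
  have : (((Om b n p).card : ℝ) - 1) / ((p : ℝ) - 1) ≤ 1 / ((p : ℝ) - 1) := by
    gcongr
    linarith
  linarith

theorem Fac_pos (b : ℕ → ℕ) (n p : ℕ) (hp : p.Prime) : 0 < Fac b n p := by
  rcases hp.two_le.eq_or_lt with h | h
  · rw [← h]
    linarith [Fac_two b n]
  · have h2 : (3 : ℝ) ≤ p := by exact_mod_cast h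
    have h3 : 1 / ((p : ℝ) - 1) ≤ 1 / 2 := by
      gcongr
      linarith
    linarith [Fac_ge b n p hp]

theorem sg_pos (b : ℕ → ℕ) (n x : ℕ) : 0 < sg b n x :=
  prod_pos fun p hp => Fac_pos b n p (mem_filter.1 hp).2

theorem sg_succ (b : ℕ → ℕ) (n x : ℕ) : sg b n (x + 1) = sg b n x * (if (x + 1).Prime then Fac b n (x + 1) else 1) := by
  unfold sg
  rw [range_add_one, filter_insert]
  split_ifs with h
  · rw [prod_insert (by simp)]
    ring
  · rw [mul_one]

theorem V_succ (x : ℕ) : V (x + 1) = V x * (if (x + 1).Prime then 1 - 1 / ((x + 1 : ℕ) : ℝ) else 1) := by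
  unfold V
  rw [range_add_one, filter_insert]
  split_ifs with h
  · rw [prod_insert (by simp)]
    ring
  · rw [mul_one]

theorem sg_ge (b : ℕ → ℕ) (n T : ℕ) : V T / 2 ≤ sg b n T := by
  have key : ∀ k : ℕ, V (k + 2) * ((1 / 2) * (1 + 1 / ((k : ℝ) + 1))) ≤ sg b n (k + 2) := by
    intro k
    induction k with
    | zero =>
      have h1 : sg b n 2 = Fac b n 2 := by
        unfold sg
        have : (range (2 + 1)).filter Nat.Prime = {2} := by decide
        rw [this, prod_singleton]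
      have h2 : V 2 = 1 / 2 := by
        unfold V
        have : (range (2 + 1)).filter Nat.Prime = {2} := by decide
        rw [this, prod_singleton]
        norm_num
      rw [zero_add, h1, h2]
      have := Fac_two b n
      push_cast
      linarith
    | succ k ih =>
      have e : k + 1 + 2 = (k + 2) + 1 := by ring
      rw [e, sg_succ, V_succ]
      have hV := V_pos (k + 2)
      have hS := sg_pos b n (k + 2)
      have hk : (0 : ℝ) ≤ k := Nat.cast_nonneg k
      split_ifs with h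
      · have h1 := Fac_ge b n (k + 2 + 1) h
        push_cast at h1 ⊢
        have h0 : 0 ≤ 1 - 1 / ((k : ℝ) + 2 + 1 - 1) := by
          have : 1 / ((k : ℝ) + 2 + 1 - 1) ≤ 1 / 2 := by
            gcongr
            linarith
          linarith
        calc V (k + 2) * (1 - 1 / ((k : ℝ) + 2 + 1)) * (1 / 2 * (1 + 1 / ((k : ℝ) + 1 + 1)))
            = V (k + 2) * (1 / 2 * (1 + 1 / ((k : ℝ) + 1))) * (1 - 1 / ((k : ℝ) + 2 + 1 - 1)) := by
              have h2 : (k : ℝ) + 1 ≠ 0 := by positivity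
              have h3 : (k : ℝ) + 2 ≠ 0 := by positivity
              have h4 : (k : ℝ) + 2 + 1 ≠ 0 := by positivity
              have h5 : (k : ℝ) + 1 + 1 ≠ 0 := by positivity
              have h6 : (k : ℝ) + 2 + 1 - 1 ≠ 0 := by linarith
              field_simp
              ring
          _ ≤ sg b n (k + 2) * Fac b n (k + 2 + 1) := by
              exact mul_le_mul ih h1 h0 hS.le
      · rw [mul_one, mul_one]
        refine le_trans ?_ ih
        push_cast
        have h2 : 1 / ((k : ℝ) + 1 + 1) ≤ 1 / ((k : ℝ) + 1) := by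
          gcongr
          linarith
        gcongr
  rcases le_or_gt 2 T with h | h
  · obtain ⟨k, rfl⟩ := Nat.exists_eq_add_of_le' h
    refine le_trans ?_ (key k)
    have hV := V_pos (k + 2)
    have h2 : 0 ≤ 1 / ((k : ℝ) + 1) := by positivity
    nlinarith
  · have h1 : (range (T + 1)).filter Nat.Prime = ∅ := by
      refine filter_eq_empty_iff.2 fun p hp hpp => ?_
      have := hpp.two_le
      rw [mem_range] at hp
      omega
    unfold sg V
    rw [h1]
    norm_num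

/-- the logarithm of a factor -/
theorem log_Fac (b : ℕ → ℕ) (n p : ℕ) (hp : p.Prime) (h3 : 3 ≤ p) :
    |Real.log (Fac b n p) + X n p (b p)| ≤ 10 * (1 / (p : ℝ) ^ 2) := by
  have hp3 : (3 : ℝ) ≤ p := by exact_mod_cast h3
  have h1 : ((Om b n p).card : ℝ) ≤ 2 := by exact_mod_cast Om_card _ n p hp
  have h2 : (0 : ℝ) ≤ ((Om b n p).card : ℝ) := Nat.cast_nonneg _
  set ξ : ℝ := ((Om b n p).card : ℝ) - 1 with hξ
  have hξ1 : |ξ| ≤ 1 := by
    rw [abs_le]
    constructor <;> linarith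
  have hX : X n p (b p) = ξ / p := rfl
  set v : ℝ := ξ / ((p : ℝ) - 1) with hv
  have hF : Fac b n p = 1 - v := Fac_eq b n p hp
  have hvabs : |v| ≤ 1 / ((p : ℝ) - 1) := by
    rw [hv, abs_div, abs_of_pos (by linarith : (0 : ℝ) < (p : ℝ) - 1)]
    gcongr
    linarith
  have hv2 : |v| ≤ 1 / 2 := by
    refine hvabs.trans ?_
    gcongr
    linarith
  have hv3 : v ≤ 1 / 2 := (le_abs_self v).trans hv2
  have hpos : 0 < 1 - v := by linarith
  have hlog1 : Real.log (1 - v) ≤ -v := by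
    have := Real.log_le_sub_one_of_pos hpos
    linarith
  have hlog2 : -v - 2 * v ^ 2 ≤ Real.log (1 - v) := by
    have h4 := Real.one_sub_inv_le_log_of_pos hpos
    refine le_trans ?_ h4
    have h5 : (1 - v)⁻¹ ≤ 1 + v + 2 * v ^ 2 := by
      rw [inv_le_iff_one_le_mul₀ hpos]
      nlinarith [sq_nonneg v]
    linarith
  have hlog : |Real.log (1 - v) + v| ≤ 2 * v ^ 2 := by
    rw [abs_le]
    constructor
    · linarith
    · nlinarith [sq_nonneg v]
  have hvsq : v ^ 2 ≤ 4 * (1 / (p : ℝ) ^ 2) := by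
    rw [← sq_abs]
    calc |v| ^ 2 ≤ (1 / ((p : ℝ) - 1)) ^ 2 := pow_le_pow_left₀ (abs_nonneg _) hvabs 2
      _ ≤ (2 / (p : ℝ)) ^ 2 := by
          apply pow_le_pow_left₀ (by
            have : 0 < (p : ℝ) - 1 := by linarith
            positivity)
          rw [div_le_div_iff₀ (by linarith) (by linarith)]
          linarith
      _ = _ := by ring
  have hdiff : |ξ / p - v| ≤ 2 * (1 / (p : ℝ) ^ 2) := by
    have e : ξ / p - v = -(ξ / (p * ((p : ℝ) - 1))) := by
      rw [hv]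
      have : (p : ℝ) - 1 ≠ 0 := by linarith
      field_simp
      ring
    rw [e, abs_neg, abs_div, abs_of_pos (show (0 : ℝ) < p * ((p : ℝ) - 1) by nlinarith)]
    rw [div_le_iff₀ (by nlinarith)]
    have h6 : 2 * (1 / (p : ℝ) ^ 2) * (p * ((p : ℝ) - 1)) = 2 - 2 / p := by
      field_simp
    rw [h6]
    have : 2 / (p : ℝ) ≤ 2 / 3 := by gcongr
    linarith
  rw [hF, hX]
  calc |Real.log (1 - v) + ξ / p| = |(Real.log (1 - v) + v) + (ξ / p - v)| := by
        congr 1
        ring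
    _ ≤ |Real.log (1 - v) + v| + |ξ / p - v| := abs_add_le _ _
    _ ≤ 2 * v ^ 2 + 2 * (1 / (p : ℝ) ^ 2) := add_le_add hlog hdiff
    _ ≤ _ := by linarith

theorem sg_ratio (b : ℕ → ℕ) (n u x : ℕ) (hux : u ≤ x) :
    Real.log (sg b n x) = Real.log (sg b n u) + ∑ p ∈ (Ioc u x).filter Nat.Prime, Real.log (Fac b n p) := by
  have h1 : sg b n x = sg b n u * ∏ p ∈ (Ioc u x).filter Nat.Prime, Fac b n p := by
    unfold sg
    rw [← prod_union]
    · congr 1
      ext p
      simp only [mem_filter, mem_range, mem_union, mem_Ioc]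
      constructor
      · rintro ⟨h1, h2⟩
        by_cases h3 : p < u + 1
        · exact Or.inl ⟨h3, h2⟩
        · exact Or.inr ⟨⟨by omega, by omega⟩, h2⟩
      · rintro (⟨h1, h2⟩ | ⟨⟨h1, h1'⟩, h2⟩)
        · exact ⟨by omega, h2⟩
        · exact ⟨by omega, h2⟩
    · rw [disjoint_left]
      intro p hp hp'
      simp only [mem_filter, mem_range, mem_Ioc] at hp hp'
      omega
  have h2 : ∀ p ∈ (Ioc u x).filter Nat.Prime, Fac b n p ≠ 0 := fun p hp => (Fac_pos b n p (mem_filter.1 hp).2).ne'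
  rw [h1, Real.log_mul (sg_pos b n u).ne' (prod_ne_zero_iff.2 h2), Real.log_prod h2]

theorem sg_close (b : ℕ → ℕ) (n u x : ℕ) (hux : u ≤ x) (hu : 2 ≤ u) (η : ℝ)
    (hη : |∑ p ∈ (Ioc u x).filter Nat.Prime, X n p (b p)| ≤ η) :
    |Real.log (sg b n x) - Real.log (sg b n u)| ≤ η + 10 / u := by
  rw [sg_ratio b n u x hux, add_sub_cancel_left]
  have e : ∑ p ∈ (Ioc u x).filter Nat.Prime, Real.log (Fac b n p) =
      ∑ p ∈ (Ioc u x).filter Nat.Prime, (Real.log (Fac b n p) + X n p (b p)) -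
      ∑ p ∈ (Ioc u x).filter Nat.Prime, X n p (b p) := by
    rw [← sum_sub_distrib]
    exact sum_congr rfl fun p _ => by ring
  rw [e]
  have h1 : |∑ p ∈ (Ioc u x).filter Nat.Prime, (Real.log (Fac b n p) + X n p (b p))| ≤ 10 / u := by
    calc _ ≤ ∑ p ∈ (Ioc u x).filter Nat.Prime, |Real.log (Fac b n p) + X n p (b p)| := abs_sum_le_sum_abs _ _
      _ ≤ ∑ p ∈ (Ioc u x).filter Nat.Prime, 10 * (1 / (p : ℝ) ^ 2) := by
          refine sum_le_sum fun p hp => ?_
          rw [mem_filter, mem_Ioc] at hp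
          exact log_Fac b n p hp.2 (by omega)
      _ = 10 * ∑ p ∈ (Ioc u x).filter Nat.Prime, (1 : ℝ) / (p : ℝ) ^ 2 := by rw [mul_sum]
      _ ≤ 10 * (1 / u) := by
          gcongr
          exact sum_sq u x (by omega)
      _ = _ := by ring
  have h2 := abs_sub (∑ p ∈ (Ioc u x).filter Nat.Prime, (Real.log (Fac b n p) + X n p (b p)))
    (∑ p ∈ (Ioc u x).filter Nat.Prime, X n p (b p))
  linarith

/-- from squares to all endpoints -/
theorem chain (b : ℕ → ℕ) (n u0 : ℕ) (hu0 : 16 ≤ u0)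
    (hgood : ∀ u ≥ u0, ∀ x ≤ u ^ 2, |∑ p ∈ (Ioc u x).filter Nat.Prime, X n p (b p)| ≤ (u : ℝ) ^ (-(1 / 4) : ℝ)) :
    ∀ d : ℕ, ∀ u ≥ u0, ∀ x ≤ u + d, |∑ p ∈ (Ioc u x).filter Nat.Prime, X n p (b p)| ≤ 2 * (u : ℝ) ^ (-(1 / 4) : ℝ) := by
  intro d
  induction d using Nat.strong_induction_on with
  | _ d ih =>
    intro u hu x hx
    have hu16 : (16 : ℝ) ≤ u := by exact_mod_cast hu0.trans hu
    have hupos : (0 : ℝ) < u := by linarith
    have hr : 0 ≤ (u : ℝ) ^ (-(1 / 4) : ℝ) := by positivity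
    rcases le_or_gt x (u ^ 2) with h1 | h1
    · have := hgood u hu x h1
      linarith
    · have h2 : u ≤ u ^ 2 := Nat.le_self_pow (by norm_num) u
      have hlt : u < u ^ 2 := by nlinarith
      have e : (Ioc u x).filter Nat.Prime = (Ioc u (u ^ 2)).filter Nat.Prime ∪ (Ioc (u ^ 2) x).filter Nat.Prime := by
        rw [← filter_union, Ioc_union_Ioc_eq_Ioc h2 h1.le]
      have hd : Disjoint ((Ioc u (u ^ 2)).filter Nat.Prime) ((Ioc (u ^ 2) x).filter Nat.Prime) := by
        rw [disjoint_left]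
        intro p hp hp'
        rw [mem_filter, mem_Ioc] at hp hp'
        omega
      rw [e, sum_union hd]
      have h3 := hgood u hu (u ^ 2) le_rfl
      have h4 := ih (d - 1) (by omega) (u ^ 2) (by omega) x (by omega)
      have h5 : (((u ^ 2 : ℕ)) : ℝ) ^ (-(1 / 4) : ℝ) = (u : ℝ) ^ (-(1 / 4) : ℝ) * (u : ℝ) ^ (-(1 / 4) : ℝ) := by
        rw [← Real.rpow_add hupos]
        push_cast
        rw [← Real.rpow_natCast, ← Real.rpow_mul hupos.le]
        norm_num
      have h6 : (u : ℝ) ^ (-(1 / 4) : ℝ) ≤ 1 / 2 := by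
        have h7 : (u : ℝ) ^ (-(1 / 4) : ℝ) ≤ (16 : ℝ) ^ (-(1 / 4) : ℝ) :=
          Real.rpow_le_rpow_of_nonpos (by norm_num) hu16 (by norm_num)
        have h8 : (16 : ℝ) ^ (-(1 / 4) : ℝ) = 1 / 2 := by
          rw [show (16 : ℝ) = 2 ^ (4 : ℝ) by norm_num, ← Real.rpow_mul (by norm_num)]
          norm_num
        linarith
      rw [h5] at h4
      have h9 := abs_add_le (∑ p ∈ (Ioc u (u ^ 2)).filter Nat.Prime, X n p (b p))
        (∑ p ∈ (Ioc (u ^ 2) x).filter Nat.Prime, X n p (b p))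
      nlinarith

theorem conv (b : ℕ → ℕ) (n u0 : ℕ) (hu0 : 16 ≤ u0)
    (hgood : ∀ u ≥ u0, ∀ x ≤ u ^ 2, |∑ p ∈ (Ioc u x).filter Nat.Prime, X n p (b p)| ≤ (u : ℝ) ^ (-(1 / 4) : ℝ)) :
    ∃ S : ℝ, 0 < S ∧ Tendsto (sg b n) atTop (𝓝 S) ∧
      |Real.log S - Real.log (sg b n u0)| ≤ 2 * (u0 : ℝ) ^ (-(1 / 4) : ℝ) + 10 / u0 := by
  have hclose : ∀ u ≥ u0, ∀ x ≥ u, |Real.log (sg b n x) - Real.log (sg b n u)| ≤
      2 * (u : ℝ) ^ (-(1 / 4) : ℝ) + 10 / u := by
    intro u hu x hx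
    exact sg_close b n u x hx (by omega) _ (chain b n u0 hu0 hgood (x - u) u hu x (by omega))
  have hlim : Tendsto (fun u : ℕ => 2 * (u : ℝ) ^ (-(1 / 4) : ℝ) + 10 / u) atTop (𝓝 0) := by
    have h1 : Tendsto (fun u : ℕ => (u : ℝ) ^ (-(1 / 4) : ℝ)) atTop (𝓝 0) :=
      (tendsto_rpow_neg_atTop (by norm_num)).comp tendsto_natCast_atTop_atTop
    have h2 : Tendsto (fun u : ℕ => 10 / (u : ℝ)) atTop (𝓝 0) :=
      tendsto_const_nhds.div_atTop tendsto_natCast_atTop_atTop
    simpa using (h1.const_mul 2).add h2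
  have hc : CauchySeq (fun x => Real.log (sg b n x)) := by
    rw [Metric.cauchySeq_iff']
    intro ε hε
    obtain ⟨N, hN⟩ := eventually_atTop.1 ((hlim.eventually_lt_const hε).and (eventually_ge_atTop u0))
    refine ⟨N, fun x hx => ?_⟩
    rw [Real.dist_eq]
    exact (hclose N (hN N le_rfl).2 x hx).trans_lt (hN N le_rfl).1
  obtain ⟨l, hl⟩ := cauchySeq_tendsto_of_complete hc
  refine ⟨Real.exp l, Real.exp_pos l, ?_, ?_⟩
  · have h1 := (Real.continuous_exp.tendsto l).comp hl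
    refine h1.congr fun x => ?_
    simp only [Function.comp_apply]
    exact Real.exp_log (sg_pos b n x)
  · rw [Real.log_exp]
    have h1 : Tendsto (fun x => |Real.log (sg b n x) - Real.log (sg b n u0)|) atTop
        (𝓝 |l - Real.log (sg b n u0)|) := (hl.sub_const _).abs
    exact le_of_tendsto h1 (eventually_atTop.2 ⟨u0, fun x hx => hclose u0 le_rfl x hx⟩)

/-- **The exceptional events for the tails.** -/
theorem tail_ae (h : Model P a) (A : ℕ) : ∀ᵐ ω ∂P, ∀ᶠ u : ℕ in atTop, ∀ n ≤ u ^ A, ∀ x ≤ u ^ 2,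
    |∑ p ∈ (Ioc u x).filter Nat.Prime, X n p (a p ω)| ≤ (u : ℝ) ^ (-(1 / 4) : ℝ) := by
  have hprob := prob h
  set Bad : ℕ → Set Ω := fun u => ⋃ n ∈ range (u ^ A + 1), ⋃ x ∈ range (u ^ 2 + 1),
    {ω | (u : ℝ) ^ (-(1 / 4) : ℝ) ≤ |∑ p ∈ (Ioc u x).filter Nat.Prime, X n p (a p ω)|} with hBad
  have hP : ∀ u : ℕ, 1 ≤ u → P.real (Bad u) ≤ ((u : ℝ) ^ A + 1) * ((u : ℝ) ^ 2 + 1) *
      (2 * Real.exp (-(u : ℝ) ^ (1 / 2 : ℝ) / 4)) := by
    intro u hu
    rw [hBad]
    refine (measureReal_biUnion_finset_le _ _).trans ?_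
    have h1 : ∀ n ∈ range (u ^ A + 1), P.real (⋃ x ∈ range (u ^ 2 + 1),
        {ω | (u : ℝ) ^ (-(1 / 4) : ℝ) ≤ |∑ p ∈ (Ioc u x).filter Nat.Prime, X n p (a p ω)|}) ≤
        ((u : ℝ) ^ 2 + 1) * (2 * Real.exp (-(u : ℝ) ^ (1 / 2 : ℝ) / 4)) := by
      intro n _
      refine (measureReal_biUnion_finset_le _ _).trans ?_
      refine (sum_le_sum fun x _ => tailP h n u x hu).trans (le_of_eq ?_)
      rw [sum_const, card_range, nsmul_eq_mul]
      push_cast
      ring
    refine (sum_le_sum h1).trans (le_of_eq ?_)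
    rw [sum_const, card_range, nsmul_eq_mul]
    push_cast
    ring
  have hev : ∀ᶠ u : ℕ in atTop, P.real (Bad u) ≤ 1 / (u : ℝ) ^ 2 := by
    have h1 : Tendsto (fun x : ℝ => x ^ (2 * A + 8) * Real.exp (-x / 4)) atTop (𝓝 0) := by
      have h2 := (Real.tendsto_pow_mul_exp_neg_atTop_nhds_zero (2 * A + 8)).comp
        (tendsto_id.atTop_div_const (show (0 : ℝ) < 4 by norm_num))
      have h3 := h2.const_mul ((4 : ℝ) ^ (2 * A + 8))
      rw [mul_zero] at h3
      refine h3.congr fun x => ?_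
      simp only [Function.comp_apply, id_eq]
      rw [← mul_assoc, ← mul_pow, neg_div]
      congr 2
      ring
    have h4 : Tendsto (fun u : ℕ => (u : ℝ) ^ (1 / 2 : ℝ)) atTop atTop :=
      (tendsto_rpow_atTop (by norm_num)).comp tendsto_natCast_atTop_atTop
    have h5 := (h1.comp h4).eventually_lt_const (show (0 : ℝ) < 1 / 8 by norm_num)
    filter_upwards [h5, eventually_ge_atTop 1] with u h6 hu
    have hu1 : (1 : ℝ) ≤ u := by exact_mod_cast hu
    simp only [Function.comp_apply] at h6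
    have h7 : ((u : ℝ) ^ (1 / 2 : ℝ)) ^ (2 * A + 8) = (u : ℝ) ^ (A + 4) := by
      rw [← Real.rpow_natCast, ← Real.rpow_mul (by linarith), ← Real.rpow_natCast]
      congr 1
      push_cast
      ring
    rw [h7] at h6
    refine (hP u hu).trans ?_
    rw [le_div_iff₀ (by positivity)]
    have h8 : (u : ℝ) ^ A + 1 ≤ 2 * (u : ℝ) ^ A := by
      have := one_le_pow₀ hu1 (n := A)
      linarith
    have h9 : (u : ℝ) ^ 2 + 1 ≤ 2 * (u : ℝ) ^ 2 := by nlinarith
    set E := Real.exp (-(u : ℝ) ^ (1 / 2 : ℝ) / 4) with hE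
    have hE0 : 0 < E := Real.exp_pos _
    calc ((u : ℝ) ^ A + 1) * ((u : ℝ) ^ 2 + 1) * (2 * E) * (u : ℝ) ^ 2
        ≤ (2 * (u : ℝ) ^ A) * (2 * (u : ℝ) ^ 2) * (2 * E) * (u : ℝ) ^ 2 := by gcongr
      _ = 8 * ((u : ℝ) ^ (A + 4) * E) := by ring
      _ ≤ 8 * (1 / 8) := by
          have := h6.le
          gcongr
      _ = 1 := by norm_num
  have hsum : ∑' u, P (Bad u) ≠ ⊤ := by
    obtain ⟨N, hN⟩ := eventually_atTop.1 hev
    have h1 : ∀ u, P (Bad u) ≤ ENNReal.ofReal (if u < N then 1 else 1 / (u : ℝ) ^ 2) := by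
      intro u
      rw [← ENNReal.ofReal_toReal (measure_ne_top P (Bad u))]
      refine ENNReal.ofReal_le_ofReal ?_
      split_ifs with h2
      · exact measureReal_le_one
      · exact hN u (by omega)
    have h2 : Summable (fun u : ℕ => if u < N then (1 : ℝ) else 1 / (u : ℝ) ^ 2) := by
      have h3 : Summable (fun u : ℕ => 1 / (u : ℝ) ^ 2) := Real.summable_one_div_nat_pow.2 (by norm_num)
      refine (summable_congr_cofinite ?_).1 h3
      rw [Filter.EventuallyEq, Nat.cofinite_eq_atTop]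
      filter_upwards [eventually_ge_atTop N] with u hu
      rw [if_neg (by omega)]
    refine ne_top_of_le_ne_top ?_ (ENNReal.tsum_le_tsum h1)
    rw [← ENNReal.ofReal_tsum_of_nonneg (fun u => by split_ifs <;> positivity) h2]
    exact ENNReal.ofReal_ne_top
  filter_upwards [ae_eventually_notMem hsum] with ω hω
  filter_upwards [hω] with u hu n hn x hx
  by_contra hcon
  apply hu
  rw [hBad]
  simp only [Set.mem_iUnion, mem_range, exists_prop]
  exact ⟨n, by omega, x, by omega, (not_le.1 hcon).le⟩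

end Pool.Agent.H559.BS
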