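import Pool.Agent.H559.BS.Prob

set_option autoImplicit false

/-! # The tails of the singular products -/

open Finset MeasureTheory ProbabilityTheory Filter Topology
open Pool.Agent.T2H32.BF (Model prob split_class)

namespace Pool.Agent.H559.BS

variable {Ω : Type*} [MeasurableSpace Ω] {P : Measure Ω} {a : ℕ → Ω → ℕ}

/-- almost surely `a p < p` -/
theorem ae_lt (h : Model P a) : ∀ᵐ ω ∂P, ∀ p : ℕ, p.Prime → a p ω < p := by
  have := prob h
  rw [ae_all_iff]
  intro p
  by_cases hp : p.Prime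
  · have hm : MeasurableSet {ω | a p ω < p} := measurableSet_lt (h.measurable p) measurable_const
    have h1 := split_class h p hp _ hm
    have h2 : P.real {ω | a p ω < p} = 1 := by
      rw [h1]
      have h3 : ∀ r ∈ range p, P.real ({ω | a p ω = r} ∩ {ω | a p ω < p}) = 1 / p := by
        intro r hr
        have e : {ω | a p ω = r} ∩ {ω | a p ω < p} = {ω | a p ω = r} := by
          refine Set.inter_eq_left.2 fun ω hω => ?_
          show a p ω < p
          rw [show a p ω = r from hω]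
          exact mem_range.1 hr
        rw [e]
        exact h.uniform p hp r (mem_range.1 hr)
      rw [sum_congr rfl h3, sum_const, card_range, nsmul_eq_mul]
      have : (p : ℝ) ≠ 0 := by exact_mod_cast hp.ne_zero
      field_simp
    have h3 : P {ω | a p ω < p}ᶜ = 0 := by
      have h4 : P.real {ω | a p ω < p}ᶜ = 0 := by rw [probReal_compl_eq_one_sub hm, h2, sub_self]
      exact (measureReal_eq_zero_iff (measure_ne_top _ _)).1 h4
    filter_upwards [compl_mem_ae_iff.2 h3] with ω hω _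
    simpa using hω
  · exact Eventually.of_forall fun ω h => absurd h hp

/-- the expectation of a function of a class -/
theorem integral_class (h : Model P a) (p : ℕ) (hp : p.Prime) (f : ℕ → ℝ) :
    ∫ ω, f (a p ω) ∂P = (1 / p) * ∑ r ∈ range p, f r := by
  have := prob h
  have hm : ∀ r, MeasurableSet {ω | a p ω = r} := fun r => h.measurable p (measurableSet_singleton r)
  have h1 : (fun ω => f (a p ω)) =ᵐ[P] fun ω => ∑ r ∈ range p, ({ω | a p ω = r}).indicator (fun _ => f r) ω := by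
    filter_upwards [ae_lt h] with ω hω
    have h2 := hω p hp
    rw [sum_eq_single_of_mem (a p ω) (mem_range.2 h2)]
    · rw [Set.indicator_of_mem]
      rfl
    · intro r _ hr
      rw [Set.indicator_of_notMem]
      exact fun h => hr h.symm
  rw [integral_congr_ae h1, integral_finsetSum _ fun r _ => (integrable_const (f r)).indicator (hm r), mul_sum]
  refine sum_congr rfl fun r hr => ?_
  rw [integral_indicator_const _ (hm r), h.uniform p hp r (mem_range.1 hr), smul_eq_mul]

/-- the deviation of the number of the roots from its mean value -/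
noncomputable def X (n p r : ℕ) : ℝ := (((Om (fun _ => r) n p).card : ℝ) - 1) / p

theorem Om_const (b : ℕ → ℕ) (n p : ℕ) : Om b n p = Om (fun _ => b p) n p := rfl

theorem X_abs (n p r : ℕ) (hp : p.Prime) : |X n p r| ≤ 1 / p := by
  have hp0 : (0 : ℝ) < p := by exact_mod_cast hp.pos
  have h1 : ((Om (fun _ => r) n p).card : ℝ) ≤ 2 := by exact_mod_cast Om_card _ n p hp
  have h2 : (0 : ℝ) ≤ ((Om (fun _ => r) n p).card : ℝ) := Nat.cast_nonneg _
  unfold X
  rw [abs_div, abs_of_pos hp0]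
  gcongr
  rw [abs_le]
  constructor <;> linarith

theorem Om_sum (n p : ℕ) (hp : p.Prime) : ∑ r ∈ range p, (Om (fun _ => r) n p).card = p := by
  have e : ∀ r, (Om (fun _ => r) n p).card = ∑ s ∈ range p, if (s ^ 2 + r) % p = n % p then 1 else 0 := by
    intro r
    unfold Om
    rw [card_filter]
  simp only [e]
  rw [sum_comm]
  have h1 : ∀ s ∈ range p, ∑ r ∈ range p, (if (s ^ 2 + r) % p = n % p then 1 else 0) = 1 := by
    intro s _
    rw [← card_filter, card_eq_one]
    have hp1 : 1 ≤ p := hp.one_le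
    refine ⟨(n + (p * s ^ 2 - s ^ 2)) % p, ?_⟩
    have hle : s ^ 2 ≤ p * s ^ 2 := Nat.le_mul_of_pos_left _ hp.pos
    ext r
    rw [mem_filter, mem_range, mem_singleton]
    constructor
    · rintro ⟨h1, h2⟩
      have h3 : s ^ 2 + r ≡ s ^ 2 + (n + (p * s ^ 2 - s ^ 2)) [MOD p] := by
        have h4 : s ^ 2 + (n + (p * s ^ 2 - s ^ 2)) = n + p * s ^ 2 := by omega
        rw [h4]
        unfold Nat.ModEq
        rw [Nat.add_mul_mod_self_left]
        exact h2
      have h5 := Nat.ModEq.add_left_cancel' _ h3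
      unfold Nat.ModEq at h5
      rw [Nat.mod_eq_of_lt h1] at h5
      exact h5
    · intro h1
      subst h1
      refine ⟨Nat.mod_lt _ hp.pos, ?_⟩
      rw [Nat.add_mod_mod]
      have h4 : s ^ 2 + (n + (p * s ^ 2 - s ^ 2)) = n + p * s ^ 2 := by omega
      rw [h4, Nat.add_mul_mod_self_left]
  rw [sum_congr rfl h1]
  simp

theorem X_sum (n p : ℕ) (hp : p.Prime) : ∑ r ∈ range p, X n p r = 0 := by
  unfold X
  rw [← sum_div, sum_sub_distrib]
  have h1 : ∑ r ∈ range p, ((Om (fun _ => r) n p).card : ℝ) = p := by exact_mod_cast Om_sum n p hp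
  rw [h1]
  simp

theorem mgf_X (h : Model P a) (n p : ℕ) (hp : p.Prime) (t : ℝ) (ht : |t| ≤ p) :
    mgf (fun ω => X n p (a p ω)) P t ≤ Real.exp (t ^ 2 / p ^ 2) := by
  have hp0 : (0 : ℝ) < p := by exact_mod_cast hp.pos
  have h1 : mgf (fun ω => X n p (a p ω)) P t = (1 / p) * ∑ r ∈ range p, Real.exp (t * X n p r) := by
    unfold mgf
    exact integral_class h p hp (fun r => Real.exp (t * X n p r))
  have h2 := exp_avg p hp.pos (fun r => t * X n p r) (by rw [← mul_sum, X_sum n p hp, mul_zero]) (by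
    intro r _
    rw [abs_mul]
    calc |t| * |X n p r| ≤ p * (1 / p) := by
          gcongr
          exact X_abs n p r hp
      _ = 1 := by field_simp)
  rw [h1]
  refine h2.trans (Real.exp_le_exp.2 ?_)
  have h3 : ∀ r ∈ range p, (t * X n p r) ^ 2 ≤ t ^ 2 / p ^ 2 := by
    intro r _
    rw [mul_pow, div_eq_mul_one_div]
    have h4 : X n p r ^ 2 ≤ (1 / (p : ℝ)) ^ 2 := by
      rw [← sq_abs]
      exact pow_le_pow_left₀ (abs_nonneg _) (X_abs n p r hp) 2
    calc t ^ 2 * X n p r ^ 2 ≤ t ^ 2 * (1 / (p : ℝ)) ^ 2 := by gcongr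
      _ = _ := by ring
  calc (1 / (p : ℝ)) * ∑ r ∈ range p, (t * X n p r) ^ 2 ≤ (1 / (p : ℝ)) * ∑ _r ∈ range p, t ^ 2 / p ^ 2 := by
        gcongr with r hr
        exact h3 r hr
    _ = t ^ 2 / p ^ 2 := by
        rw [sum_const, card_range, nsmul_eq_mul]
        field_simp

theorem sum_sq (u x : ℕ) (hu : 1 ≤ u) :
    ∑ p ∈ (Ioc u x).filter Nat.Prime, (1 : ℝ) / (p : ℝ) ^ 2 ≤ (1 : ℝ) / (u : ℝ) := by
  have h1 : ∀ x : ℕ, ∑ k ∈ Ioc u x, (1 : ℝ) / (k : ℝ) ^ 2 ≤
      (1 : ℝ) / (u : ℝ) - (if u ≤ x then (1 : ℝ) / (x : ℝ) else (1 : ℝ) / (u : ℝ)) := by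
    intro x
    induction x with
    | zero =>
      have : Ioc u 0 = ∅ := Ioc_eq_empty (by omega)
      rw [this]
      rw [if_neg (by omega)]
      simp
    | succ x ih =>
      by_cases h : u ≤ x
      · rw [sum_Ioc_succ_top h, if_pos (by omega)]
        rw [if_pos h] at ih
        have hx : (1 : ℝ) ≤ x := by exact_mod_cast hu.trans h
        have h2 : 1 / (((x + 1 : ℕ) : ℝ)) ^ 2 ≤ 1 / (x : ℝ) - 1 / ((x + 1 : ℕ) : ℝ) := by
          push_cast
          rw [div_sub_div _ _ (by positivity) (by positivity), div_le_div_iff₀ (by positivity) (by positivity)]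
          nlinarith
        linarith
      · by_cases h3 : u ≤ x + 1
        · have : u = x + 1 := by omega
          rw [this, if_pos le_rfl]
          simp
        · rw [if_neg h3, Ioc_eq_empty (by omega)]
          simp
  have hu0 : (0 : ℝ) < u := by exact_mod_cast hu
  calc ∑ p ∈ (Ioc u x).filter Nat.Prime, 1 / (p : ℝ) ^ 2 ≤ ∑ k ∈ Ioc u x, 1 / (k : ℝ) ^ 2 :=
        sum_le_sum_of_subset_of_nonneg (filter_subset _ _) fun _ _ _ => by positivity
    _ ≤ _ := h1 x
    _ ≤ 1 / u := by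
        split_ifs
        · have : 0 ≤ 1 / (x : ℝ) := by positivity
          linarith
        · have : 0 ≤ 1 / (u : ℝ) := by positivity
          linarith

/-- one-sided bound -/
theorem tail_one (h : Model P a) (n u x : ℕ) (hu : 1 ≤ u) (t lam : ℝ) (ht : |t| ≤ u) (s : ℝ) (hs : s = 1 ∨ s = -1)
    (ht0 : 0 ≤ t) :
    P.real {ω | lam ≤ s * ∑ p ∈ (Ioc u x).filter Nat.Prime, X n p (a p ω)} ≤ Real.exp (-(t * lam) + t ^ 2 / u) := by
  have hprob := prob h
  set L := (Ioc u x).filter Nat.Prime with hL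
  have hmeas : ∀ p, Measurable (fun ω => X n p (a p ω)) := fun p =>
    (measurable_from_top (f := X n p)).comp (h.measurable p)
  have hind : iIndepFun (fun p ω => X n p (a p ω)) P :=
    h.independent.comp (fun p => X n p) (fun p => measurable_from_top)
  set Y : Ω → ℝ := ∑ p ∈ L, fun ω => X n p (a p ω) with hY
  have hYe : ∀ ω, ∑ p ∈ L, X n p (a p ω) = Y ω := fun ω => by rw [hY, Finset.sum_apply]
  have hmgf : ∀ t : ℝ, |t| ≤ u → mgf Y P t ≤ Real.exp (t ^ 2 / u) := by
    intro t ht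
    rw [hY, hind.mgf_sum hmeas L]
    calc ∏ p ∈ L, mgf (fun ω => X n p (a p ω)) P t ≤ ∏ p ∈ L, Real.exp (t ^ 2 / p ^ 2) := by
          refine prod_le_prod (fun p _ => mgf_nonneg) fun p hp => ?_
          rw [hL, mem_filter, mem_Ioc] at hp
          refine mgf_X h n p hp.2 t (ht.trans ?_)
          exact_mod_cast hp.1.1.le
      _ = Real.exp (∑ p ∈ L, t ^ 2 / p ^ 2) := (Real.exp_sum _ _).symm
      _ ≤ _ := by
          apply Real.exp_le_exp.2
          have h1 := sum_sq u x hu
          have e : ∑ p ∈ L, t ^ 2 / (p : ℝ) ^ 2 = t ^ 2 * ∑ p ∈ L, 1 / (p : ℝ) ^ 2 := by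
            rw [mul_sum]
            exact sum_congr rfl fun p _ => by ring
          rw [e, div_eq_mul_one_div]
          exact mul_le_mul_of_nonneg_left h1 (sq_nonneg t)
  -- boundedness
  have hYb : ∀ ω, |Y ω| ≤ L.card := by
    intro ω
    rw [← hYe]
    calc |∑ p ∈ L, X n p (a p ω)| ≤ ∑ p ∈ L, |X n p (a p ω)| := abs_sum_le_sum_abs _ _
      _ ≤ ∑ p ∈ L, 1 := by
          refine sum_le_sum fun p hp => ?_
          have h2 := (mem_filter.1 hp).2
          refine (X_abs n p _ h2).trans ?_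
          rw [div_le_one (by exact_mod_cast h2.pos)]
          exact_mod_cast h2.one_le
      _ = L.card := by simp
  have hYm : Measurable Y := by
    have e : Y = fun ω => ∑ p ∈ L, X n p (a p ω) := funext fun ω => (hYe ω).symm
    rw [e]
    exact Finset.measurable_sum _ fun p _ => hmeas p
  have hint : ∀ t : ℝ, Integrable (fun ω => Real.exp (t * Y ω)) P := by
    intro t
    refine Integrable.of_bound ((Real.measurable_exp.comp (hYm.const_mul t)).aestronglyMeasurable)
      (Real.exp (|t| * L.card)) (Eventually.of_forall fun ω => ?_)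
    simp only [Real.norm_eq_abs, Real.abs_exp]
    apply Real.exp_le_exp.2
    calc t * Y ω ≤ |t * Y ω| := le_abs_self _
      _ = |t| * |Y ω| := abs_mul _ _
      _ ≤ _ := by gcongr; exact hYb ω
  rcases hs with hs | hs
  · subst hs
    simp only [one_mul, hYe]
    refine (measure_ge_le_exp_mul_mgf lam ht0 (hint t)).trans ?_
    calc Real.exp (-t * lam) * mgf Y P t ≤ Real.exp (-t * lam) * Real.exp (t ^ 2 / u) := by
          gcongr
          exact hmgf t ht
      _ = _ := by
          rw [← Real.exp_add]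
          congr 1
          ring
  · subst hs
    have e : {ω | lam ≤ -1 * ∑ p ∈ L, X n p (a p ω)} = {ω | Y ω ≤ -lam} := by
      ext ω
      simp only [Set.mem_ofPred_eq, hYe]
      constructor <;> intro h <;> linarith
    rw [e]
    refine (measure_le_le_exp_mul_mgf (-lam) (by linarith : -t ≤ 0) (hint (-t))).trans ?_
    calc Real.exp (-(-t) * -lam) * mgf Y P (-t) ≤ Real.exp (-(-t) * -lam) * Real.exp ((-t) ^ 2 / u) := by
          gcongr
          exact hmgf (-t) (by rwa [abs_neg])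
      _ = _ := by
          rw [← Real.exp_add]
          congr 1
          ring

theorem tailP (h : Model P a) (n u x : ℕ) (hu : 1 ≤ u) :
    P.real {ω | (u : ℝ) ^ (-(1 / 4) : ℝ) ≤ |∑ p ∈ (Ioc u x).filter Nat.Prime, X n p (a p ω)|} ≤
      2 * Real.exp (-(u : ℝ) ^ (1 / 2 : ℝ) / 4) := by
  have hprob := prob h
  have hu1 : (1 : ℝ) ≤ u := by exact_mod_cast hu
  have hu0 : (0 : ℝ) < u := by linarith
  set lam := (u : ℝ) ^ (-(1 / 4) : ℝ) with hlam
  set t : ℝ := (u : ℝ) ^ (3 / 4 : ℝ) / 2 with ht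
  have ht0 : 0 ≤ t := by positivity
  have htu : |t| ≤ u := by
    rw [abs_of_nonneg ht0, ht]
    have : (u : ℝ) ^ (3 / 4 : ℝ) ≤ (u : ℝ) ^ (1 : ℝ) := Real.rpow_le_rpow_of_exponent_le hu1 (by norm_num)
    rw [Real.rpow_one] at this
    linarith
  have h1 : t * lam = (u : ℝ) ^ (1 / 2 : ℝ) / 2 := by
    rw [ht, hlam, div_mul_eq_mul_div, ← Real.rpow_add hu0]
    norm_num
  have h2 : t ^ 2 / u = (u : ℝ) ^ (1 / 2 : ℝ) / 4 := by
    rw [ht, div_pow, ← Real.rpow_natCast, ← Real.rpow_mul hu0.le, div_div]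
    have e : (u : ℝ) ^ (3 / 4 * ((2 : ℕ) : ℝ)) = (u : ℝ) ^ (1 / 2 : ℝ) * u := by
      nth_rw 3 [← Real.rpow_one (u : ℝ)]
      rw [← Real.rpow_add hu0]
      norm_num
    rw [e]
    field_simp
    norm_num
  have h3 : -(t * lam) + t ^ 2 / u = -(u : ℝ) ^ (1 / 2 : ℝ) / 4 := by
    rw [h1, h2]
    ring
  have h4 := tail_one h n u x hu t lam htu 1 (Or.inl rfl) ht0
  have h5 := tail_one h n u x hu t lam htu (-1) (Or.inr rfl) ht0
  rw [h3] at h4 h5
  have e : {ω | lam ≤ |∑ p ∈ (Ioc u x).filter Nat.Prime, X n p (a p ω)|} ⊆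
      {ω | lam ≤ 1 * ∑ p ∈ (Ioc u x).filter Nat.Prime, X n p (a p ω)} ∪
      {ω | lam ≤ -1 * ∑ p ∈ (Ioc u x).filter Nat.Prime, X n p (a p ω)} := by
    intro ω hω
    rcases le_abs.1 (show lam ≤ |∑ p ∈ (Ioc u x).filter Nat.Prime, X n p (a p ω)| from hω) with h7 | h7
    · left
      show lam ≤ 1 * _
      rwa [one_mul]
    · right
      show lam ≤ -1 * _
      rwa [neg_one_mul]
  calc P.real _ ≤ P.real _ := measureReal_mono e (measure_ne_top _ _)
    _ ≤ _ := measureReal_union_le _ _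
    _ ≤ _ := by linarith

end Pool.Agent.H559.BS
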